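import Pool.Agent.Helper72.BH.Walk

/-!
# Interface of the division ring of series over a free group

`MN R D`: the division ring `D` consists of functions `co a : FreeGroup (Fin R) → ZMod 2`; it contains
the group (`u`), and multiplication by group elements is the translation of the functions. The only
property of the supports that is used is `fin`.
-/

set_option autoImplicit false

namespace Pool.Agent.Helper72.BH

open FreeGroup (of)

/-- The division ring `D` is a ring of series over `FreeGroup (Fin R)` with coefficients in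
`ZMod 2`. -/
structure MN (R : ℕ) (D : Type) [DivisionRing D] where
  /-- the coefficients -/
  co : D → FreeGroup (Fin R) → ZMod 2
  /-- the group elements -/
  u : FreeGroup (Fin R) →* D
  co_inj : Function.Injective co
  co_add : ∀ a b g, co (a + b) g = co a g + co b g
  co_u : ∀ g h, co (u g) h = if h = g then 1 else 0
  co_u_mul : ∀ x a g, co (u x * a) g = co a (x⁻¹ * g)
  co_mul_u : ∀ a x g, co (a * u x) g = co a (g * x⁻¹)
  fin : ∀ a b f, {g | co a g ≠ 0 ∧ co b (g⁻¹ * f) ≠ 0}.Finite
  restr : ∀ (S : Set (FreeGroup (Fin R))) (a : D), ∃ b, (∀ g ∈ S, co b g = co a g) ∧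
    ∀ g, g ∉ S → co b g = 0

namespace MN

variable {R : ℕ} {D : Type} [DivisionRing D] (M : MN R D)

@[simp] theorem co_zero (g : FreeGroup (Fin R)) : M.co 0 g = 0 := by
  have h := M.co_add 0 0 g
  simpa using h

theorem ext' {a b : D} (h : ∀ g, M.co a g = M.co b g) : a = b :=
  M.co_inj (funext h)

include M in
theorem add_self (a : D) : a + a = 0 := by
  apply M.ext'
  intro g
  rw [M.co_add, M.co_zero]
  exact CharTwo.add_self_eq_zero _

include M in
theorem neg_eq (a : D) : -a = a := (eq_neg_of_add_eq_zero_left (M.add_self a)).symm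

theorem co_sub (a b : D) (g : FreeGroup (Fin R)) : M.co (a - b) g = M.co a g - M.co b g := by
  rw [sub_eq_add_neg, M.neg_eq, M.co_add, CharTwo.sub_eq_add]

/-- The coefficients as an additive homomorphism. -/
def coHom (g : FreeGroup (Fin R)) : D →+ ZMod 2 where
  toFun a := M.co a g
  map_zero' := M.co_zero g
  map_add' a b := M.co_add a b g

theorem co_sum {ι : Type*} (s : Finset ι) (a : ι → D) (g : FreeGroup (Fin R)) :
    M.co (∑ i ∈ s, a i) g = ∑ i ∈ s, M.co (a i) g :=
  map_sum (M.coHom g) a s

theorem u_ne_zero (g : FreeGroup (Fin R)) : M.u g ≠ 0 := by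
  intro h
  have h1 := M.co_u g g
  rw [h, M.co_zero] at h1
  simp at h1

theorem u_inj : Function.Injective M.u := by
  intro g h hgh
  have h1 := M.co_u g g
  rw [hgh, M.co_u] at h1
  by_contra hne
  rw [if_neg (fun h2 => hne h2)] at h1
  simp at h1

theorem u_inv (g : FreeGroup (Fin R)) : M.u g⁻¹ = (M.u g)⁻¹ := by
  apply eq_inv_of_mul_eq_one_left
  rw [← map_mul, inv_mul_cancel, map_one]

end MN

end Pool.Agent.Helper72.BH
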