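import Mathlib

/-!
# Counting identifications

`Q` is a type, `f i : Q → Q' i` maps, `N` a finite nonempty subset of `Q`. `hind` says that the spaces
`W i = {c : N → ZMod 2 | the sum of c over each fibre of f i is 0}`, `i ∈ I`, are independent in `N → ZMod 2`.

`count`: `dim W i ≥ |N| - |f i (N)|` (kernel of the linear map `(N → ZMod 2) → (f i (N) → ZMod 2)` of the sums
over the fibres), and the spaces `W i` lie in the hyperplane of the functions with sum `0`, of dimension
`|N| - 1`, so `∑ i ∈ I, (|N| - |f i (N)|) ≤ |N| - 1`.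

`exists_quiet`: for fixed `i` the number of `v ∈ N` whose fibre has at least two elements is at most
`2 (|N| - |f i (N)|)` (for fibres of sizes `m`, `m ≤ 2 (m - 1)` if `m ≥ 2`); sum over `i ∈ I`: the number of the pairs `(v, i)` with
`v` active in `i` is at most `2 (|N| - 1) < 2 |N|`, so some `v` is active for at most one `i`.
-/

set_option autoImplicit false

namespace Pool.Agent.Helper72.BH

open Classical in
/-- The sums over the fibres of `g`. -/
noncomputable def fibSum {Q P : Type} (g : Q → P) (N : Finset Q) :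
    (N → ZMod 2) →ₗ[ZMod 2] (N.image g → ZMod 2) where
  toFun c w := ∑ v : N, if g v = w then c v else 0
  map_add' c d := by
    funext w
    simp only [Pi.add_apply]
    rw [← Finset.sum_add_distrib]
    exact Finset.sum_congr rfl fun v _ => by split_ifs <;> simp
  map_smul' a c := by
    funext w
    simp only [Pi.smul_apply, smul_eq_mul, RingHom.id_apply]
    rw [Finset.mul_sum]
    exact Finset.sum_congr rfl fun v _ => by split_ifs <;> simp

/-- The sum of all values. -/
noncomputable def totSum {Q : Type} (N : Finset Q) : (N → ZMod 2) →ₗ[ZMod 2] ZMod 2 where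
  toFun c := ∑ v : N, c v
  map_add' c d := by simp [Finset.sum_add_distrib]
  map_smul' a c := by simp [Finset.mul_sum]

open Classical in
theorem tot_of_fib {Q P : Type} (g : Q → P) (N : Finset Q) (c : N → ZMod 2) (h : fibSum g N c = 0) :
    totSum N c = 0 := by
  have e : ∑ w : N.image g, fibSum g N c w = totSum N c := by
    change ∑ w : N.image g, ∑ v : N, (if g v = w then c v else 0) = ∑ v : N, c v
    rw [Finset.sum_comm]
    refine Finset.sum_congr rfl fun v _ => ?_
    rw [Finset.sum_eq_single (⟨g v, Finset.mem_image_of_mem g v.2⟩ : N.image g)]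
    · simp
    · intro b _ hb
      rw [if_neg]
      intro h'
      exact hb (Subtype.ext h'.symm)
    · intro h'
      exact absurd (Finset.mem_univ _) h'
  rw [← e, h]
  simp

theorem finrank_ker_tot {Q : Type} (N : Finset Q) (hN : N.Nonempty) :
    Module.finrank (ZMod 2) (LinearMap.ker (totSum N)) + 1 = N.card := by
  classical
  have h := LinearMap.finrank_range_add_finrank_ker (totSum N)
  have hs : Function.Surjective (totSum N) := by
    obtain ⟨v, hv⟩ := hN
    intro a
    refine ⟨fun w => if w = ⟨v, hv⟩ then a else 0, ?_⟩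
    change ∑ w : N, (if w = (⟨v, hv⟩ : N) then a else 0) = a
    simp
  rw [LinearMap.range_eq_top.mpr hs, finrank_top, Module.finrank_self, Module.finrank_pi,
    Fintype.card_coe] at h
  omega

open Classical in
theorem finrank_ker_fib {Q P : Type} (g : Q → P) (N : Finset Q) :
    N.card ≤ Module.finrank (ZMod 2) (LinearMap.ker (fibSum g N)) + (N.image g).card := by
  have h := LinearMap.finrank_range_add_finrank_ker (fibSum g N)
  have h2 := Submodule.finrank_le (LinearMap.range (fibSum g N))
  rw [Module.finrank_pi, Fintype.card_coe] at h h2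
  omega

open Classical in
theorem count {Q ι : Type} {Q' : ι → Type} (f : ∀ i, Q → Q' i) (N : Finset Q) (hN : N.Nonempty)
    (I : Finset ι)
    (hind : ∀ c : ι → Q → ZMod 2, (∀ i ∈ I, ∀ v, v ∉ N → c i v = 0) →
      (∀ i ∈ I, ∀ w, ∑ v ∈ N.filter (fun v => f i v = w), c i v = 0) →
      (∀ v, ∑ i ∈ I, c i v = 0) → ∀ i ∈ I, ∀ v, c i v = 0) :
    I.card * N.card + 1 ≤ ∑ i ∈ I, (N.image (f i)).card + N.card := by
  -- the sum map
  let Φ : (∀ i : I, LinearMap.ker (fibSum (f i) N)) →ₗ[ZMod 2] LinearMap.ker (totSum N) :=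
    { toFun := fun c => ⟨∑ i : I, (c i : N → ZMod 2), by
        rw [LinearMap.mem_ker, map_sum]
        exact Finset.sum_eq_zero fun i _ => tot_of_fib (f i) N _ (LinearMap.mem_ker.mp (c i).2)⟩
      map_add' := fun c d => by
        apply Subtype.ext
        simp [Finset.sum_add_distrib]
      map_smul' := fun a c => by
        apply Subtype.ext
        simp [Finset.smul_sum] }
  have hΦ : Function.Injective Φ := by
    rw [← LinearMap.ker_eq_bot, LinearMap.ker_eq_bot']
    intro c hc
    let c' : ι → Q → ZMod 2 := fun i v =>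
      if h : i ∈ I ∧ v ∈ N then (c ⟨i, h.1⟩ : N → ZMod 2) ⟨v, h.2⟩ else 0
    have h1 : ∀ (i : I) (v : N), c' i v = (c i : N → ZMod 2) v := by
      intro i v
      simp [c', i.2, v.2]
    have key := hind c' (fun i _ v hv => by simp [c', hv]) (fun i hi w => ?_) (fun v => ?_)
    · funext i
      apply Subtype.ext
      funext v
      rw [← h1 i v, key i i.2 v]
      rfl
    · by_cases hw : w ∈ N.image (f i)
      · have h2 := congrFun (LinearMap.mem_ker.mp (c ⟨i, hi⟩).2) ⟨w, hw⟩
        have h3 : ∑ v : N, (if f i v = w then (c ⟨i, hi⟩ : N → ZMod 2) v else 0) = 0 := h2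
        rw [Finset.sum_filter, ← Finset.sum_coe_sort N (fun v => if f i v = w then c' i v else 0)]
        refine Eq.trans (Finset.sum_congr rfl fun v _ => ?_) h3
        rw [← h1 ⟨i, hi⟩ v]
      · apply Finset.sum_eq_zero
        intro v hv
        rw [Finset.mem_filter] at hv
        exact absurd (Finset.mem_image.mpr ⟨v, hv.1, hv.2⟩) hw
    · by_cases hv : v ∈ N
      · have h2 := congrFun (congrArg Subtype.val hc) ⟨v, hv⟩
        have h3 : (∑ i : I, (c i : N → ZMod 2)) ⟨v, hv⟩ = 0 := h2
        rw [Finset.sum_apply] at h3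
        rw [← Finset.sum_coe_sort I (fun i => c' i v), ← h3]
        exact Finset.sum_congr rfl fun i _ => h1 i ⟨v, hv⟩
      · exact Finset.sum_eq_zero fun i _ => by simp [c', hv]
  have h1 := LinearMap.finrank_le_finrank_of_injective hΦ
  rw [Module.finrank_pi_fintype] at h1
  have h2 := finrank_ker_tot N hN
  have h3 : ∑ i : I, N.card ≤ ∑ i : I, (Module.finrank (ZMod 2) (LinearMap.ker (fibSum (f i) N)) +
      (N.image (f i)).card) := Finset.sum_le_sum fun i _ => finrank_ker_fib (f i) N
  rw [Finset.sum_add_distrib, Finset.sum_const, Finset.card_univ, Fintype.card_coe, smul_eq_mul,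
    Finset.sum_coe_sort I (fun i => (N.image (f i)).card)] at h3
  omega

open Classical in
theorem active_le {Q P : Type} (g : Q → P) (N : Finset Q) :
    (N.filter (fun v => ∃ v' ∈ N, v' ≠ v ∧ g v' = g v)).card + 2 * (N.image g).card ≤ 2 * N.card := by
  have e1 := Finset.card_eq_sum_card_image g N
  have e2 : (N.filter (fun v => ∃ v' ∈ N, v' ≠ v ∧ g v' = g v)).card = ∑ w ∈ N.image g,
      ((N.filter (fun v => ∃ v' ∈ N, v' ≠ v ∧ g v' = g v)).filter (fun v => g v = w)).card :=
    Finset.card_eq_sum_card_fiberwise fun v hv => Finset.mem_image_of_mem g (Finset.mem_filter.mp hv).1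
  have h : ∑ w ∈ N.image g, (((N.filter (fun v => ∃ v' ∈ N, v' ≠ v ∧ g v' = g v)).filter
      (fun v => g v = w)).card + 2) ≤ ∑ w ∈ N.image g, 2 * (N.filter (fun v => g v = w)).card := by
    refine Finset.sum_le_sum fun w hw => ?_
    obtain ⟨u, hu, huw⟩ := Finset.mem_image.mp hw
    have hpos : 1 ≤ (N.filter (fun v => g v = w)).card :=
      Finset.card_pos.mpr ⟨u, Finset.mem_filter.mpr ⟨hu, huw⟩⟩
    have hsub : ((N.filter (fun v => ∃ v' ∈ N, v' ≠ v ∧ g v' = g v)).filter (fun v => g v = w)).card ≤
        (N.filter (fun v => g v = w)).card := by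
      apply Finset.card_le_card
      intro v hv
      simp only [Finset.mem_filter] at hv ⊢
      exact ⟨hv.1.1, hv.2⟩
    rcases Nat.lt_or_ge (N.filter (fun v => g v = w)).card 2 with h2 | h2
    · have h3 : ((N.filter (fun v => ∃ v' ∈ N, v' ≠ v ∧ g v' = g v)).filter (fun v => g v = w)) = ∅ := by
        rw [Finset.eq_empty_iff_forall_notMem]
        intro v hv
        simp only [Finset.mem_filter] at hv
        obtain ⟨⟨hvN, v', hv'N, hne, hgv⟩, hvw⟩ := hv
        have : 2 ≤ (N.filter (fun v => g v = w)).card := by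
          have hs : ({v, v'} : Finset Q) ⊆ N.filter (fun v => g v = w) := by
            intro x hx
            rw [Finset.mem_insert, Finset.mem_singleton] at hx
            rcases hx with rfl | rfl
            · exact Finset.mem_filter.mpr ⟨hvN, hvw⟩
            · exact Finset.mem_filter.mpr ⟨hv'N, hgv.trans hvw⟩
          have := Finset.card_le_card hs
          rwa [Finset.card_pair hne.symm] at this
        omega
      rw [h3, Finset.card_empty]
      omega
    · omega
  rw [Finset.sum_add_distrib, Finset.sum_const, smul_eq_mul, ← Finset.mul_sum, ← e1, ← e2] at h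
  omega

open Classical in
theorem exists_quiet {Q ι : Type} {Q' : ι → Type} (f : ∀ i, Q → Q' i) (N : Finset Q)
    (hN : N.Nonempty) (I : Finset ι)
    (hind : ∀ c : ι → Q → ZMod 2, (∀ i ∈ I, ∀ v, v ∉ N → c i v = 0) →
      (∀ i ∈ I, ∀ w, ∑ v ∈ N.filter (fun v => f i v = w), c i v = 0) →
      (∀ v, ∑ i ∈ I, c i v = 0) → ∀ i ∈ I, ∀ v, c i v = 0) :
    ∃ v ∈ N, (I.filter (fun i => ∃ v' ∈ N, v' ≠ v ∧ f i v' = f i v)).card ≤ 1 := by
  by_contra hcon
  push Not at hcon
  have h0 := count f N hN I hind
  have h1 : ∑ v ∈ N, 2 ≤ ∑ v ∈ N, (I.filter (fun i => ∃ v' ∈ N, v' ≠ v ∧ f i v' = f i v)).card :=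
    Finset.sum_le_sum fun v hv => hcon v hv
  have h2 : ∑ v ∈ N, (I.filter (fun i => ∃ v' ∈ N, v' ≠ v ∧ f i v' = f i v)).card =
      ∑ i ∈ I, (N.filter (fun v => ∃ v' ∈ N, v' ≠ v ∧ f i v' = f i v)).card := by
    simp only [Finset.card_filter]
    exact Finset.sum_comm
  have h3 : ∑ i ∈ I, ((N.filter (fun v => ∃ v' ∈ N, v' ≠ v ∧ f i v' = f i v)).card +
      2 * (N.image (f i)).card) ≤ ∑ i ∈ I, 2 * N.card := Finset.sum_le_sum fun i _ => active_le (f i) N
  rw [Finset.sum_add_distrib, ← Finset.mul_sum, Finset.sum_const, smul_eq_mul, ← h2] at h3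
  rw [Finset.sum_const, smul_eq_mul] at h1
  have h4 : I.card * (2 * N.card) = 2 * (I.card * N.card) := by ring
  omega

end Pool.Agent.Helper72.BH
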