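import Pool.Agent.Helper72.BH.Chain

/-!
# Euler characteristic of finite subgraphs and the dimension of `V`

`euler_le`: let `P ≠ ⊥` be closed, `E` a finite set of edges. The map `bd` from the chains supported on `E`
(dimension `|E|`) to the chains supported on `ends E` (dimension `|ends E|`) has a kernel `K` of dimension at least
`|E| - |ends E|`. `aug` is injective on `K` (`inj_lemma`). The image of `K` under `aug` lies in
`V P ⊓ ker dd`: apply to `bd ν = 0` the linear map `[v] ↦ δ (v.out)`; modulo `V P` the vector `δ (v.out)` depends only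
on the coset and `δ (x⁻¹ g) = δ (x⁻¹) + u x⁻¹ δ g`, `u x δ (x⁻¹) = - e_x`; this gives `aug ν ∈ V P`; apply `[v] ↦ 1` to get
`∑ ν (v,x) (1 - u x) = 0`, i.e. `dd (aug ν) = 0`. Finally `dim (V P ⊓ ker dd) = dim V P - 1`, as `dd` maps `V P` onto `D`
(`dd (δ p) = u p - 1 ≠ 0` for `1 ≠ p ∈ P`).

`euler_ge`: let `B ≠ ⊥`, `E` finite with `Reach B E`, `Carry B E`. Then `kap b` is supported on `E` for `b ∈ B` (more
generally `kap g` is supported on `E` if `Run B E g`). `bd` maps the chains on `E` onto the chains on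
`ends E`: `bd (kap b) = (1 - u b) [1 B]` for `b ∈ B`, `b ≠ 1`, gives `[1 B]`; for `Run B E g`,
`bd (kap g) = [1 B] - u g [g⁻¹ B]` gives `[g⁻¹ B]`. So `dim K = |E| - |ends E|` for the kernel `K`. And `aug K ⊇ V B ⊓ ker dd`: for
`∑ a_i δ b_i` with `∑ a_i (u b_i - 1) = 0` the chain `∑ a_i kap b_i` is in `K`. So `dim V B - 1 ≤ |E| - |ends E|`.
-/

set_option autoImplicit false

namespace Pool.Agent.Helper72.BH

open FreeGroup (of)

/-- Rank-nullity for the restriction of a linear map to a finite dimensional subspace. -/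
theorem rn {D V V' : Type*} [DivisionRing D] [AddCommGroup V] [Module D V] [AddCommGroup V']
    [Module D V'] (f : V →ₗ[D] V') (S : Submodule D V) [FiniteDimensional D S] :
    Module.finrank D (S.map f) + Module.finrank D (S ⊓ LinearMap.ker f : Submodule D V)
      = Module.finrank D S := by
  have h := LinearMap.finrank_range_add_finrank_ker (f.domRestrict S)
  rw [LinearMap.range_domRestrict, LinearMap.ker_domRestrict] at h
  rw [← h]
  congr 1
  rw [← Submodule.map_comap_subtype]
  exact (Submodule.equivMapOfInjective S.subtype S.injective_subtype _).symm.finrank_eq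

theorem finiteDimensional_supported {D α : Type*} [DivisionRing D] (E : Finset α) :
    FiniteDimensional D (Finsupp.supported D D (E : Set α)) :=
  Module.Finite.equiv (Finsupp.supportedEquivFinsupp (R := D) (M := D) (E : Set α)).symm

theorem finrank_supported {D α : Type*} [DivisionRing D] (E : Finset α) :
    Module.finrank D (Finsupp.supported D D (E : Set α)) = E.card := by
  rw [(Finsupp.supportedEquivFinsupp (R := D) (M := D) (E : Set α)).finrank_eq,
    Module.finrank_finsupp_self]
  simp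

theorem mem_endsE_fst {R : ℕ} {Q : Type} [MulAction (FreeGroup (Fin R)) Q] {E : Finset (Q × Fin R)}
    {a : Q × Fin R} (ha : a ∈ E) : a.1 ∈ ends E := by
  classical
  unfold ends
  exact Finset.mem_union_left _ (Finset.mem_image_of_mem _ ha)

theorem mem_endsE_tg {R : ℕ} {Q : Type} [MulAction (FreeGroup (Fin R)) Q] {E : Finset (Q × Fin R)}
    {a : Q × Fin R} (ha : a ∈ E) : tg a ∈ ends E := by
  classical
  unfold ends
  exact Finset.mem_union_right _ (Finset.mem_image_of_mem _ ha)

theorem mem_endsE {R : ℕ} {Q : Type} [MulAction (FreeGroup (Fin R)) Q] {E : Finset (Q × Fin R)}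
    {v : Q} : v ∈ ends E ↔ ∃ a ∈ E, a.1 = v ∨ tg a = v := by
  classical
  constructor
  · intro h
    unfold ends at h
    rcases Finset.mem_union.1 h with h | h
    · obtain ⟨a, ha, rfl⟩ := Finset.mem_image.1 h
      exact ⟨a, ha, Or.inl rfl⟩
    · obtain ⟨a, ha, rfl⟩ := Finset.mem_image.1 h
      exact ⟨a, ha, Or.inr rfl⟩
  · rintro ⟨a, ha, rfl | rfl⟩
    · exact mem_endsE_fst ha
    · exact mem_endsE_tg ha

namespace MN

variable {R : ℕ} {D : Type} [DivisionRing D] (M : MN R D)

theorem finrank_inf_ker {A : Subgroup (FreeGroup (Fin R))} (hA : A ≠ ⊥) :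
    Module.finrank D ((M.V (A : Set (FreeGroup (Fin R))) ⊓ LinearMap.ker M.dd : Submodule D _)) + 1
      = Module.finrank D (M.V (A : Set (FreeGroup (Fin R)))) := by
  have h := rn M.dd (M.V (A : Set (FreeGroup (Fin R))))
  have h1 : (M.V (A : Set (FreeGroup (Fin R)))).map M.dd = ⊤ := by
    obtain ⟨g, hg, hg1⟩ : ∃ g ∈ A, g ≠ 1 := by
      by_contra hcon
      push Not at hcon
      exact hA ((Subgroup.eq_bot_iff_forall A).2 hcon)
    have h2 : M.u g - 1 ≠ 0 := by
      intro h3
      exact hg1 (M.u_inj (by rw [map_one]; exact sub_eq_zero.1 h3))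
    rw [eq_top_iff]
    intro z _
    refine ⟨(z * (M.u g - 1)⁻¹) • M.δ g, Submodule.smul_mem _ _ (M.δ_mem_V hg), ?_⟩
    rw [map_smul, M.dd_δ, smul_eq_mul, mul_assoc, inv_mul_cancel₀ h2, mul_one]
  rw [h1, finrank_top, Module.finrank_self] at h
  omega

/-- `bd` of a single edge. -/
theorem bd_singleE (P : Subgroup (FreeGroup (Fin R))) (a : (FreeGroup (Fin R) ⧸ P) × Fin R) :
    M.bd P (Finsupp.single a 1) =
      Finsupp.single a.1 (1 : D) - Finsupp.single (tg a) (M.u (of a.2)) := by
  unfold bd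
  rw [Finsupp.linearCombination_single, one_smul]
  rfl

theorem aug_single (P : Subgroup (FreeGroup (Fin R))) (a : (FreeGroup (Fin R) ⧸ P) × Fin R) :
    M.aug P (Finsupp.single a 1) = (Pi.single a.2 1 : Fin R → D) := by
  unfold aug
  rw [Finsupp.linearCombination_single, one_smul]

/-- The sum of the coefficients. -/
noncomputable def tot (_M : MN R D) (P : Subgroup (FreeGroup (Fin R))) :
    ((FreeGroup (Fin R) ⧸ P) →₀ D) →ₗ[D] D :=
  Finsupp.linearCombination D (fun _ => (1 : D))

theorem tot_single (P : Subgroup (FreeGroup (Fin R))) (v : FreeGroup (Fin R) ⧸ P) (c : D) :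
    M.tot P (Finsupp.single v c) = c := by
  unfold tot
  rw [Finsupp.linearCombination_single, smul_eq_mul, mul_one]

theorem tot_bd (P : Subgroup (FreeGroup (Fin R)))
    (ν : ((FreeGroup (Fin R) ⧸ P) × Fin R) →₀ D) :
    M.tot P (M.bd P ν) = -M.dd (M.aug P ν) := by
  have h : (M.tot P) ∘ₗ (M.bd P) = -(M.dd ∘ₗ (M.aug P)) := by
    apply Finsupp.lhom_ext'
    intro a
    apply LinearMap.ext_ring
    rw [LinearMap.comp_apply, LinearMap.comp_apply, LinearMap.comp_apply, LinearMap.neg_apply,
      LinearMap.comp_apply, Finsupp.lsingle_apply, M.bd_singleE, M.aug_single, map_sub,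
      M.tot_single, M.tot_single, ← M.δ_of, M.dd_δ]
    abel
  exact LinearMap.congr_fun h ν

theorem mk_δ_out (P : Subgroup (FreeGroup (Fin R))) (g : FreeGroup (Fin R)) :
    (M.V (P : Set (FreeGroup (Fin R)))).mkQ (M.δ (g : FreeGroup (Fin R) ⧸ P).out)
      = (M.V (P : Set (FreeGroup (Fin R)))).mkQ (M.δ g) := by
  obtain ⟨p, hp⟩ := QuotientGroup.mk_out_eq_mul P g
  rw [hp, M.δ_mul, map_add]
  have h : (M.V (P : Set (FreeGroup (Fin R)))).mkQ (M.u g • M.δ (p : FreeGroup (Fin R))) = 0 := by
    rw [Submodule.mkQ_apply, Submodule.Quotient.mk_eq_zero]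
    exact Submodule.smul_mem _ _ (M.δ_mem_V p.2)
  rw [h, add_zero]

theorem aug_mem_V (P : Subgroup (FreeGroup (Fin R)))
    (ν : ((FreeGroup (Fin R) ⧸ P) × Fin R) →₀ D) (h0 : M.bd P ν = 0) :
    M.aug P ν ∈ M.V (P : Set (FreeGroup (Fin R))) := by
  set W := M.V (P : Set (FreeGroup (Fin R))) with hW
  have h : (Finsupp.linearCombination D
      (fun v : FreeGroup (Fin R) ⧸ P => W.mkQ (M.δ v.out))) ∘ₗ (M.bd P) = W.mkQ ∘ₗ (M.aug P) := by
    apply Finsupp.lhom_ext'
    intro a
    apply LinearMap.ext_ring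
    rw [LinearMap.comp_apply, LinearMap.comp_apply, LinearMap.comp_apply,
      LinearMap.comp_apply, Finsupp.lsingle_apply, M.bd_singleE, M.aug_single, map_sub,
      Finsupp.linearCombination_single, Finsupp.linearCombination_single, one_smul]
    obtain ⟨v, x⟩ := a
    induction v using QuotientGroup.induction_on with
    | H g =>
      change W.mkQ (M.δ (g : FreeGroup (Fin R) ⧸ P).out) - M.u (of x) •
        W.mkQ (M.δ ((((of x)⁻¹ * g : FreeGroup (Fin R))) : FreeGroup (Fin R) ⧸ P).out) = _
      rw [M.mk_δ_out, M.mk_δ_out, M.δ_mul, M.δ_inv, M.δ_of, map_add, map_neg, map_smul, map_smul,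
        smul_add, smul_neg, smul_smul, smul_smul, ← map_mul, mul_inv_cancel, map_one, one_smul,
        one_smul]
      simp
  have h1 := LinearMap.congr_fun h ν
  rw [LinearMap.comp_apply, LinearMap.comp_apply, h0, map_zero] at h1
  rw [Submodule.mkQ_apply] at h1
  exact (Submodule.Quotient.mk_eq_zero _).1 h1.symm

theorem map_bd_le (P : Subgroup (FreeGroup (Fin R)))
    (E : Finset ((FreeGroup (Fin R) ⧸ P) × Fin R)) :
    (Finsupp.supported D D (E : Set ((FreeGroup (Fin R) ⧸ P) × Fin R))).map (M.bd P) ≤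
      Finsupp.supported D D ((ends E : Finset (FreeGroup (Fin R) ⧸ P)) :
        Set (FreeGroup (Fin R) ⧸ P)) := by
  rw [Finsupp.supported_eq_span_single, Submodule.map_span, Submodule.span_le]
  rintro _ ⟨_, ⟨a, ha, rfl⟩, rfl⟩
  change M.bd P (Finsupp.single a 1) ∈ _
  rw [M.bd_singleE]
  refine Submodule.sub_mem _ (Finsupp.single_mem_supported D _ ?_)
    (Finsupp.single_mem_supported D _ ?_)
  · exact mem_endsE_fst ha
  · exact mem_endsE_tg ha

theorem euler_le {P : Subgroup (FreeGroup (Fin R))} (hP : M.Closed P) (hne : P ≠ ⊥)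
    (E : Finset ((FreeGroup (Fin R) ⧸ P) × Fin R)) :
    E.card + 1 ≤ (ends E).card + Module.finrank D (M.V (P : Set (FreeGroup (Fin R)))) := by
  classical
  set S := Finsupp.supported D D (E : Set ((FreeGroup (Fin R) ⧸ P) × Fin R)) with hS
  have := finiteDimensional_supported (D := D) E
  have := finiteDimensional_supported (D := D) (ends E)
  have h1 := rn (M.bd P) S
  have h2 := Submodule.finrank_mono (M.map_bd_le P E)
  rw [finrank_supported, ← hS] at h2
  rw [hS, finrank_supported, ← hS] at h1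
  have : FiniteDimensional D (S ⊓ LinearMap.ker (M.bd P) : Submodule D _) :=
    Submodule.finiteDimensional_inf_left _ _
  have h3 : Module.finrank D (S ⊓ LinearMap.ker (M.bd P) : Submodule D _) ≤
      Module.finrank D ((M.V (P : Set (FreeGroup (Fin R))) ⊓ LinearMap.ker M.dd :
        Submodule D _)) := by
    have h4 := rn (M.aug P) (S ⊓ LinearMap.ker (M.bd P))
    have h5 : (S ⊓ LinearMap.ker (M.bd P)) ⊓ LinearMap.ker (M.aug P) = ⊥ := by
      rw [eq_bot_iff]
      rintro ν ⟨⟨_, hb⟩, ha⟩
      rw [Submodule.mem_bot]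
      exact M.inj_lemma hP ν hb ha
    rw [h5, finrank_bot, add_zero] at h4
    rw [← h4]
    apply Submodule.finrank_mono
    rintro _ ⟨ν, ⟨_, hb⟩, rfl⟩
    refine ⟨M.aug_mem_V P ν hb, ?_⟩
    have h6 := M.tot_bd P ν
    rw [LinearMap.mem_ker.1 hb, map_zero] at h6
    exact neg_eq_zero.1 h6.symm
  have h7 := M.finrank_inf_ker hne
  omega

theorem kap_mem_supported {B : Subgroup (FreeGroup (Fin R))}
    {E : Finset ((FreeGroup (Fin R) ⧸ B) × Fin R)} {g : FreeGroup (Fin R)} (hg : Run B E g) :
    M.kap B g ∈ Finsupp.supported D D (E : Set ((FreeGroup (Fin R) ⧸ B) × Fin R)) := by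
  induction hg with
  | one =>
    have : M.kap B 1 = 0 := awalk_one _
    rw [this]
    exact Submodule.zero_mem _
  | mul g x _ he ih =>
    rw [M.kap_of]
    exact Submodule.add_mem _ ih (Finsupp.single_mem_supported D _ he)
  | inv g x _ he ih =>
    have h := M.kap_of B (g * (of x)⁻¹) x
    rw [inv_mul_cancel_right, mul_inv_rev, inv_inv] at h
    rw [eq_sub_of_add_eq h.symm]
    exact Submodule.sub_mem _ ih (Finsupp.single_mem_supported D _ he)

theorem euler_ge {B : Subgroup (FreeGroup (Fin R))} (hne : B ≠ ⊥)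
    (E : Finset ((FreeGroup (Fin R) ⧸ B) × Fin R)) (hr : Reach B E) (hc : Carry B E) :
    Module.finrank D (M.V (B : Set (FreeGroup (Fin R)))) + (ends E).card ≤ E.card + 1 := by
  classical
  set S := Finsupp.supported D D (E : Set ((FreeGroup (Fin R) ⧸ B) × Fin R)) with hS
  have := finiteDimensional_supported (D := D) E
  have := finiteDimensional_supported (D := D) (ends E)
  have h1 := rn (M.bd B) S
  -- the image of `bd`
  have hbase : Finsupp.single ((1 : FreeGroup (Fin R)) : FreeGroup (Fin R) ⧸ B) (1 : D) ∈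
      S.map (M.bd B) := by
    obtain ⟨b, hb, hb1⟩ : ∃ b ∈ B, b ≠ 1 := by
      by_contra hcon
      push Not at hcon
      exact hne ((Subgroup.eq_bot_iff_forall B).2 hcon)
    have h2 : 1 - M.u b ≠ 0 := by
      intro h3
      exact hb1 (M.u_inj (by rw [map_one]; exact (sub_eq_zero.1 h3).symm))
    refine ⟨(1 - M.u b)⁻¹ • M.kap B b,
      Submodule.smul_mem _ _ (M.kap_mem_supported (hc b hb)), ?_⟩
    have h4 : ((b⁻¹ : FreeGroup (Fin R)) : FreeGroup (Fin R) ⧸ B) =
        ((1 : FreeGroup (Fin R)) : FreeGroup (Fin R) ⧸ B) := by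
      rw [QuotientGroup.eq]
      simpa using hb
    rw [map_smul, M.bd_kap, h4, ← Finsupp.single_sub, Finsupp.smul_single, smul_eq_mul,
      inv_mul_cancel₀ h2]
  have hvert : ∀ g, Run B E g →
      Finsupp.single ((g⁻¹ : FreeGroup (Fin R)) : FreeGroup (Fin R) ⧸ B) (1 : D) ∈
        S.map (M.bd B) := by
    intro g hg
    have h5 : M.bd B (M.kap B g) ∈ S.map (M.bd B) :=
      Submodule.mem_map_of_mem (M.kap_mem_supported hg)
    have h6 := Submodule.smul_mem _ (M.u g)⁻¹ (Submodule.sub_mem _ hbase h5)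
    rw [M.bd_kap, sub_sub_cancel, Finsupp.smul_single, smul_eq_mul,
      inv_mul_cancel₀ (M.u_ne_zero g)] at h6
    exact h6
  have h2 : Finsupp.supported D D ((ends E : Finset (FreeGroup (Fin R) ⧸ B)) :
        Set (FreeGroup (Fin R) ⧸ B)) ≤ S.map (M.bd B) := by
    rw [Finsupp.supported_eq_span_single, Submodule.span_le]
    rintro _ ⟨v, hv, rfl⟩
    obtain ⟨a, ha, hv⟩ := mem_endsE.1 hv
    obtain ⟨g, hg, hga⟩ := hr a ha
    rcases hv with rfl | rfl
    · have := hvert g hg
      rw [hga] at this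
      exact this
    · have h7 : Run B E (g * of a.2) := Run.mul g a.2 hg (by rw [hga]; exact ha)
      have := hvert _ h7
      rw [mul_inv_rev] at this
      have h8 : tg a = (((of a.2)⁻¹ * g⁻¹ : FreeGroup (Fin R)) : FreeGroup (Fin R) ⧸ B) := by
        unfold tg
        rw [← hga]
        rfl
      rw [← h8] at this
      exact this
  have : FiniteDimensional D (S.map (M.bd B)) := by infer_instance
  have h3 := Submodule.finrank_mono h2
  rw [finrank_supported] at h3
  rw [hS, finrank_supported, ← hS] at h1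
  have : FiniteDimensional D (S ⊓ LinearMap.ker (M.bd B) : Submodule D _) :=
    Submodule.finiteDimensional_inf_left _ _
  have h4 : Module.finrank D ((M.V (B : Set (FreeGroup (Fin R))) ⊓ LinearMap.ker M.dd :
        Submodule D _)) ≤ Module.finrank D (S ⊓ LinearMap.ker (M.bd B) : Submodule D _) := by
    refine le_trans ?_ (Submodule.finrank_map_le (M.aug B) (S ⊓ LinearMap.ker (M.bd B)))
    apply Submodule.finrank_mono
    rintro w ⟨hw, hw0⟩
    have h5 : M.V (B : Set (FreeGroup (Fin R))) =
        (Submodule.span D (M.kap B '' (B : Set (FreeGroup (Fin R))))).map (M.aug B) := by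
      rw [Submodule.map_span, ← Set.image_comp]
      unfold V
      congr 1
      apply Set.image_congr
      intro g _
      exact (M.aug_kap B g).symm
    rw [h5] at hw
    obtain ⟨ν, hν, rfl⟩ := hw
    have h6 : ν ∈ S := by
      refine (Submodule.span_le.2 ?_ : Submodule.span D (M.kap B '' (B : Set _)) ≤ S) hν
      rintro _ ⟨b, hb, rfl⟩
      exact M.kap_mem_supported (hc b hb)
    have h7 : M.bd B ν ∈ Submodule.span D
        {Finsupp.single ((1 : FreeGroup (Fin R)) : FreeGroup (Fin R) ⧸ B) (1 : D)} := by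
      have h8 : (Submodule.span D (M.kap B '' (B : Set (FreeGroup (Fin R))))).map (M.bd B) ≤
          Submodule.span D
            {Finsupp.single ((1 : FreeGroup (Fin R)) : FreeGroup (Fin R) ⧸ B) (1 : D)} := by
        rw [Submodule.map_span, Submodule.span_le]
        rintro _ ⟨_, ⟨b, hb, rfl⟩, rfl⟩
        have h4 : ((b⁻¹ : FreeGroup (Fin R)) : FreeGroup (Fin R) ⧸ B) =
            ((1 : FreeGroup (Fin R)) : FreeGroup (Fin R) ⧸ B) := by
          rw [QuotientGroup.eq]
          simpa using hb
        rw [M.bd_kap, h4, ← Finsupp.single_sub]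
        refine Submodule.mem_span_singleton.2 ⟨1 - M.u b, ?_⟩
        rw [Finsupp.smul_single, smul_eq_mul, mul_one]
      exact h8 (Submodule.mem_map_of_mem hν)
    refine ⟨ν, ⟨h6, ?_⟩, rfl⟩
    obtain ⟨c, hc1⟩ := Submodule.mem_span_singleton.1 h7
    have h9 := M.tot_bd B ν
    rw [LinearMap.mem_ker.1 hw0, neg_zero, ← hc1, map_smul, M.tot_single, smul_eq_mul,
      mul_one] at h9
    change M.bd B ν = 0
    rw [← hc1, h9, zero_smul]
  have h7 := M.finrank_inf_ker hne
  omega

end MN

end Pool.Agent.Helper72.BH
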