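import Pool.Agent.Helper72.BH.Chain

/-!
# Independence of the identifications made by independent closed subgroups

`J ≤ B i` are closed subgroups, the spaces `V (B i)` are independent modulo `V J` (`Indep`).
`c i : F ⧸ J → ZMod 2` finitely supported, `i ∈ I`, such that
(a) for `i ∈ I` and each `w : F ⧸ B i` the sum of `c i v` over all `v` with `proj v = w` is `0`;
(b) for each `v` the sum of `c i v` over `i ∈ I` is `0`.

`first_moment`: then for `i ∈ I` and `w` the vector `s i w = ∑ (proj v = w), c i v • δ (v.out)` is in `V J`.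
Proof: let `w = w.out B i`. By (a), `s i w = ∑ c i v • (δ v.out - δ w.out) = ∑ c i v • u w.out • δ (w.out⁻¹ v.out)` is in
`V (B i)` and, in the basis `δ (φ y)` of `V (B i)` (`closed_basis`), its coordinates are sums of elements `u g` with
`g ∈ w.out * B i` (for `b ∈ B i` the coordinates of `δ b` are sums of elements `u b'` with `b' ∈ B i`, by induction).
By (b), `∑ i w, s i w = 0`, so by `Indep` `∑ w, s i w ∈ V J` for each `i`. Restrict the coordinates (elements of `D`) to the set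
`w.out * B i` (`M.restr`): this additive map `r` of `V (B i)` fixes `s i w`, kills `s i w'` for `w' ≠ w`, and maps
`V J` to itself, as `r (a • δ j) = r' a • δ j` for `j ∈ J`, where `r' a` is the restriction of `a : D`
(`co_mul_u`: restriction to a left coset of `B i` commutes with the right multiplication by `u b`, `b ∈ B i`).
So `s i w = r (∑ w', s i w') ∈ V J`.

`forest_indep`: then `c i v = 0` for `i ∈ I`. Let `GG` be the set of the `p` with `∑ (proj v = w), c i v * p v = 0` for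
all `i ∈ I`, `w`. `1 ∈ GG` by (a). If `p ∈ GG` then the family `c i v * p v` satisfies (a) and (b), so by `first_moment` (apply a
linear form `φ` that vanishes on `V J`, and take the coefficient at `h`) `lam φ h * p ∈ GG`. Use `exists_sep`.
-/

set_option autoImplicit false

namespace Pool.Agent.Helper72.BH

open FreeGroup (of)

namespace MN

variable {R : ℕ} {D : Type} [DivisionRing D] (M : MN R D)

/-- The spaces `V (B i)`, `i ∈ I`, are independent modulo `V J`. -/
def Indep (J : Subgroup (FreeGroup (Fin R))) {ι : Type} (B : ι → Subgroup (FreeGroup (Fin R)))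
    (I : Finset ι) : Prop :=
  ∀ w : ι → (Fin R → D), (∀ i ∈ I, w i ∈ M.V (B i : Set (FreeGroup (Fin R)))) →
    ∑ i ∈ I, w i ∈ M.V (J : Set (FreeGroup (Fin R))) →
    ∀ i ∈ I, w i ∈ M.V (J : Set (FreeGroup (Fin R)))

/-- restriction of the elements of `D` to the left coset `g₀ B` -/
theorem exists_rho (B : Subgroup (FreeGroup (Fin R))) (g₀ : FreeGroup (Fin R)) :
    ∃ ρ : D →+ D, (∀ a : D, ∀ c ∈ AddSubgroup.closure (M.u '' (B : Set (FreeGroup (Fin R)))),
        ρ (a * c) = ρ a * c) ∧ (∀ g, g₀⁻¹ * g ∈ B → ρ (M.u g) = M.u g) ∧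
      (∀ g, g₀⁻¹ * g ∉ B → ρ (M.u g) = 0) := by
  classical
  obtain ⟨f, hf⟩ : ∃ f : D → D, ∀ a, (∀ g, g₀⁻¹ * g ∈ B → M.co (f a) g = M.co a g) ∧
      ∀ g, g₀⁻¹ * g ∉ B → M.co (f a) g = 0 :=
    ⟨fun a => (M.restr {g | g₀⁻¹ * g ∈ B} a).choose,
      fun a => (M.restr {g | g₀⁻¹ * g ∈ B} a).choose_spec⟩
  have hf0 : f 0 = 0 := by
    apply M.ext'
    intro g
    by_cases h : g₀⁻¹ * g ∈ B
    · rw [(hf 0).1 g h]
    · rw [(hf 0).2 g h, M.co_zero]
  have hfa : ∀ a b, f (a + b) = f a + f b := by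
    intro a b
    apply M.ext'
    intro g
    by_cases h : g₀⁻¹ * g ∈ B
    · rw [(hf _).1 g h, M.co_add, M.co_add, (hf a).1 g h, (hf b).1 g h]
    · rw [(hf _).2 g h, M.co_add, (hf a).2 g h, (hf b).2 g h, add_zero]
  refine ⟨⟨⟨f, hf0⟩, hfa⟩, ?_, ?_, ?_⟩
  · intro a c hc
    change f (a * c) = f a * c
    induction hc using AddSubgroup.closure_induction with
    | mem x hx =>
      obtain ⟨b, hb, rfl⟩ := hx
      apply M.ext'
      intro g
      have hiff : g₀⁻¹ * (g * b⁻¹) ∈ B ↔ g₀⁻¹ * g ∈ B := by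
        rw [← mul_assoc]
        exact Subgroup.mul_mem_cancel_right B (Subgroup.inv_mem B hb)
      by_cases h : g₀⁻¹ * g ∈ B
      · rw [(hf _).1 g h, M.co_mul_u, M.co_mul_u, (hf a).1 _ (hiff.2 h)]
      · rw [(hf _).2 g h, M.co_mul_u, (hf a).2 _ (fun h' => h (hiff.1 h'))]
    | zero => rw [mul_zero, mul_zero, hf0]
    | add x y _ _ hx hy => rw [mul_add, mul_add, hfa, hx, hy]
    | neg x _ hx => rw [M.neg_eq, hx]
  · intro g hg
    change f (M.u g) = M.u g
    apply M.ext'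
    intro h
    by_cases h' : g₀⁻¹ * h ∈ B
    · rw [(hf _).1 h h']
    · rw [(hf _).2 h h', M.co_u, if_neg]
      rintro rfl
      exact h' hg
  · intro g hg
    change f (M.u g) = 0
    apply M.ext'
    intro h
    by_cases h' : g₀⁻¹ * h ∈ B
    · rw [(hf _).1 h h', M.co_zero, M.co_u, if_neg]
      rintro rfl
      exact hg h'
    · rw [(hf _).2 h h', M.co_zero]

theorem exists_restr' {B : Subgroup (FreeGroup (Fin R))} (hB : M.Closed B)
    (g₀ : FreeGroup (Fin R)) :
    ∃ (ρ : D →+ D)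
      (r : (M.V (B : Set (FreeGroup (Fin R)))) →+ (M.V (B : Set (FreeGroup (Fin R))))),
      (∀ g, g₀⁻¹ * g ∈ B → ρ (M.u g) = M.u g) ∧
      (∀ g, g₀⁻¹ * g ∉ B → ρ (M.u g) = 0) ∧
      ∀ (a : D) (b : FreeGroup (Fin R)) (hb : b ∈ B),
        r ⟨a • M.δ b, Submodule.smul_mem _ _ (M.δ_mem_V hb)⟩ =
          ⟨ρ a • M.δ b, Submodule.smul_mem _ _ (M.δ_mem_V hb)⟩ := by
  classical
  obtain ⟨ρ, hρ1, hρ2, hρ3⟩ := M.exists_rho B g₀
  obtain ⟨φ, hli⟩ := M.closed_basis hB
  have hmem : ∀ w, M.δ ((φ w : B) : FreeGroup (Fin R)) ∈ M.V (B : Set (FreeGroup (Fin R))) :=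
    fun w => M.δ_mem_V (φ w).2
  obtain ⟨v, hv⟩ : ∃ v : Fin (Module.finrank D (M.V (B : Set (FreeGroup (Fin R))))) →
      M.V (B : Set (FreeGroup (Fin R))), v = fun y => ⟨M.δ ((φ (of y) : B) : FreeGroup (Fin R)),
        hmem (of y)⟩ := ⟨_, rfl⟩
  have hvl : LinearIndependent D v := by
    rw [hv]
    exact LinearIndependent.of_comp (M.V (B : Set (FreeGroup (Fin R)))).subtype hli
  obtain ⟨e, he⟩ : ∃ e : (M.V (B : Set (FreeGroup (Fin R)))) ≃ₗ[D]
      (Fin (Module.finrank D (M.V (B : Set (FreeGroup (Fin R))))) → D),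
      ∀ y, e (v y) = Pi.single y 1 := by
    refine ⟨(basisOfLinearIndependentOfCardEqFinrank' v hvl (by simp)).equivFun, fun y => ?_⟩
    funext z
    have h1 := Module.Basis.equivFun_self
      (basisOfLinearIndependentOfCardEqFinrank' v hvl (by simp)) y z
    rw [coe_basisOfLinearIndependentOfCardEqFinrank'] at h1
    rw [h1, Pi.single_apply]
    simp only [eq_comm]
  have hstep : ∀ w y, (⟨M.δ ((φ (w * of y) : B) : FreeGroup (Fin R)), hmem _⟩ :
      M.V (B : Set (FreeGroup (Fin R)))) =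
      ⟨M.δ ((φ w : B) : FreeGroup (Fin R)), hmem w⟩ + M.u ((φ w : B) : FreeGroup (Fin R)) • v y := by
    intro w y
    apply Subtype.ext
    rw [hv, Submodule.coe_add, Submodule.coe_smul]
    change M.δ ((φ (w * of y) : B) : FreeGroup (Fin R)) = M.δ ((φ w : B) : FreeGroup (Fin R)) +
      M.u ((φ w : B) : FreeGroup (Fin R)) • M.δ ((φ (of y) : B) : FreeGroup (Fin R))
    rw [map_mul, Subgroup.coe_mul, M.δ_mul]
  have hstepc : ∀ w y z, e ⟨M.δ ((φ (w * of y) : B) : FreeGroup (Fin R)), hmem _⟩ z =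
      e ⟨M.δ ((φ w : B) : FreeGroup (Fin R)), hmem w⟩ z +
        M.u ((φ w : B) : FreeGroup (Fin R)) * (Pi.single y 1 : _ → D) z := by
    intro w y z
    rw [hstep w y, map_add, map_smul, he y, Pi.add_apply, Pi.smul_apply, smul_eq_mul]
  have hterm : ∀ w y z, M.u ((φ w : B) : FreeGroup (Fin R)) * (Pi.single y 1 :
      Fin (Module.finrank D (M.V (B : Set (FreeGroup (Fin R))))) → D) z ∈
      AddSubgroup.closure (M.u '' (B : Set (FreeGroup (Fin R)))) := by
    intro w y z
    by_cases hyz : z = y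
    · rw [hyz, Pi.single_eq_same, mul_one]
      exact AddSubgroup.subset_closure ⟨_, (φ w).2, rfl⟩
    · rw [Pi.single_eq_of_ne hyz, mul_zero]
      exact AddSubgroup.zero_mem _
  have hcoord : ∀ w, ∀ z, e ⟨M.δ ((φ w : B) : FreeGroup (Fin R)), hmem w⟩ z ∈
      AddSubgroup.closure (M.u '' (B : Set (FreeGroup (Fin R)))) := by
    refine fg_induct (p := fun w => ∀ z, e ⟨M.δ ((φ w : B) : FreeGroup (Fin R)), hmem w⟩ z ∈
      AddSubgroup.closure (M.u '' (B : Set (FreeGroup (Fin R))))) ?_ ?_ ?_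
    · intro z
      have h1 : (⟨M.δ ((φ 1 : B) : FreeGroup (Fin R)), hmem 1⟩ :
          M.V (B : Set (FreeGroup (Fin R)))) = 0 := by
        apply Subtype.ext
        change M.δ ((φ 1 : B) : FreeGroup (Fin R)) = 0
        rw [map_one, Subgroup.coe_one, M.δ_one]
      rw [h1, map_zero]
      exact AddSubgroup.zero_mem _
    · intro w y ih z
      rw [hstepc]
      exact AddSubgroup.add_mem _ (ih z) (hterm w y z)
    · intro w y ih z
      have h1 := hstepc (w * (of y)⁻¹) y z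
      have h2 : e ⟨M.δ ((φ (w * (of y)⁻¹ * of y) : B) : FreeGroup (Fin R)), hmem _⟩ z =
          e ⟨M.δ ((φ w : B) : FreeGroup (Fin R)), hmem w⟩ z := by
        congr 3
        rw [inv_mul_cancel_right]
      rw [h2] at h1
      have h3 : e ⟨M.δ ((φ (w * (of y)⁻¹) : B) : FreeGroup (Fin R)), hmem (w * (of y)⁻¹)⟩ z =
          e ⟨M.δ ((φ w : B) : FreeGroup (Fin R)), hmem w⟩ z -
          M.u ((φ (w * (of y)⁻¹) : B) : FreeGroup (Fin R)) * (Pi.single y 1 : _ → D) z := by
        rw [h1, add_sub_cancel_right]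
      rw [h3]
      exact AddSubgroup.sub_mem _ (ih z) (hterm _ y z)
  refine ⟨ρ, e.symm.toLinearMap.toAddMonoidHom.comp ((ρ.compLeft _).comp
    e.toLinearMap.toAddMonoidHom), hρ2, hρ3, ?_⟩
  intro a b hb
  change e.symm (ρ.compLeft _ (e ⟨a • M.δ b, _⟩)) = _
  rw [LinearEquiv.symm_apply_eq]
  have hb' : ∀ a' : D, (⟨a' • M.δ b, Submodule.smul_mem _ _ (M.δ_mem_V hb)⟩ :
      M.V (B : Set (FreeGroup (Fin R)))) = a' • ⟨M.δ b, M.δ_mem_V hb⟩ := fun _ => rfl
  rw [hb' a, hb' (ρ a), map_smul e a, map_smul e (ρ a)]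
  funext z
  change ρ (a * e ⟨M.δ b, _⟩ z) = ρ a * e ⟨M.δ b, _⟩ z
  refine hρ1 a _ ?_
  have h4 := hcoord (φ.symm ⟨b, hb⟩) z
  have h5 : (⟨M.δ ((φ (φ.symm ⟨b, hb⟩) : B) : FreeGroup (Fin R)), hmem _⟩ :
      M.V (B : Set (FreeGroup (Fin R)))) = ⟨M.δ b, M.δ_mem_V hb⟩ := by
    apply Subtype.ext
    change M.δ ((φ (φ.symm ⟨b, hb⟩) : B) : FreeGroup (Fin R)) = M.δ b
    rw [MulEquiv.apply_symm_apply]
  rw [h5] at h4
  exact h4

/-- The coordinates in a basis of `V B`, `B` closed: `r` is the restriction of the coordinates to `g₀ B`. -/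
theorem exists_restr {B : Subgroup (FreeGroup (Fin R))} (hB : M.Closed B)
    (g₀ : FreeGroup (Fin R)) :
    ∃ r : (M.V (B : Set (FreeGroup (Fin R)))) →+ (M.V (B : Set (FreeGroup (Fin R)))),
      (∀ g, g₀⁻¹ * g ∈ B → ∀ b, ∀ hb : b ∈ B,
        r ⟨M.u g • M.δ b, Submodule.smul_mem _ _ (M.δ_mem_V hb)⟩ =
          ⟨M.u g • M.δ b, Submodule.smul_mem _ _ (M.δ_mem_V hb)⟩) ∧
      (∀ g, g₀⁻¹ * g ∉ B → ∀ b, ∀ hb : b ∈ B,
        r ⟨M.u g • M.δ b, Submodule.smul_mem _ _ (M.δ_mem_V hb)⟩ = 0) ∧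
      ∀ J : Subgroup (FreeGroup (Fin R)), J ≤ B →
        ∀ v : M.V (B : Set (FreeGroup (Fin R))), (v : Fin R → D) ∈ M.V (J : Set (FreeGroup (Fin R))) →
          (r v : Fin R → D) ∈ M.V (J : Set (FreeGroup (Fin R))) := by
  classical
  obtain ⟨ρ, r, h1, h2, h3⟩ := M.exists_restr' hB g₀
  refine ⟨r, ?_, ?_, ?_⟩
  · intro g hg b hb
    rw [h3 (M.u g) b hb, Subtype.mk.injEq, h1 g hg]
  · intro g hg b hb
    rw [h3 (M.u g) b hb]
    apply Subtype.ext
    change ρ (M.u g) • M.δ b = 0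
    rw [h2 g hg, zero_smul]
  · intro J hJ v hv
    obtain ⟨v, hvB⟩ := v
    have key : ∀ x ∈ M.V (J : Set (FreeGroup (Fin R))), ∀ (a : D)
        (hx : a • x ∈ M.V (B : Set (FreeGroup (Fin R)))),
        ((r ⟨a • x, hx⟩ : M.V (B : Set (FreeGroup (Fin R)))) : Fin R → D) ∈
          M.V (J : Set (FreeGroup (Fin R))) := by
      intro x hx
      refine Submodule.span_induction (p := fun x _ => ∀ (a : D)
        (hx : a • x ∈ M.V (B : Set (FreeGroup (Fin R)))),
        ((r ⟨a • x, hx⟩ : M.V (B : Set (FreeGroup (Fin R)))) : Fin R → D) ∈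
          M.V (J : Set (FreeGroup (Fin R)))) ?_ ?_ ?_ ?_ hx
      · rintro _ ⟨j, hj, rfl⟩ a hx
        rw [h3 a j (hJ hj)]
        exact Submodule.smul_mem _ _ (M.δ_mem_V hj)
      · intro a hx
        have h4 : (⟨a • (0 : Fin R → D), hx⟩ : M.V (B : Set (FreeGroup (Fin R)))) = 0 := by
          apply Subtype.ext
          exact smul_zero a
        rw [h4, map_zero]
        exact Submodule.zero_mem _
      · intro x y hx hy ihx ihy a hxy
        have hxB : a • x ∈ M.V (B : Set (FreeGroup (Fin R))) :=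
          Submodule.smul_mem _ _ (M.V_mono (SetLike.coe_subset_coe.2 hJ) hx)
        have hyB : a • y ∈ M.V (B : Set (FreeGroup (Fin R))) :=
          Submodule.smul_mem _ _ (M.V_mono (SetLike.coe_subset_coe.2 hJ) hy)
        have h4 : (⟨a • (x + y), hxy⟩ : M.V (B : Set (FreeGroup (Fin R)))) =
            ⟨a • x, hxB⟩ + ⟨a • y, hyB⟩ := by
          apply Subtype.ext
          exact smul_add a x y
        rw [h4, map_add, Submodule.coe_add]
        exact Submodule.add_mem _ (ihx a hxB) (ihy a hyB)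
      · intro b x hx ih a hbx
        have h4 : (a * b) • x ∈ M.V (B : Set (FreeGroup (Fin R))) :=
          Submodule.smul_mem _ _ (M.V_mono (SetLike.coe_subset_coe.2 hJ) hx)
        have h5 : (⟨a • (b • x), hbx⟩ : M.V (B : Set (FreeGroup (Fin R)))) = ⟨(a * b) • x, h4⟩ := by
          apply Subtype.ext
          exact (mul_smul a b x).symm
        rw [h5]
        exact ih (a * b) h4
    have h6 := key v hv 1 (by rw [one_smul]; exact hvB)
    have h7 : (⟨(1 : D) • v, by rw [one_smul]; exact hvB⟩ :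
        M.V (B : Set (FreeGroup (Fin R)))) = ⟨v, hvB⟩ := by
      apply Subtype.ext
      exact one_smul D v
    rw [h7] at h6
    exact h6

theorem sum_ite_zmod {α C : Type*} [AddCommGroup C] {x : C} (hx : x + x = 0) (s : Finset α)
    (c : α → ZMod 2) :
    ∑ v ∈ s, (if c v = 0 then 0 else x) = if ∑ v ∈ s, c v = 0 then 0 else x := by
  classical
  induction s using Finset.induction_on with
  | empty => simp
  | insert a s ha ih =>
    rw [Finset.sum_insert ha, Finset.sum_insert ha, ih]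
    have h01 : ∀ z : ZMod 2, z = 0 ∨ z = 1 := by decide
    rcases h01 (c a) with h1 | h1 <;> rcases h01 (∑ v ∈ s, c v) with h2 | h2
    · rw [h1, h2]
      simp
    · rw [h1, h2]
      simp
    · rw [h1, h2]
      simp
    · rw [h1, h2, if_neg one_ne_zero, hx, if_pos (by decide)]

open Classical in
theorem first_moment {J : Subgroup (FreeGroup (Fin R))} {ι : Type}
    {B : ι → Subgroup (FreeGroup (Fin R))} {I : Finset ι} (hJB : ∀ i, J ≤ B i)
    (hB : ∀ i ∈ I, M.Closed (B i)) (hI : M.Indep J B I)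
    (N : Finset (FreeGroup (Fin R) ⧸ J)) (c : ι → (FreeGroup (Fin R) ⧸ J) → ZMod 2)
    (hN : ∀ i ∈ I, ∀ v, v ∉ N → c i v = 0)
    (ha : ∀ i ∈ I, ∀ w, ∑ v ∈ N.filter (fun v => proj (hJB i) v = w), c i v = 0)
    (hb : ∀ v, ∑ i ∈ I, c i v = 0) :
    ∀ i ∈ I, ∀ w, ∑ v ∈ N.filter (fun v => proj (hJB i) v = w),
      (if c i v = 0 then 0 else M.δ v.out) ∈ M.V (J : Set (FreeGroup (Fin R))) := by
  intro i hi w
  have hxx : ∀ x : Fin R → D, x + x = 0 := fun x => funext fun y => M.add_self (x y)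
  obtain ⟨s, hs⟩ : ∃ s : ι → Fin R → D, s = fun j =>
      ∑ v ∈ N, (if c j v = 0 then 0 else M.δ v.out) := ⟨_, rfl⟩
  -- the elements as combinations of `u g • δ b`
  have hout : ∀ j (w' : FreeGroup (Fin R) ⧸ B j) (v : FreeGroup (Fin R) ⧸ J),
      proj (hJB j) v = w' → w'.out⁻¹ * v.out ∈ B j := by
    intro j w' v h
    have h1 : ((w'.out : FreeGroup (Fin R)) : FreeGroup (Fin R) ⧸ B j) =
        ((v.out : FreeGroup (Fin R)) : FreeGroup (Fin R) ⧸ B j) := by
      rw [QuotientGroup.out_eq', ← proj_mk (hJB j) v.out, QuotientGroup.out_eq']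
      exact h.symm
    exact QuotientGroup.eq.1 h1
  have hrep : ∀ j ∈ I, ∀ w' : FreeGroup (Fin R) ⧸ B j,
      ∑ v ∈ N.filter (fun v => proj (hJB j) v = w'), (if c j v = 0 then 0 else M.δ v.out) =
      ∑ v ∈ N.filter (fun v => proj (hJB j) v = w'),
        (if c j v = 0 then 0 else M.u w'.out • M.δ (w'.out⁻¹ * v.out)) := by
    intro j hj w'
    have h1 := sum_ite_zmod (hxx (M.δ w'.out)) (N.filter (fun v => proj (hJB j) v = w')) (c j)
    rw [ha j hj w', if_pos rfl] at h1
    have h3 : ∑ v ∈ N.filter (fun v => proj (hJB j) v = w'), (if c j v = 0 then 0 else M.δ v.out) =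
        ∑ v ∈ N.filter (fun v => proj (hJB j) v = w'), (if c j v = 0 then 0 else M.δ w'.out) +
        ∑ v ∈ N.filter (fun v => proj (hJB j) v = w'),
          (if c j v = 0 then 0 else M.u w'.out • M.δ (w'.out⁻¹ * v.out)) := by
      rw [← Finset.sum_add_distrib]
      refine Finset.sum_congr rfl fun v _ => ?_
      by_cases hc : c j v = 0
      · rw [if_pos hc, if_pos hc, if_pos hc, add_zero]
      · rw [if_neg hc, if_neg hc, if_neg hc, ← M.δ_mul, mul_inv_cancel_left]
    rw [h3, h1, zero_add]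
  have hfib : ∀ j, s j = ∑ w' ∈ N.image (fun v => proj (hJB j) v),
      ∑ v ∈ N.filter (fun v => proj (hJB j) v = w'), (if c j v = 0 then 0 else M.δ v.out) := by
    intro j
    rw [hs]
    exact (Finset.sum_fiberwise_of_maps_to (fun v hv => Finset.mem_image_of_mem _ hv) _).symm
  have hterm : ∀ j (w' : FreeGroup (Fin R) ⧸ B j), ∀ v ∈ N.filter (fun v => proj (hJB j) v = w'),
      (if c j v = 0 then 0 else M.u w'.out • M.δ (w'.out⁻¹ * v.out)) ∈
        M.V (B j : Set (FreeGroup (Fin R))) := by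
    intro j w' v hv
    by_cases hc : c j v = 0
    · rw [if_pos hc]
      exact Submodule.zero_mem _
    · rw [if_neg hc]
      exact Submodule.smul_mem _ _ (M.δ_mem_V (hout j w' v (Finset.mem_filter.1 hv).2))
  have hmem : ∀ j ∈ I, ∀ w' : FreeGroup (Fin R) ⧸ B j,
      ∑ v ∈ N.filter (fun v => proj (hJB j) v = w'), (if c j v = 0 then 0 else M.δ v.out) ∈
        M.V (B j : Set (FreeGroup (Fin R))) := by
    intro j hj w'
    rw [hrep j hj w']
    exact Submodule.sum_mem _ (hterm j w')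
  have hsmem : ∀ j ∈ I, s j ∈ M.V (B j : Set (FreeGroup (Fin R))) := by
    intro j hj
    rw [hfib j]
    exact Submodule.sum_mem _ fun w' _ => hmem j hj w'
  have hstot : ∑ j ∈ I, s j = 0 := by
    rw [hs, Finset.sum_comm]
    refine Finset.sum_eq_zero fun v _ => ?_
    rw [sum_ite_zmod (hxx (M.δ v.out)), hb v, if_pos rfl]
  have hsJ : s i ∈ M.V (J : Set (FreeGroup (Fin R))) :=
    hI s hsmem (by rw [hstot]; exact Submodule.zero_mem _) i hi
  by_cases hw : w ∈ N.image (fun v => proj (hJB i) v)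
  swap
  · have h1 : N.filter (fun v => proj (hJB i) v = w) = ∅ := by
      rw [Finset.filter_eq_empty_iff]
      intro v hv h
      exact hw (Finset.mem_image.2 ⟨v, hv, h⟩)
    rw [h1, Finset.sum_empty]
    exact Submodule.zero_mem _
  obtain ⟨r, hr1, hr2, hr3⟩ := M.exists_restr (hB i hi) w.out
  obtain ⟨T, hT⟩ : ∃ T : (w' : FreeGroup (Fin R) ⧸ B i) → M.V (B i : Set (FreeGroup (Fin R))),
      T = fun w' => ⟨_, hmem i hi w'⟩ := ⟨_, rfl⟩
  have hTw : ∀ w', ((T w' : M.V (B i : Set (FreeGroup (Fin R)))) : Fin R → D) =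
      ∑ v ∈ N.filter (fun v => proj (hJB i) v = w'), (if c i v = 0 then 0 else M.δ v.out) := by
    intro w'
    rw [hT]
  have hTrep : ∀ w', T w' = ∑ v ∈ (N.filter (fun v => proj (hJB i) v = w')).attach,
      ⟨_, hterm i w' v.1 v.2⟩ := by
    intro w'
    apply Subtype.ext
    rw [hTw, Submodule.coe_sum, hrep i hi w']
    exact (Finset.sum_attach _ (fun v => (if c i v = 0 then 0 else
      M.u w'.out • M.δ (w'.out⁻¹ * v.out)))).symm
  have hrT : ∀ w', w' ≠ w → r (T w') = 0 := by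
    intro w' hne
    rw [hTrep, map_sum]
    refine Finset.sum_eq_zero fun v _ => ?_
    by_cases hc : c i v.1 = 0
    · have h1 : (⟨_, hterm i w' v.1 v.2⟩ : M.V (B i : Set (FreeGroup (Fin R)))) = 0 := by
        apply Subtype.ext
        exact if_pos hc
      rw [h1, map_zero]
    · have hb1 := hout i w' v.1 (Finset.mem_filter.1 v.2).2
      have h1 : (⟨_, hterm i w' v.1 v.2⟩ : M.V (B i : Set (FreeGroup (Fin R)))) =
          ⟨M.u w'.out • M.δ (w'.out⁻¹ * v.1.out), Submodule.smul_mem _ _ (M.δ_mem_V hb1)⟩ := by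
        apply Subtype.ext
        exact if_neg hc
      rw [h1]
      refine hr2 _ ?_ _ hb1
      intro h2
      apply hne
      rw [← QuotientGroup.eq, QuotientGroup.out_eq', QuotientGroup.out_eq'] at h2
      exact h2.symm
  have hrTw : r (T w) = T w := by
    have h0 : r (∑ v ∈ (N.filter (fun v => proj (hJB i) v = w)).attach, ⟨_, hterm i w v.1 v.2⟩) =
        ∑ v ∈ (N.filter (fun v => proj (hJB i) v = w)).attach, ⟨_, hterm i w v.1 v.2⟩ := by
      rw [map_sum]
      refine Finset.sum_congr rfl fun v _ => ?_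
      by_cases hc : c i v.1 = 0
      · have h1 : (⟨_, hterm i w v.1 v.2⟩ : M.V (B i : Set (FreeGroup (Fin R)))) = 0 := by
          apply Subtype.ext
          exact if_pos hc
        rw [h1, map_zero]
      · have hb1 := hout i w v.1 (Finset.mem_filter.1 v.2).2
        have h1 : (⟨_, hterm i w v.1 v.2⟩ : M.V (B i : Set (FreeGroup (Fin R)))) =
            ⟨M.u w.out • M.δ (w.out⁻¹ * v.1.out), Submodule.smul_mem _ _ (M.δ_mem_V hb1)⟩ := by
          apply Subtype.ext
          exact if_neg hc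
        rw [h1]
        refine hr1 _ ?_ _ hb1
        rw [inv_mul_cancel]
        exact (B i).one_mem
    rw [hTrep w]
    exact h0
  have hsum : (⟨s i, hsmem i hi⟩ : M.V (B i : Set (FreeGroup (Fin R)))) =
      ∑ w' ∈ N.image (fun v => proj (hJB i) v), T w' := by
    apply Subtype.ext
    rw [Submodule.coe_sum]
    change s i = _
    rw [hfib i]
    exact Finset.sum_congr rfl fun w' _ => (hTw w').symm
  have hrs : r ⟨s i, hsmem i hi⟩ = T w := by
    rw [hsum, map_sum, Finset.sum_eq_single w]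
    · exact hrTw
    · intro w' _ hne
      exact hrT w' hne
    · intro h
      exact absurd hw h
  have hfin := hr3 J (hJB i) ⟨s i, hsmem i hi⟩ hsJ
  rw [hrs, hTw] at hfin
  exact hfin

open Classical in
theorem forest_indep {J : Subgroup (FreeGroup (Fin R))} (hJ : M.Closed J) {ι : Type}
    {B : ι → Subgroup (FreeGroup (Fin R))} {I : Finset ι} (hJB : ∀ i, J ≤ B i)
    (hB : ∀ i ∈ I, M.Closed (B i)) (hI : M.Indep J B I)
    (N : Finset (FreeGroup (Fin R) ⧸ J)) (c : ι → (FreeGroup (Fin R) ⧸ J) → ZMod 2)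
    (hN : ∀ i ∈ I, ∀ v, v ∉ N → c i v = 0)
    (ha : ∀ i ∈ I, ∀ w, ∑ v ∈ N.filter (fun v => proj (hJB i) v = w), c i v = 0)
    (hb : ∀ v, ∑ i ∈ I, c i v = 0) :
    ∀ i ∈ I, ∀ v, c i v = 0 := by
  obtain ⟨GG, hGG⟩ : ∃ GG : Set ((FreeGroup (Fin R) ⧸ J) → ZMod 2), GG = {p | ∀ i ∈ I, ∀ w,
      ∑ v ∈ N.filter (fun v => proj (hJB i) v = w), c i v * p v = 0} := ⟨_, rfl⟩
  have h1 : (fun _ => 1) ∈ GG := by
    rw [hGG]
    intro i hi w
    simp only [mul_one]
    exact ha i hi w
  have hadd : ∀ p ∈ GG, ∀ q ∈ GG, (fun v => p v + q v) ∈ GG := by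
    intro p hp q hq
    rw [hGG] at hp hq ⊢
    intro i hi w
    simp only [mul_add, Finset.sum_add_distrib]
    rw [hp i hi w, hq i hi w, add_zero]
  have hmul : ∀ p ∈ GG, ∀ φ, M.Van J φ → ∀ h, (fun v => M.lam J φ h v * p v) ∈ GG := by
    intro p hp φ hφ h
    rw [hGG] at hp ⊢
    intro i hi w
    have h2 := M.first_moment hJB hB hI N (fun i v => c i v * p v)
      (fun i hi v hv => by rw [hN i hi v hv, zero_mul]) (fun i hi w => hp i hi w)
      (fun v => by rw [← Finset.sum_mul, hb v, zero_mul]) i hi w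
    have h3 := hφ _ h2
    rw [map_sum] at h3
    have h4 : M.co (∑ v ∈ N.filter (fun v => proj (hJB i) v = w),
        φ (if c i v * p v = 0 then 0 else M.δ v.out)) h = 0 := by
      rw [h3, M.co_zero]
    rw [M.co_sum] at h4
    rw [← h4]
    refine Finset.sum_congr rfl fun v _ => ?_
    by_cases hc : c i v * p v = 0
    · rw [if_pos hc, map_zero, M.co_zero]
      calc c i v * (M.lam J φ h v * p v) = M.lam J φ h v * (c i v * p v) := by ring
        _ = 0 := by rw [hc, mul_zero]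
    · rw [if_neg hc]
      have h01 : ∀ z : ZMod 2, z = 0 ∨ z = 1 := by decide
      have h5 : c i v * p v = 1 := (h01 _).resolve_left hc
      calc c i v * (M.lam J φ h v * p v) = M.lam J φ h v * (c i v * p v) := by ring
        _ = M.lam J φ h v := by rw [h5, mul_one]
        _ = _ := rfl
  intro i hi v
  by_cases hv : v ∈ N
  · obtain ⟨p, hp, hpv, hp0⟩ := M.exists_sep hJ GG h1 hadd hmul N v
    rw [hGG] at hp
    have h6 := hp i hi (proj (hJB i) v)
    rw [Finset.sum_eq_single v, hpv, mul_one] at h6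
    · exact h6
    · intro v' hv' hne
      rw [hp0 v' (Finset.mem_filter.1 hv').1 hne, mul_zero]
    · intro h
      exact absurd (Finset.mem_filter.2 ⟨hv, rfl⟩ :
        v ∈ N.filter (fun v' => proj (hJB i) v' = proj (hJB i) v)) h
  · exact hN i hi v hv

end MN

end Pool.Agent.Helper72.BH
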