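import Pool.Agent.Helper72.BH.Omega

/-!
# All first-order sentences: assembly
-/

set_option autoImplicit false

namespace Pool.Agent.Helper72.BH

open FirstOrder Filter Topology
open Pool.Agent.Helper32.OR (grpLang AAS prob OneRel qr aas_mono)

/-- For each `q` there is `N` such that for `n ≥ N` a.a.s. the one-relator group and the free group of
countable rank satisfy the same sentences of quantifier rank at most `q`; the same holds for the free groups
of rank at least `N`. -/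
theorem all_omega (q : ℕ) : ∃ N : ℕ,
    (∀ n, N ≤ n → AAS n (fun r => ∀ φ : grpLang.Sentence, qr φ ≤ q →
      (OneRel r ⊨ φ ↔ FreeGroup ℕ ⊨ φ))) ∧
    ∀ m, N ≤ m → ∀ φ : grpLang.Sentence, qr φ ≤ q →
      (FreeGroup (Fin m) ⊨ φ ↔ FreeGroup ℕ ⊨ φ) := by
  obtain ⟨N1, h1⟩ := all_ranks q
  obtain ⟨N2, h2⟩ := free_omega q
  refine ⟨max N1 N2, fun n hn => ?_, fun m hm φ hφ => h2 m (le_trans (le_max_right _ _) hm) φ hφ⟩
  refine aas_mono (h1 n (le_trans (le_max_left _ _) hn)) (fun r hr φ hφ => ?_)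
  exact (hr (max N1 N2) (le_max_left _ _) φ hφ).trans (h2 _ (le_max_right _ _) φ hφ)

theorem all_limits (φ : grpLang.Sentence) : ∃ N : ℕ, ∀ n, N ≤ n →
    (FreeGroup ℕ ⊨ φ → Tendsto (fun t => prob n t φ) atTop (𝓝 1)) ∧
    (¬ (FreeGroup ℕ ⊨ φ) → Tendsto (fun t => prob n t φ) atTop (𝓝 0)) := by
  obtain ⟨N, h1, -⟩ := all_omega (qr φ)
  refine ⟨N, fun n hn => ⟨fun h => ?_, fun h => ?_⟩⟩
  · exact aas_mono (h1 n hn) (fun r hr => (hr φ le_rfl).2 h)
  · exact Pool.Agent.Helper32.OR.aas_not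
      (aas_mono (h1 n hn) (fun r hr h2 => h ((hr φ le_rfl).1 h2)))

end Pool.Agent.Helper72.BH
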