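import Pool.Agent.Helper72.BH.ClaimC
import Pool.Agent.Helper79.HL.Ramsey
import Pool.Agent.Helper45.BH.Exists

/-!
# The bounded hull lemma (BHL)

PROOF. Let `D`, `M : MN R D` be as in `exists_MN`. Let `f N` be the bound `B` of `ramsey` for `c ρ = 6 ρ + 2` and `N`. If all `A i` are
trivial then `R = 0`. Suppose `f N < R = dim V ⊤ = dim (⨆ V (A i))`. `ramsey` gives `T ⊆ s` nonempty and `S ⊆ s`.
`J = cl (⨆ i ∈ T, A i)`, so `V J = ⨆ i ∈ T, V (A i)`; `B i = cl (J ⊔ A i)`, `V (B i) = V J ⊔ V (A i)`; `J ⊔ A i` is filled by `J`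
(`filled_join`, `H ≤ J`; the group `J ⊔ A i` is free of finite rank), `B i` is filled by `J ⊔ A i` (`filled_cl`), so by
`J` (`filled_trans`). `dim V (B i) > dim V J` as `V (A i)` is not contained in `V J`. `J ≠ ⊥`: otherwise `H = ⊥` and all
`A i` are trivial (filled by `⊥`). `claimC` gives `|S| ≤ 6 ρ + 1`: contradiction.
-/

set_option autoImplicit false

namespace Pool.Agent.Helper72.BH

open FreeGroup (of)
open Pool.Agent.Helper22.OR (Gen card_le_of_gen)
open Pool.Agent.Helper79.HL (ramsey IndepOver)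

theorem Gen.sup' {G : Type} [Group G] {j k : ℕ} {M M' : Subgroup G} (hM : Gen j M)
    (hM' : Gen k M') : Gen (j + k) (M ⊔ M') := by
  obtain ⟨g, hg⟩ := hM
  obtain ⟨g', hg'⟩ := hM'
  refine ⟨Fin.append g g', ?_⟩
  rw [← hg, ← hg', ← Subgroup.closure_union]
  congr 1
  ext z
  constructor
  · rintro ⟨i, rfl⟩
    refine Fin.addCases (fun a => ?_) (fun a => ?_) i
    · rw [Fin.append_left]
      exact Or.inl ⟨a, rfl⟩
    · rw [Fin.append_right]
      exact Or.inr ⟨a, rfl⟩
  · rintro (⟨a, rfl⟩ | ⟨a, rfl⟩)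
    · exact ⟨Fin.castAdd k a, by rw [Fin.append_left]⟩
    · exact ⟨Fin.natAdd j a, by rw [Fin.append_right]⟩

/-- A subgroup with finitely many generators of a free group is free of finite rank. -/
theorem free_of_gen {R k : ℕ} {A : Subgroup (FreeGroup (Fin R))} (hA : Gen k A) :
    ∃ m, Nonempty (FreeGroup (Fin m) ≃* A) := by
  have hfree : IsFreeGroup A := inferInstance
  obtain ⟨g, hg⟩ := hA
  have hmem : ∀ i, g i ∈ A := fun i => by
    rw [← hg]
    exact Subgroup.subset_closure ⟨i, rfl⟩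
  have htop : Subgroup.closure (Set.range fun i => (⟨g i, hmem i⟩ : A)) = ⊤ := by
    apply Subgroup.map_injective (Subgroup.subtype_injective A)
    rw [MonoidHom.map_closure, ← MonoidHom.range_eq_map, Subgroup.range_subtype,
      ← Set.range_comp]
    exact hg
  let ψ : FreeGroup (IsFreeGroup.Generators A) ≃* A := (IsFreeGroup.toFreeGroup A).symm
  obtain ⟨hfin, -⟩ := card_le_of_gen ψ _ htop
  obtain ⟨eb⟩ : Nonempty (Fin (Nat.card (IsFreeGroup.Generators A)) ≃
      IsFreeGroup.Generators A) := ⟨(Finite.equivFin _).symm⟩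
  exact ⟨_, ⟨(FreeGroup.freeGroupCongr eb).trans ψ⟩⟩

theorem filled_bot {G : Type} [Group G] {k : ℕ} {A : Subgroup G} (h : Filled k ⊥ A) : A = ⊥ := by
  obtain ⟨-, ⟨g, hg⟩, h3⟩ := h
  cases k with
  | zero =>
    rw [← hg]
    have : Set.range g = ∅ := Set.range_eq_empty g
    rw [this, Subgroup.closure_empty]
  | succ k =>
    exfalso
    refine h3 k (Subgroup.closure (Set.range fun i : Fin k => g i.succ)) (g 0) rfl ⟨_, rfl⟩ ?_
      bot_le
    rw [← Subgroup.closure_union, ← hg]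
    congr 1
    ext z
    constructor
    · rintro (⟨i, rfl⟩ | hz)
      · exact ⟨i.succ, rfl⟩
      · rw [Set.mem_singleton_iff] at hz
        exact ⟨0, hz.symm⟩
    · rintro ⟨i, rfl⟩
      refine Fin.cases ?_ (fun j => ?_) i
      · exact Or.inr rfl
      · exact Or.inl ⟨j, rfl⟩

/-- The bounded hull lemma, given the division rings. -/
theorem bhl_free_of (hMN : ∀ R : ℕ, ∃ (D : Type) (_ : DivisionRing D), Nonempty (MN R D)) (N : ℕ) :
    ∃ f : ℕ, ∀ (R : ℕ) (H : Subgroup (FreeGroup (Fin R))) (s : ℕ)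
      (A : Fin s → Subgroup (FreeGroup (Fin R))), (∀ i, FilledLe N H (A i)) → (⨆ i, A i) = ⊤ →
      R ≤ f := by
  classical
  obtain ⟨f, hf⟩ := ramsey.{0, 0, 0} (fun ρ => 6 * ρ + 2) N
  refine ⟨f, ?_⟩
  intro R H s A hA htop
  by_contra hlt
  push Not at hlt
  obtain ⟨D, hD, ⟨M⟩⟩ := hMN R
  have hVsup : ∀ T : Finset (Fin s), T.sup (fun i => M.V (A i : Set (FreeGroup (Fin R)))) =
      M.V ((⨆ i : {i // i ∈ T}, A i.1 : Subgroup (FreeGroup (Fin R))) :
        Set (FreeGroup (Fin R))) := by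
    intro T
    rw [M.V_iSup, Finset.sup_eq_iSup, iSup_subtype]
  have hrank : ∀ i, Module.finrank D (M.V (A i : Set (FreeGroup (Fin R)))) ≤ N := by
    intro i
    obtain ⟨k, hk, hfill⟩ := hA i
    exact (M.finrank_V_le hfill.gen).trans hk
  have htop' : f < Module.finrank D
      ↥((Finset.univ : Finset (Fin s)).sup fun i => M.V (A i : Set (FreeGroup (Fin R)))) := by
    have h1 : ((Finset.univ : Finset (Fin s)).sup fun i => M.V (A i : Set (FreeGroup (Fin R)))) =
        M.V ((⊤ : Subgroup (FreeGroup (Fin R))) : Set (FreeGroup (Fin R))) := by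
      rw [← htop, M.V_iSup, Finset.sup_univ_eq_iSup]
    rw [h1, M.finrank_V_top]
    exact hlt
  obtain ⟨T, -, ⟨i₀, hi₀⟩, S, -, hcard, hind, hnot⟩ :=
    hf D (Fin R → D) (Fin s) (fun i => M.V (A i : Set (FreeGroup (Fin R)))) Finset.univ
      (fun i => inferInstance) (fun i _ => hrank i) htop'
  have hcard' : 6 * Module.finrank D
      ↥(T.sup fun i => M.V (A i : Set (FreeGroup (Fin R)))) + 2 ≤ S.card := hcard
  rw [hVsup T] at hcard' hind hnot
  let J₁ : Subgroup (FreeGroup (Fin R)) := ⨆ i : {i // i ∈ T}, A i.1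
  let J : Subgroup (FreeGroup (Fin R)) := M.cl (J₁ : Set (FreeGroup (Fin R)))
  let B : Fin s → Subgroup (FreeGroup (Fin R)) := fun i =>
    M.cl ((J ⊔ A i : Subgroup (FreeGroup (Fin R))) : Set (FreeGroup (Fin R)))
  have hVJ : M.V (J : Set (FreeGroup (Fin R))) = M.V (J₁ : Set (FreeGroup (Fin R))) := M.V_cl _
  have hVB : ∀ i, M.V (B i : Set (FreeGroup (Fin R))) =
      M.V (J : Set (FreeGroup (Fin R))) ⊔ M.V (A i : Set (FreeGroup (Fin R))) := by
    intro i
    rw [M.V_cl, M.V_sup]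
  have hJcl : M.Closed J := M.closed_cl _
  have hHJ : H ≤ J := by
    obtain ⟨k, -, hfill⟩ := hA i₀
    exact (hfill.le.trans (le_iSup (fun i : {i // i ∈ T} => A i.1) ⟨i₀, hi₀⟩)).trans (M.le_cl _)
  have hJB : ∀ i, J ≤ B i := fun i => le_sup_left.trans (M.le_cl _)
  have hne : J ≠ ⊥ := by
    intro hbot
    have hH : H = ⊥ := by
      rw [eq_bot_iff, ← hbot]
      exact hHJ
    obtain ⟨i, hi⟩ := Finset.card_pos.1 (by omega : 0 < S.card)
    apply hnot i hi
    obtain ⟨k, -, hfill⟩ := hA i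
    rw [hH] at hfill
    have h1 : M.V (A i : Set (FreeGroup (Fin R))) = ⊥ := by
      rw [M.V_eq_bot_iff, filled_bot hfill]
    rw [h1]
    exact bot_le
  have hind' : M.Indep J B S := by
    intro w hw hsum
    rw [hVJ] at hsum ⊢
    refine hind w ?_ hsum
    intro i hi
    have h1 := hw i hi
    rw [hVB, hVJ, sup_comm] at h1
    exact h1
  have hfillB : ∀ i ∈ S, ∃ k, Filled k J (B i) := by
    intro i _
    obtain ⟨k, -, hfill⟩ := hA i
    obtain ⟨m, ⟨φ⟩⟩ := free_of_gen (Gen.sup' (M.closed_gen hJcl) hfill.gen)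
    have h1 : Filled m J (J ⊔ A i) := by
      refine filled_join φ (fun _ : Unit => A i) (fun _ => H) (fun _ => hHJ)
        (fun _ => ⟨k, hfill⟩) ?_
      rw [iSup_unique]
    have h2 := M.filled_cl (J ⊔ A i)
    obtain ⟨φ', -⟩ := M.closed_basis (M.closed_cl ((J ⊔ A i : Subgroup (FreeGroup (Fin R))) :
      Set (FreeGroup (Fin R))))
    exact ⟨_, filled_trans φ' h1 h2⟩
  have hltB : ∀ i ∈ S, Module.finrank D (M.V (J : Set (FreeGroup (Fin R)))) <
      Module.finrank D (M.V (B i : Set (FreeGroup (Fin R)))) := by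
    intro i hi
    apply Submodule.finrank_lt_finrank_of_lt
    rw [hVB]
    refine lt_of_le_of_ne le_sup_left ?_
    intro heq
    apply hnot i hi
    have h1 : M.V (A i : Set (FreeGroup (Fin R))) ≤ M.V (J : Set (FreeGroup (Fin R))) := by
      rw [heq]
      exact le_sup_right
    rw [hVJ] at h1
    exact h1
  have hC := M.claimC hJcl hne hJB (fun i _ => M.closed_cl _) hind' hfillB hltB
  rw [hVJ] at hC
  have hcard2 : 6 * Module.finrank D (M.V (J₁ : Set (FreeGroup (Fin R)))) + 2 ≤ S.card := hcard'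
  omega

/-- The bounded hull lemma: a free group of rank `R` generated by finitely many subgroups of rank at most `N` which are filled by
the same subgroup `H` has rank at most `f`. -/
theorem bhl_free (N : ℕ) : ∃ f : ℕ, ∀ (R : ℕ) (H : Subgroup (FreeGroup (Fin R))) (s : ℕ)
    (A : Fin s → Subgroup (FreeGroup (Fin R))), (∀ i, FilledLe N H (A i)) → (⨆ i, A i) = ⊤ →
    R ≤ f :=
  bhl_free_of Pool.Agent.Helper45.BH.exists_MN N

end Pool.Agent.Helper72.BH
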