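import Pool.Agent.Helper45.BH.Inj

/-!
# A finitely supported cycle on the Cayley tree of a free group is zero

Suppose that some `c x g ≠ 0`. The edge `(x, g)` joins `g` and `g * of x`. Choose an edge with `c x g ≠ 0`
and an end `w` of it of maximal length `FreeGroup.norm` among all ends of such edges. The equation at `w` contains
a nonzero term: the edges at `w` are `(x, w)` (other end `w * of x`) and `(x, w * (of x)⁻¹)` (other end
`w * (of x)⁻¹`). Exactly one of the `2 R` neighbours of `w ≠ 1` is shorter than `w`, the others are longer, so
exactly one term of the equation `∑ x, c x w = ∑ x, c x (w * (of x)⁻¹)` is not zero: contradiction.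
(If `w = 1` then all neighbours are longer, and no edge at `1` has both ends of length `0`.)
Useful: `FreeGroup.toWord_mul`-like facts, `(w * of x).norm = w.norm + 1` or `w.toWord` ends with
`(x, false)`; the last letter of `w.toWord` determines the shorter neighbour.
-/

set_option autoImplicit false

namespace Pool.Agent.Helper72.BH

open FreeGroup (of)

theorem cayley_cycle {R : ℕ} (c : Fin R → FreeGroup (Fin R) → ZMod 2)
    (hfin : {p : Fin R × FreeGroup (Fin R) | c p.1 p.2 ≠ 0}.Finite)
    (hc : ∀ g, ∑ x, c x g = ∑ x, c x (g * (of x)⁻¹)) : ∀ x g, c x g = 0 := by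
  have h1 : ∀ x, (Function.support (c x)).Finite := by
    intro x
    have h2 : Function.Injective (fun g : FreeGroup (Fin R) => (x, g)) := by
      intro g g' h
      exact (Prod.mk.inj h).2
    exact (hfin.preimage h2.injOn).subset fun g hg => hg
  have h3 := Pool.Agent.Helper45.BH.tree_cycle c h1 hc
  intro x g
  exact congrFun (congrFun h3 x) g

end Pool.Agent.Helper72.BH
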