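import Pool.Agent.Helper72.BH.Walk

/-!
# Finite subgraphs of the graph of a subgroup

`F = FreeGroup (Fin R)` acts on `Q = F ⧸ B`. The graph of `B` has the vertices `v : F ⧸ B` and the edges
`a = (v, x)` from `a.1 = v` to `tg a = (of x)⁻¹ • v`. The path with the label `g` from the base `1 B`
ends at `g⁻¹ B`. `Run E g`: there is a path of edges in `E` from the base with the value `g`.
-/

set_option autoImplicit false

namespace Pool.Agent.Helper72.BH

open FreeGroup (of)

variable {R : ℕ}

/-- The end of an edge. -/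
def tg {Q : Type} [MulAction (FreeGroup (Fin R)) Q] (a : Q × Fin R) : Q := (of a.2)⁻¹ • a.1

/-- The ends of the edges of `E`. -/
noncomputable def ends {Q : Type} [MulAction (FreeGroup (Fin R)) Q] (E : Finset (Q × Fin R)) :
    Finset Q := by
  classical
  exact E.image (fun a => a.1) ∪ E.image (fun a => tg a)

/-- There is a path of edges in `E` from the base with the value `g`. -/
inductive Run (B : Subgroup (FreeGroup (Fin R)))
    (E : Finset ((FreeGroup (Fin R) ⧸ B) × Fin R)) : FreeGroup (Fin R) → Prop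
  | one : Run B E 1
  | mul (g : FreeGroup (Fin R)) (x : Fin R) : Run B E g →
      (((g⁻¹ : FreeGroup (Fin R)) : FreeGroup (Fin R) ⧸ B), x) ∈ E → Run B E (g * of x)
  | inv (g : FreeGroup (Fin R)) (x : Fin R) : Run B E g →
      (((of x * g⁻¹ : FreeGroup (Fin R)) : FreeGroup (Fin R) ⧸ B), x) ∈ E →
      Run B E (g * (of x)⁻¹)

/-- All edges of `E` can be reached from the base. -/
def Reach (B : Subgroup (FreeGroup (Fin R)))
    (E : Finset ((FreeGroup (Fin R) ⧸ B) × Fin R)) : Prop :=
  ∀ a ∈ E, ∃ g, Run B E g ∧ ((g⁻¹ : FreeGroup (Fin R)) : FreeGroup (Fin R) ⧸ B) = a.1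

/-- The loops of `E` generate `B`. -/
def Carry (B : Subgroup (FreeGroup (Fin R)))
    (E : Finset ((FreeGroup (Fin R) ⧸ B) × Fin R)) : Prop :=
  ∀ b ∈ B, Run B E b

theorem Run.mono {B : Subgroup (FreeGroup (Fin R))}
    {E E' : Finset ((FreeGroup (Fin R) ⧸ B) × Fin R)} (h : E ⊆ E') {g : FreeGroup (Fin R)}
    (hg : Run B E g) : Run B E' g := by
  induction hg with
  | one => exact Run.one
  | mul g x _ he ih => exact Run.mul g x ih (h he)
  | inv g x _ he ih => exact Run.inv g x ih (h he)

theorem Run.mul_left {B : Subgroup (FreeGroup (Fin R))}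
    {E : Finset ((FreeGroup (Fin R) ⧸ B) × Fin R)} {b : FreeGroup (Fin R)} (hb : b ∈ B)
    (h : Run B E b) {g : FreeGroup (Fin R)} (hg : Run B E g) : Run B E (b * g) := by
  induction hg with
  | one => simpa using h
  | mul g x _ he ih =>
    rw [← mul_assoc]
    refine Run.mul _ x ih ?_
    convert he using 2
    rw [QuotientGroup.eq]
    simpa using hb
  | inv g x _ he ih =>
    rw [← mul_assoc]
    refine Run.inv _ x ih ?_
    convert he using 2
    rw [QuotientGroup.eq]
    simpa [mul_assoc] using hb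

/-- The projection `F ⧸ J → F ⧸ B` for `J ≤ B`. -/
def proj {J B : Subgroup (FreeGroup (Fin R))} (h : J ≤ B) :
    FreeGroup (Fin R) ⧸ J → FreeGroup (Fin R) ⧸ B := Subgroup.quotientMapOfLE h

theorem proj_mk {J B : Subgroup (FreeGroup (Fin R))} (h : J ≤ B) (g : FreeGroup (Fin R)) :
    proj h (g : FreeGroup (Fin R) ⧸ J) = (g : FreeGroup (Fin R) ⧸ B) := rfl

theorem proj_smul {J B : Subgroup (FreeGroup (Fin R))} (h : J ≤ B) (g : FreeGroup (Fin R))
    (v : FreeGroup (Fin R) ⧸ J) : proj h (g • v) = g • proj h v := by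
  induction v using QuotientGroup.induction_on
  rfl

/-- The projection of edges. -/
def projE {J B : Subgroup (FreeGroup (Fin R))} (h : J ≤ B) (a : (FreeGroup (Fin R) ⧸ J) × Fin R) :
    (FreeGroup (Fin R) ⧸ B) × Fin R := (proj h a.1, a.2)

theorem tg_projE {J B : Subgroup (FreeGroup (Fin R))} (h : J ≤ B)
    (a : (FreeGroup (Fin R) ⧸ J) × Fin R) : tg (projE h a) = proj h (tg a) :=
  (proj_smul h _ _).symm

end Pool.Agent.Helper72.BH
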