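import Pool.Agent.Helper72.BH.Inj
import Pool.Agent.Helper72.BH.RunDefs

/-!
# Chains of paths; bases of closed subgroups

`kap g` is the chain (with coefficients in `D`) of the path with the label `g` from the base:
`kap (g x) = kap g + u g [g⁻¹ P, x]`.

`closed_indep`: `P` closed, `φ : FreeGroup Y ≃* P`. Suppose `∑ a_y δ (φ y) = 0` (finitely supported `a`). Let
`ν = ∑ a_y kap (φ y)`. Then `aug ν = 0` (`aug_kap`), `bd ν = ∑ a_y (1 - u (φ y)) [1 P]` (`bd_kap`), and
`∑ a_y (1 - u (φ y)) = - dd (∑ a_y δ (φ y)) = 0`. So `ν = 0` by `inj_lemma`. Fix `y₀` and let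
`χ : FreeGroup Y → D`, `χ = awalk (fun g y => if y = y₀ then u (φ g) else 0)`, so `χ (y) = δ_{y y₀}` and
`χ (g h) = χ g + u (φ g) χ h`; write `χ' : P → D`, `χ' = χ ∘ φ.symm`. For `v : F ⧸ P` let `t v = v.out⁻¹`
for `v ≠ 1 P` and `t (1 P) = 1` (so `(t v)⁻¹ P = v`). Define the `D`-linear functional `Λ` on chains by
`[v, x] ↦ u (t v)⁻¹ * χ' (t v * x * (t (x⁻¹ • v))⁻¹)` (this element is in `P`). Claim
`Λ (kap g) = χ' (g * (t (g⁻¹ P))⁻¹)` for all `g` (`awalk_unique` or `fg_induct`), in particular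
`Λ (kap (φ y)) = χ y`. So `0 = Λ ν = ∑ a_y χ y = a_{y₀}`.
-/

set_option autoImplicit false

namespace Pool.Agent.Helper72.BH

open FreeGroup (of)
open Pool.Agent.Helper22.OR (Gen)

namespace MN

variable {R : ℕ} {D : Type} [DivisionRing D] (M : MN R D)

/-- The chain of the path with the label `g`. -/
noncomputable def kap (P : Subgroup (FreeGroup (Fin R))) (g : FreeGroup (Fin R)) :
    ((FreeGroup (Fin R) ⧸ P) × Fin R) →₀ D :=
  awalk (fun g x => Finsupp.single (((g⁻¹ : FreeGroup (Fin R)) : FreeGroup (Fin R) ⧸ P), x)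
    (M.u g)) g

theorem kap_of (P : Subgroup (FreeGroup (Fin R))) (g : FreeGroup (Fin R)) (x : Fin R) :
    M.kap P (g * of x) = M.kap P g +
      Finsupp.single (((g⁻¹ : FreeGroup (Fin R)) : FreeGroup (Fin R) ⧸ P), x) (M.u g) :=
  awalk_of _ g x

theorem aug_kap (P : Subgroup (FreeGroup (Fin R))) (g : FreeGroup (Fin R)) :
    M.aug P (M.kap P g) = M.δ g := by
  revert g
  refine awalk_unique (F1 := fun g => M.aug P (M.kap P g)) (F2 := fun g => M.δ g)
    (fun g x => M.u g • (Pi.single x 1 : Fin R → D)) ?_ ?_ ?_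
  · simp [kap]
  · intro g x
    rw [M.kap_of, map_add, aug, Finsupp.linearCombination_single]
  · intro g x
    exact M.δ_mul_of g x

theorem bd_kap (P : Subgroup (FreeGroup (Fin R))) (g : FreeGroup (Fin R)) :
    M.bd P (M.kap P g) =
      Finsupp.single ((1 : FreeGroup (Fin R)) : FreeGroup (Fin R) ⧸ P) (1 : D) -
      Finsupp.single ((g⁻¹ : FreeGroup (Fin R)) : FreeGroup (Fin R) ⧸ P) (M.u g) := by
  revert g
  refine awalk_unique (F1 := fun g => M.bd P (M.kap P g)) (F2 := fun g =>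
      Finsupp.single ((1 : FreeGroup (Fin R)) : FreeGroup (Fin R) ⧸ P) (1 : D) -
      Finsupp.single ((g⁻¹ : FreeGroup (Fin R)) : FreeGroup (Fin R) ⧸ P) (M.u g))
    (fun g x => Finsupp.single ((g⁻¹ : FreeGroup (Fin R)) : FreeGroup (Fin R) ⧸ P) (M.u g) -
      Finsupp.single (((g * of x)⁻¹ : FreeGroup (Fin R)) : FreeGroup (Fin R) ⧸ P)
        (M.u (g * of x))) ?_ ?_ ?_
  · simp [kap]
  · intro g x
    rw [M.kap_of, map_add, M.bd_single, map_mul, mul_inv_rev]
    rfl
  · intro g x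
    abel

theorem mem_P_aux (P : Subgroup (FreeGroup (Fin R))) (g : FreeGroup (Fin R))
    (v : FreeGroup (Fin R) ⧸ P) : v.out⁻¹ * g * (g⁻¹ • v).out ∈ P := by
  rw [mul_assoc]
  refine QuotientGroup.eq.1 ?_
  have e1 : ((g * (g⁻¹ • v).out : FreeGroup (Fin R)) : FreeGroup (Fin R) ⧸ P) =
      g • (((g⁻¹ • v).out : FreeGroup (Fin R)) : FreeGroup (Fin R) ⧸ P) := rfl
  rw [e1, QuotientGroup.out_eq', QuotientGroup.out_eq', smul_inv_smul]

/-- The values of the functional. -/
noncomputable def mw {P : Subgroup (FreeGroup (Fin R))} (χ : P → D) (g : FreeGroup (Fin R))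
    (v : FreeGroup (Fin R) ⧸ P) : D := M.u v.out * χ ⟨_, mem_P_aux P g v⟩

theorem mw_mul {P : Subgroup (FreeGroup (Fin R))} {χ : P → D}
    (hχ : ∀ p q : P, χ (p * q) = χ p + M.u (p : FreeGroup (Fin R)) * χ q)
    (p q : FreeGroup (Fin R)) (v : FreeGroup (Fin R) ⧸ P) :
    M.mw χ (p * q) v = M.mw χ p v + M.u p * M.mw χ q (p⁻¹ • v) := by
  simp only [mw]
  have e1 : (⟨_, mem_P_aux P (p * q) v⟩ : P) =
      ⟨_, mem_P_aux P p v⟩ * ⟨_, mem_P_aux P q (p⁻¹ • v)⟩ := by
    apply Subtype.ext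
    simp only [Subgroup.coe_mul]
    rw [mul_inv_rev, mul_smul]
    group
  rw [e1, hχ, mul_add, ← mul_assoc, ← mul_assoc, ← map_mul, ← map_mul]
  congr 3
  group

/-- The functional. -/
noncomputable def Lam {P : Subgroup (FreeGroup (Fin R))} (χ : P → D) :
    (((FreeGroup (Fin R) ⧸ P) × Fin R) →₀ D) →ₗ[D] D :=
  Finsupp.linearCombination D (fun a => M.mw χ (of a.2) a.1)

theorem Lam_kap {P : Subgroup (FreeGroup (Fin R))} {χ : P → D}
    (hχ : ∀ p q : P, χ (p * q) = χ p + M.u (p : FreeGroup (Fin R)) * χ q)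
    (g : FreeGroup (Fin R)) : M.Lam χ (M.kap P g) =
      M.mw χ g ((1 : FreeGroup (Fin R)) : FreeGroup (Fin R) ⧸ P) := by
  revert g
  refine awalk_unique (F1 := fun g => M.Lam χ (M.kap P g)) (F2 := fun g =>
    M.mw χ g ((1 : FreeGroup (Fin R)) : FreeGroup (Fin R) ⧸ P))
    (fun g x => M.u g * M.mw χ (of x) ((g⁻¹ : FreeGroup (Fin R)) : FreeGroup (Fin R) ⧸ P))
    ?_ ?_ ?_
  · have h1 := M.mw_mul hχ 1 1 ((1 : FreeGroup (Fin R)) : FreeGroup (Fin R) ⧸ P)
    rw [mul_one, map_one, one_mul, inv_one, one_smul] at h1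
    simp only [kap, awalk_one, map_zero]
    exact (left_eq_add.1 h1).symm
  · intro g x
    rw [M.kap_of, map_add, Lam, Finsupp.linearCombination_single, smul_eq_mul]
  · intro g x
    have h1 := M.mw_mul hχ g (of x) ((1 : FreeGroup (Fin R)) : FreeGroup (Fin R) ⧸ P)
    have h2 : g⁻¹ • ((1 : FreeGroup (Fin R)) : FreeGroup (Fin R) ⧸ P) =
        ((g⁻¹ : FreeGroup (Fin R)) : FreeGroup (Fin R) ⧸ P) := by
      change ((g⁻¹ * 1 : FreeGroup (Fin R)) : FreeGroup (Fin R) ⧸ P) = _
      rw [mul_one]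
    rw [h2] at h1
    exact h1

/-- A basis of a closed subgroup is mapped to linearly independent vectors. -/
theorem closed_indep {P : Subgroup (FreeGroup (Fin R))} (hP : M.Closed P) {Y : Type}
    (φ : FreeGroup Y ≃* P) :
    LinearIndependent D (fun y => M.δ ((φ (of y) : P) : FreeGroup (Fin R))) := by
  classical
  rw [linearIndependent_iff']
  intro s a ha i hi
  set b : Y → P := fun y => φ (of y) with hb
  set u0 : FreeGroup (Fin R) ⧸ P := ((1 : FreeGroup (Fin R)) : FreeGroup (Fin R) ⧸ P) with hu0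
  have hfix : ∀ p : P, (((p : FreeGroup (Fin R))⁻¹ : FreeGroup (Fin R)) :
      FreeGroup (Fin R) ⧸ P) = u0 := by
    intro p
    rw [hu0]
    exact QuotientGroup.eq.2 (by simp)
  have hfix' : ∀ p : P, (p : FreeGroup (Fin R))⁻¹ • u0 = u0 := by
    intro p
    change (((p : FreeGroup (Fin R))⁻¹ * 1 : FreeGroup (Fin R)) : FreeGroup (Fin R) ⧸ P) = u0
    rw [mul_one]
    exact hfix p
  have hdd : ∑ j ∈ s, a j * (M.u (b j : FreeGroup (Fin R)) - 1) = 0 := by
    have h1 := congrArg M.dd ha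
    rw [map_sum, map_zero] at h1
    simp only [map_smul, M.dd_δ, smul_eq_mul] at h1
    exact h1
  have hc0 : ∑ j ∈ s, a j • M.kap P (b j : FreeGroup (Fin R)) = 0 := by
    refine M.inj_lemma hP _ ?_ ?_
    · rw [map_sum]
      simp only [map_smul, M.bd_kap, hfix]
      have e1 : ∀ j ∈ s, a j • (Finsupp.single u0 (1 : D) -
          Finsupp.single u0 (M.u (b j : FreeGroup (Fin R)))) =
          -Finsupp.single u0 (a j * (M.u (b j : FreeGroup (Fin R)) - 1)) := by
        intro j _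
        rw [← Finsupp.single_sub, Finsupp.smul_single, ← Finsupp.single_neg, smul_eq_mul,
          ← mul_neg, neg_sub]
      rw [Finset.sum_congr rfl e1, Finset.sum_neg_distrib, ← Finsupp.single_finset_sum, hdd]
      simp
    · rw [map_sum]
      simp only [map_smul, M.aug_kap]
      exact ha
  obtain ⟨χ0, h1, h2⟩ := Pool.Agent.Helper45.BH.exists_crossed_free (R := D) (W := D)
    (M.u.comp (P.subtype.comp φ.toMonoidHom)) (fun j => if j = i then 1 else 0)
  let χ : P → D := fun p => χ0 (φ.symm p)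
  have hχ1 : ∀ j, χ (b j) = if j = i then 1 else 0 := by
    intro j
    simp only [χ, b, MulEquiv.symm_apply_apply]
    exact h1 j
  have hχ : ∀ p q : P, χ (p * q) = χ p + M.u (p : FreeGroup (Fin R)) * χ q := by
    intro p q
    simp only [χ]
    rw [map_mul, h2]
    simp
  have hχ1' : χ 1 = 0 := by
    have h3 := hχ 1 1
    rw [mul_one, Subgroup.coe_one, map_one, one_mul] at h3
    exact (left_eq_add.1 h3)
  have hfun := congrArg (M.Lam χ) hc0
  rw [map_sum, map_zero] at hfun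
  have hLam : ∀ p : P, M.Lam χ (M.kap P (p : FreeGroup (Fin R))) =
      M.mw χ (p : FreeGroup (Fin R)) u0 := fun p => M.Lam_kap hχ _
  simp only [map_smul, hLam, smul_eq_mul] at hfun
  have ho : u0.out ∈ P := by
    have h3 := QuotientGroup.eq.1 (QuotientGroup.out_eq' u0 : ((u0.out : FreeGroup (Fin R)) :
      FreeGroup (Fin R) ⧸ P) = ((1 : FreeGroup (Fin R)) : FreeGroup (Fin R) ⧸ P))
    rw [mul_one] at h3
    exact (P.inv_mem_iff).1 h3
  have hmw : ∀ p : P, M.mw χ (p : FreeGroup (Fin R)) u0 =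
      χ p + (M.u (p : FreeGroup (Fin R)) - 1) * χ ⟨u0.out, ho⟩ := by
    intro p
    have e1 : (⟨_, mem_P_aux P (p : FreeGroup (Fin R)) u0⟩ : P) =
        (⟨u0.out, ho⟩ : P)⁻¹ * (p * ⟨u0.out, ho⟩) := by
      apply Subtype.ext
      simp only [Subgroup.coe_mul, Subgroup.coe_inv]
      rw [hfix', mul_assoc]
    have e3 : M.u u0.out * M.u (((⟨u0.out, ho⟩ : P)⁻¹ : P) : FreeGroup (Fin R)) = 1 := by
      rw [← map_mul]
      simp
    have e2 : M.u u0.out * χ (⟨u0.out, ho⟩ : P)⁻¹ = -χ ⟨u0.out, ho⟩ := by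
      have h3 := hχ (⟨u0.out, ho⟩ : P) (⟨u0.out, ho⟩ : P)⁻¹
      rw [mul_inv_cancel, hχ1'] at h3
      exact (neg_eq_of_add_eq_zero_right h3.symm).symm
    rw [mw, e1, hχ, mul_add, e2, ← mul_assoc, e3, one_mul, hχ, sub_mul, one_mul]
    abel
  simp only [hmw, mul_add, Finset.sum_add_distrib, ← mul_assoc] at hfun
  rw [← Finset.sum_mul, hdd, zero_mul, add_zero] at hfun
  simp only [hχ1, mul_ite, mul_one, mul_zero, Finset.sum_ite_eq', if_pos hi] at hfun
  exact hfun

theorem closure_basis {P : Subgroup (FreeGroup (Fin R))} {Y : Type} (φ : FreeGroup Y ≃* P) :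
    Subgroup.closure (Set.range fun y => ((φ (of y) : P) : FreeGroup (Fin R))) = P := by
  have h1 : Set.range (fun y => ((φ (of y) : P) : FreeGroup (Fin R))) =
      (P.subtype.comp φ.toMonoidHom) '' Set.range (of : Y → FreeGroup Y) := by
    rw [← Set.range_comp]
    rfl
  rw [h1, ← MonoidHom.map_closure, FreeGroup.closure_range_of, ← MonoidHom.range_eq_map]
  ext g
  constructor
  · rintro ⟨w, rfl⟩
    exact (φ w).2
  · intro hg
    exact ⟨φ.symm ⟨g, hg⟩, by simp⟩

theorem V_basis {P : Subgroup (FreeGroup (Fin R))} {Y : Type} (φ : FreeGroup Y ≃* P) :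
    M.V (P : Set (FreeGroup (Fin R))) =
      Submodule.span D (Set.range fun y => M.δ ((φ (of y) : P) : FreeGroup (Fin R))) := by
  conv_lhs => rw [← closure_basis φ]
  rw [M.V_closure, V, ← Set.range_comp]
  rfl

/-- A closed subgroup is free of rank `finrank (V P)`. (`IsFreeGroup` of subgroups of free groups; the basis is
finite since `Fin R → D` is finite dimensional, and it spans `V P` by `V_closure`.) -/
theorem closed_basis {P : Subgroup (FreeGroup (Fin R))} (hP : M.Closed P) :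
    ∃ φ : FreeGroup (Fin (Module.finrank D (M.V (P : Set (FreeGroup (Fin R)))))) ≃* P,
      LinearIndependent D (fun y => M.δ ((φ (of y) : P) : FreeGroup (Fin R))) := by
  let φ0 : FreeGroup (IsFreeGroup.Generators P) ≃* P := (IsFreeGroup.toFreeGroup P).symm
  have hli := M.closed_indep hP φ0
  have : Finite (IsFreeGroup.Generators P) := hli.finite_of_isNoetherian
  have := Fintype.ofFinite (IsFreeGroup.Generators P)
  have hcard : Fintype.card (IsFreeGroup.Generators P) =
      Module.finrank D (M.V (P : Set (FreeGroup (Fin R)))) := by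
    rw [M.V_basis φ0, finrank_span_eq_card hli]
  let e : Fin (Module.finrank D (M.V (P : Set (FreeGroup (Fin R))))) ≃
      IsFreeGroup.Generators P := (Fintype.equivFinOfCardEq hcard).symm
  exact ⟨(FreeGroup.freeGroupCongr e).trans φ0, M.closed_indep hP _⟩

theorem closed_gen {P : Subgroup (FreeGroup (Fin R))} (hP : M.Closed P) :
    Gen (Module.finrank D (M.V (P : Set (FreeGroup (Fin R))))) P := by
  obtain ⟨φ, -⟩ := M.closed_basis hP
  exact ⟨_, closure_basis φ⟩

end MN

end Pool.Agent.Helper72.BH
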