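import Pool.Agent.Helper72.BH.Hol
import Pool.Agent.Helper72.BH.Euler
import Pool.Agent.Helper72.BH.Forest
import Pool.Agent.Helper72.BH.Act
import Pool.Agent.Helper79.HL.PeelF
import Pool.Agent.Helper58.HL.ClaimC

/-!
# Claim C (item (5) of note 2702)

`J` closed, `≠ ⊥`, `ρ = dim V J`; `B i` closed, `J ≤ B i`, filled by `J`, `dim V (B i) > ρ`, `V (B i)` independent modulo
`V J`. Then `|I| ≤ 6 ρ + 1`. Proof: `EG` finite with `Reach`, `Carry` for `J` (Carrier). `exists_quiet` with `hind` from
`forest_indep`, for the sets of the origins of the edges of `EG` with the label `x`, and for subsets of `I`, is the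
hypothesis of the peeling theorem; its rank condition is `euler_le`. So some `i` has `Peel`. Take `ED` for `B i` with
`Reach`, `Carry`, containing the image of `EG` (Carrier). `peel_card`, `euler_le` for `J` and `euler_ge`
for `B i` give `dim V (B i) ≤ ρ`.
-/

set_option autoImplicit false

namespace Pool.Agent.Helper72.BH

open FreeGroup (of)

theorem MN.claimC {R : ℕ} {D : Type} [DivisionRing D] (M : MN R D)
    {J : Subgroup (FreeGroup (Fin R))} (hJ : M.Closed J) (hne : J ≠ ⊥) {ι : Type}
    {B : ι → Subgroup (FreeGroup (Fin R))} {I : Finset ι} (hJB : ∀ i, J ≤ B i)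
    (hB : ∀ i ∈ I, M.Closed (B i)) (hI : M.Indep J B I) (hfill : ∀ i ∈ I, ∃ k, Filled k J (B i))
    (hlt : ∀ i ∈ I, Module.finrank D (M.V (J : Set (FreeGroup (Fin R)))) <
      Module.finrank D (M.V (B i : Set (FreeGroup (Fin R))))) :
    I.card ≤ 6 * Module.finrank D (M.V (J : Set (FreeGroup (Fin R)))) + 1 := by
  classical
  refine Pool.Agent.Helper58.HL.claimC_of M hJ hne hJB hB hI hfill hlt ?_
  intro EG hr hEG ρ hρ he hq h2
  exact Pool.Agent.Helper79.HL.peel_cosets hJB EG hr hEG ρ hρ he I
    (fun N hN => by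
      obtain ⟨v, hv, h⟩ := hq N hN
      exact ⟨v, hv, by convert h⟩) h2

end Pool.Agent.Helper72.BH
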