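import Pool.Agent.Helper22.OR.Max

/-!
# Filled subgroups

`Filled k H A`: `H ≤ A`, `A` has `k` generators, and there is no generating tuple of `A` of length `k` such that `H` is
contained in the subgroup generated by the first `k - 1` elements. If `A` is free this says that `A` has rank
`k` and that `H` is not contained in a proper free factor of `A`.
-/

set_option autoImplicit false

namespace Pool.Agent.Helper72.BH

open Pool.Agent.Helper22.OR (Gen)

variable {G : Type} [Group G]

/-- `A` has rank `k` and `H ≤ A` is contained in no proper free factor of `A` (for `A` free). -/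
def Filled (k : ℕ) (H A : Subgroup G) : Prop :=
  H ≤ A ∧ Gen k A ∧ ∀ (j : ℕ) (K : Subgroup G) (u : G), j + 1 = k → Gen j K →
    K ⊔ Subgroup.closure {u} = A → ¬ H ≤ K

/-- `A` has rank at most `N` and is filled by `H`. -/
def FilledLe (N : ℕ) (H A : Subgroup G) : Prop := ∃ k, k ≤ N ∧ Filled k H A

theorem FilledLe.mono {N N' : ℕ} (hN : N ≤ N') {H A : Subgroup G} (h : FilledLe N H A) :
    FilledLe N' H A := by
  obtain ⟨k, hk, h⟩ := h
  exact ⟨k, hk.trans hN, h⟩

theorem Filled.le {k : ℕ} {H A : Subgroup G} (h : Filled k H A) : H ≤ A := h.1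

theorem Filled.gen {k : ℕ} {H A : Subgroup G} (h : Filled k H A) : Gen k A := h.2.1

end Pool.Agent.Helper72.BH
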