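import Pool.Agent.Helper72.BH.FillDefs
import Pool.Agent.Helper22.OR.Finite
import Pool.Agent.Helper84.HL.DelTuple

/-!
# Filled subgroups and minimal graphs

`del_split`: let `Γ` be a minimal graph of `A` (rank parameter `k`), `e` an edge. Then `(delE Γ e).im f` is
contained in a `(k-1)`-generated subgroup `K` with `K ⊔ ⟨u⟩ = A`. First case: every vertex can be reached
in `delE Γ e`. Then `K = (delE Γ e).im f` (`del_gen`) and `u` is the value of a path through `e`. Otherwise: among the
edges `e'` with `comp f Γ e ≤ comp f Γ e'` (all vertices that can be reached from the base without `e` can be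
reached without `e'`) choose one for which the number of the vertices of `comp f Γ e'` is maximal. If some vertex is
not reached without `e'`, let `W` be the set of these vertices; some edge `e''` has an end in `W`
and is different from `e'` (each vertex of `W` has degree at least `2`, `two_le_deg`; see the proof of
`comp_rank`), and without `e''` one reaches more vertices (`e'` can be used now). So `e'` is of the first
case and `(delE Γ e).im f ≤ (delE Γ e').im f`.

`not_le_del`: so `H` is not contained in `(delE Γ e).im f` if `A` is filled by `H`.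

`finite_filled`: as `finite_over` (use `short_loop` etc. as in `card_E_le`): each edge of a minimal graph is used by one
of the closed walks of the generators of `H`.

`filled_letters`: `A ≤ FreeGroup (Fin n)` filled by `H`, and `H` is contained in the subgroup of the letters in
`S`; then so is `A`: take a minimal graph `Γ` for `A` with `f = FreeGroup.of`; it is folded (`Mini.folded`), the elements of
`H` are read as reduced words along walks (`walk_of_P`), they use only letters in `S`; by `not_le_del` each edge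
of `Γ` is used, so all labels are in `S`. (If some lemma needs `Hyp` or `k + 1 ≤ n`, use `hyp_free` and embed
`FreeGroup (Fin n)` in `FreeGroup (Fin n')`; or first prove it for `n` large.)
-/

set_option autoImplicit false

namespace Pool.Agent.Helper72.BH

open Pool.Agent.Helper22.OR Pool.Agent.Helper22.OR.Gr

variable {n : ℕ} {G : Type} [Group G]

theorem del_split {f : Fin n → G} {A : Subgroup G} {k : ℕ} {Γ : Gr (Fin n)} (h : Γ.Mini f A k)
    (e : Γ.E) : ∃ (K : Subgroup G) (u : G), Gen (k - 1) K ∧ (delE Γ e).im f ≤ K ∧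
      K ⊔ Subgroup.closure {u} = A :=
  Pool.Agent.Helper84.HL.del_split h e

theorem not_le_del {f : Fin n → G} {H A : Subgroup G} {k : ℕ} {Γ : Gr (Fin n)}
    (h : Γ.Mini f A k) (hA : Filled k H A) (e : Γ.E) : ¬ H ≤ (delE Γ e).im f :=
  Pool.Agent.Helper84.HL.not_le_del h hA e

/-- As `card_E_le`: each edge is used by one of the walks of the elements of `S0`. -/
theorem card_E_le' {f : Fin n → G} {L e s b : ℕ} {RR : Set (List (Letter n))}
    (hy : Hyp f L e s b RR) {k : ℕ} (hk : k + 1 ≤ n) {K : Subgroup G} {Γ : Gr (Fin n)}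
    (h : Γ.Mini f K k) (S0 : Finset (FreeGroup (Fin n)))
    (hS : Subgroup.closure (FreeGroup.lift f '' (S0 : Set (FreeGroup (Fin n)))) ≤ K)
    (hdel : ∀ e : Γ.E, ¬ Subgroup.closure (FreeGroup.lift f '' (S0 : Set (FreeGroup (Fin n)))) ≤
        (delE Γ e).im f) :
    Fintype.card Γ.E ≤ ∑ w ∈ S0, L * w.norm := by
  classical
  have h1 : ∀ w : FreeGroup (Fin n), w ∈ S0 → ∃ l : List Γ.D, walk Γ Γ.base l Γ.base ∧
      wv f (l.map Γ.lt) = FreeGroup.lift f w ∧ l.length ≤ L * w.norm := by
    intro w hw
    have h2 : FreeGroup.lift f w ∈ K :=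
      hS (Subgroup.subset_closure ⟨w, hw, rfl⟩)
    obtain ⟨w1, h3, h4, h5⟩ := short_loop hy h hk w h2
    obtain ⟨l, h6, h7⟩ := walk_of_P h.folded h3
    refine ⟨l, h6, ?_, ?_⟩
    · rw [h7, ← lift_eq_wv, h4]
    · have h8 : l.length = w1.norm := by
        rw [← List.length_map (f := Γ.lt), h7]; rfl
      omega
  choose! F hF1 hF2 hF3 using h1
  have h2 : ∀ e : Γ.E, e ∈ S0.biUnion (fun w => ((F w).map Prod.fst).toFinset) := by
    by_contra h3
    push Not at h3
    obtain ⟨e0, he0⟩ := h3
    have h4 : ∀ w ∈ S0, ∀ d ∈ F w, d.1 ≠ e0 := by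
      intro w hw d hd h5
      refine he0 (Finset.mem_biUnion.mpr ⟨w, hw, ?_⟩)
      rw [List.mem_toFinset, List.mem_map]
      exact ⟨d, hd, h5⟩
    refine hdel e0 ?_
    rw [Subgroup.closure_le]
    rintro _ ⟨w, hw, rfl⟩
    have h5 := P_delE (f := f) e0 (hF1 w hw) (h4 w hw)
    rw [hF2 w hw] at h5
    exact h5
  calc Fintype.card Γ.E = (Finset.univ : Finset Γ.E).card := rfl
    _ ≤ (S0.biUnion (fun w => ((F w).map Prod.fst).toFinset)).card :=
        Finset.card_le_card (fun e _ => h2 e)
    _ ≤ ∑ w ∈ S0, (((F w).map Prod.fst).toFinset).card := Finset.card_biUnion_le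
    _ ≤ ∑ w ∈ S0, L * w.norm := by
        refine Finset.sum_le_sum (fun w hw => ?_)
        refine le_trans (List.toFinset_card_le _) ?_
        rw [List.length_map]
        exact hF3 w hw

theorem finite_filled {f : Fin n → G} {L e s b : ℕ} {RR : Set (List (Letter n))}
    (hy : Hyp f L e s b RR) {N : ℕ} (hN : N + 1 ≤ n) (H : Subgroup G) (hH : H.FG) :
    {A : Subgroup G | FilledLe N H A}.Finite := by
  classical
  obtain ⟨S, hS⟩ := hH
  choose r hr using hy.surj
  have h1 : FreeGroup.lift f '' ((S.image r : Finset (FreeGroup (Fin n))) :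
      Set (FreeGroup (Fin n))) = (S : Set G) := by
    rw [Finset.coe_image, ← Set.image_comp]
    have h2 : (FreeGroup.lift f : FreeGroup (Fin n) → G) ∘ r = id := funext hr
    rw [h2, Set.image_id]
  have h2 : Subgroup.closure (FreeGroup.lift f '' ((S.image r : Finset (FreeGroup (Fin n))) :
      Set (FreeGroup (Fin n)))) = H := by rw [h1, hS]
  refine (finite_im f (2 * (∑ w ∈ S.image r, L * w.norm) + 1)
    (∑ w ∈ S.image r, L * w.norm)).subset ?_
  rintro K ⟨k, hkN, hK⟩
  obtain ⟨g, hg⟩ := hK.gen
  obtain ⟨Γ0, h4⟩ := exists_good f hy.surj g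
  rw [hg] at h4
  obtain ⟨Γ, h5⟩ := exists_mini ⟨Γ0, h4⟩
  have h6 := card_E_le' hy (by omega) h5 (S.image r) (by rw [h2]; exact hK.le)
    (fun e => by rw [h2]; exact not_le_del h5 hK e)
  have h7 := card_V_le h5
  exact ⟨Γ, by omega, h6, h5.good.im_eq⟩

/-- The letters of an element of the subgroup generated by the letters in `S`. -/
theorem letters_mem {S : Set (Fin n)} {x : FreeGroup (Fin n)}
    (hx : x ∈ Subgroup.closure (FreeGroup.of '' S)) : ∀ a ∈ x.toWord, a.1 ∈ S := by
  induction hx using Subgroup.closure_induction with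
  | mem x h =>
    obtain ⟨i, hi, rfl⟩ := h
    intro a ha
    rw [FreeGroup.toWord_of, List.mem_singleton] at ha
    rw [ha]
    exact hi
  | one =>
    intro a ha
    rw [FreeGroup.toWord_one] at ha
    exact absurd ha (List.not_mem_nil)
  | mul x y _ _ hx hy =>
    intro a ha
    have h1 := (FreeGroup.toWord_mul_sublist x y).subset ha
    rcases List.mem_append.1 h1 with h2 | h2
    · exact hx a h2
    · exact hy a h2
  | inv x _ hx =>
    intro a ha
    rw [FreeGroup.toWord_inv, FreeGroup.invRev, List.mem_reverse, List.mem_map] at ha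
    obtain ⟨b, hb, rfl⟩ := ha
    exact hx b hb

theorem filled_letters {n k : ℕ} {H A : Subgroup (FreeGroup (Fin n))} (h : Filled k H A)
    (S : Set (Fin n)) (hS : H ≤ Subgroup.closure (FreeGroup.of '' S)) :
    A ≤ Subgroup.closure (FreeGroup.of '' S) := by
  classical
  obtain ⟨g, hg⟩ := h.gen
  have hsurj : Function.Surjective
      (FreeGroup.lift (FreeGroup.of : Fin n → FreeGroup (Fin n))) := by
    intro x
    exact ⟨x, by rw [FreeGroup.lift_of_eq_id]; rfl⟩
  obtain ⟨Γ0, h4⟩ := exists_good (FreeGroup.of : Fin n → FreeGroup (Fin n)) hsurj g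
  rw [hg] at h4
  obtain ⟨Γ, h5⟩ := exists_mini ⟨Γ0, h4⟩
  have hlab : ∀ e : Γ.E, Γ.lab e ∈ S := by
    intro e
    by_contra he
    refine not_le_del h5 h e ?_
    intro x hx
    have h6 : x ∈ Γ.im FreeGroup.of := by
      rw [h5.good.im_eq]
      exact h.le hx
    obtain ⟨l, h7, h8⟩ := walk_of_P h5.folded (mem_im.1 h6)
    have h9 : ∀ d ∈ l, d.1 ≠ e := by
      intro d hd hde
      apply he
      have h10 : Γ.lt d ∈ x.toWord := by
        rw [← h8]
        exact List.mem_map_of_mem hd
      have h11 := letters_mem (hS hx) _ h10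
      rw [← hde]
      exact h11
    have h12 := P_delE (f := FreeGroup.of) e h7 h9
    rw [h8, ← lift_eq_wv, FreeGroup.lift_of_eq_id] at h12
    exact h12
  rw [← h5.good.im_eq]
  intro x hx
  have key : ∀ {u v : Γ.V} {g : FreeGroup (Fin n)}, Γ.P FreeGroup.of u v g →
      g ∈ Subgroup.closure (FreeGroup.of '' S) := by
    intro u v g hP
    induction hP with
    | refl v => exact one_mem _
    | fwd e _ ih => exact mul_mem (Subgroup.subset_closure ⟨_, hlab e, rfl⟩) ih
    | bwd e _ ih => exact mul_mem (inv_mem (Subgroup.subset_closure ⟨_, hlab e, rfl⟩)) ih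
  exact key (mem_im.1 hx)

end Pool.Agent.Helper72.BH
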