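import Pool.Agent.Helper72.BH.FillE
import Pool.Agent.Helper22.OR.Hopf
import Pool.Agent.Helper72.BH.Chain

/-!
# Calculus of filled subgroups

All groups here are free of finite rank. `filled_letters` is the main tool.

`filled_map`: injective homomorphisms preserve and reflect `Filled`.

`filled_basis`: `φ : FreeGroup (Fin m) →* G` injective, `A ≤ φ.range` filled by `H ≤ φ (letters in S)`; then
`A ≤ φ (letters in S)`: pull back by `φ`.

`exists_factor`: let `A` be free of rank `m`, `H ≤ A`. Then there are a basis `a, b` of `A` such that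
`closure a` is filled by `H` (choose `j` minimal with `H ≤ closure a`; a generating
tuple of a free group of length equal to the rank is a basis by `hopfian`.)

`filled_trans`: `H ≤ K ≤ A`, `K` filled by `H`, `A` filled by `K`; then `A` is filled by `H`. If not, there is `K'` with
`m - 1` generators and `K' ⊔ ⟨u⟩ = A`, `H ≤ K'`; these generators and `u` are a basis of `A`; so `K ≤ K'` by
`filled_basis`, against `Filled m K A`.

`filled_join`: `A i` filled by `H` (`i ∈ I`), all in a free group of finite rank; then every subgroup `J ≥ H` generated by `J₀` and the `A i`, where `H ≤ J₀`,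
is filled by `J₀` (with `k` the rank of `J`).

`filled_cl`: `cl K` is filled by `K`: the rank of `cl K` is `dim V K` (`closed_gen`), and a subgroup `K'` with
`dim V K - 1` generators that contains `K` has `dim V K' < dim V K`.
-/

set_option autoImplicit false

namespace Pool.Agent.Helper72.BH

open FreeGroup (of)
open Pool.Agent.Helper22.OR (Gen)

variable {G G' : Type} [Group G] [Group G']

/-! ### generators -/

theorem gen_map {k : ℕ} {A : Subgroup G} (φ : G →* G') (h : Gen k A) : Gen k (A.map φ) := by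
  obtain ⟨g, rfl⟩ := h
  refine ⟨fun i => φ (g i), ?_⟩
  rw [MonoidHom.map_closure, ← Set.range_comp]
  rfl

/-- Generators of the image of `A` can be lifted to `A`. -/
theorem gen_lift {k : ℕ} {A : Subgroup G} {K' : Subgroup G'} (φ : G →* G') (h : Gen k K')
    (hK : K' ≤ A.map φ) : ∃ K : Subgroup G, Gen k K ∧ K ≤ A ∧ K.map φ = K' := by
  obtain ⟨g', rfl⟩ := h
  have h1 : ∀ i, ∃ x, x ∈ A ∧ φ x = g' i := fun i => hK (Subgroup.subset_closure ⟨i, rfl⟩)
  choose g hg hg' using h1
  refine ⟨Subgroup.closure (Set.range g), ⟨g, rfl⟩, ?_, ?_⟩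
  · rw [Subgroup.closure_le]
    rintro _ ⟨i, rfl⟩
    exact hg i
  · rw [MonoidHom.map_closure, ← Set.range_comp]
    congr 1
    ext x
    simp only [Set.mem_range, Function.comp_apply, hg']

theorem map_closure_singleton (φ : G →* G') (u : G) :
    (Subgroup.closure {u}).map φ = Subgroup.closure {φ u} := by
  rw [MonoidHom.map_closure, Set.image_singleton]

theorem filled_map {k : ℕ} {H A : Subgroup G} (φ : G →* G')
    (hφ : ∀ x ∈ A, φ x = 1 → x = 1) (h : Filled k H A) : Filled k (H.map φ) (A.map φ) := by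
  obtain ⟨h1, h2, h3⟩ := h
  have hinj : ∀ x ∈ A, ∀ y ∈ A, φ x = φ y → x = y := by
    intro x hx y hy hxy
    have h4 := hφ (x * y⁻¹) (A.mul_mem hx (A.inv_mem hy)) (by
      rw [map_mul, map_inv, hxy, mul_inv_cancel])
    exact mul_inv_eq_one.1 h4
  have hle : ∀ K L : Subgroup G, K ≤ A → L ≤ A → K.map φ ≤ L.map φ → K ≤ L := by
    intro K L hK hL hKL x hx
    obtain ⟨y, hy, hxy⟩ := hKL ⟨x, hx, rfl⟩
    rw [← hinj y (hL hy) x (hK hx) hxy]
    exact hy
  refine ⟨Subgroup.map_mono h1, gen_map φ h2, ?_⟩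
  intro j K' u' hj hK' hKu hH
  obtain ⟨K, hK1, hK2, hK3⟩ := gen_lift (A := A) φ hK' (by rw [← hKu]; exact le_sup_left)
  obtain ⟨u, hu, rfl⟩ : u' ∈ A.map φ := by
    rw [← hKu]
    exact Subgroup.mem_sup_right (Subgroup.subset_closure rfl)
  have hu1 : Subgroup.closure {u} ≤ A := by
    rw [Subgroup.closure_le]
    rintro _ rfl
    exact hu
  have e : K ⊔ Subgroup.closure {u} = A := by
    apply le_antisymm (sup_le hK2 hu1)
    apply hle _ _ le_rfl (sup_le hK2 hu1)
    rw [Subgroup.map_sup, hK3, map_closure_singleton, hKu]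
  refine h3 j K u hj hK1 e (hle _ _ h1 hK2 ?_)
  rw [hK3]
  exact hH

theorem filled_comap {k : ℕ} {H A : Subgroup G'} (φ : G →* G') (hφ : Function.Injective φ)
    (hA : A ≤ φ.range) (h : Filled k H A) : Filled k (H.comap φ) (A.comap φ) := by
  obtain ⟨h1, h2, h3⟩ := h
  have hm : ∀ K : Subgroup G', K ≤ A → (K.comap φ).map φ = K := by
    intro K hK
    rw [Subgroup.map_comap_eq, inf_eq_right]
    exact hK.trans hA
  refine ⟨Subgroup.comap_mono h1, ?_, ?_⟩
  · obtain ⟨K, hK1, hK2, hK3⟩ := gen_lift (A := A.comap φ) φ h2 (by rw [hm A le_rfl])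
    have : K = A.comap φ := by
      rw [← hK3, Subgroup.comap_map_eq_self_of_injective hφ]
    rw [← this]
    exact hK1
  · intro j K u hj hK hKu hH
    refine h3 j (K.map φ) (φ u) hj (gen_map φ hK) ?_ ?_
    · rw [← map_closure_singleton, ← Subgroup.map_sup, hKu, hm A le_rfl]
    · rw [← hm H h1]
      exact Subgroup.map_mono hH

theorem filled_basis {m k : ℕ} (φ : FreeGroup (Fin m) →* G) (hφ : Function.Injective φ)
    {H A : Subgroup G} (h : Filled k H A) (hA : A ≤ φ.range) (S : Set (Fin m))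
    (hS : H ≤ Subgroup.closure ((fun i => φ (of i)) '' S)) :
    A ≤ Subgroup.closure ((fun i => φ (of i)) '' S) := by
  have e : Subgroup.closure ((fun i => φ (of i)) '' S) =
      (Subgroup.closure (of '' S)).map φ := by
    rw [MonoidHom.map_closure, Set.image_image]
  rw [e] at hS ⊢
  have h1 := filled_letters (filled_comap φ hφ hA h) S (by
    rw [← Subgroup.comap_map_eq_self_of_injective hφ (Subgroup.closure (of '' S))]
    exact Subgroup.comap_mono hS)
  have h2 : (A.comap φ).map φ = A := by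
    rw [Subgroup.map_comap_eq, inf_eq_right]
    exact hA
  rw [← h2]
  exact Subgroup.map_mono h1

/-- A generating tuple of a free group of rank `m` of length `m` is a basis. -/
theorem basis_of_gen {m : ℕ} {A : Subgroup G} (φ : FreeGroup (Fin m) ≃* A) (a : Fin m → G)
    (ha : Subgroup.closure (Set.range a) = A) : Function.Injective (FreeGroup.lift a) := by
  have hmem : ∀ w, FreeGroup.lift a w ∈ A := by
    intro w
    rw [← ha, ← FreeGroup.range_lift_eq_closure]
    exact ⟨w, rfl⟩
  let ψ : FreeGroup (Fin m) →* A := (FreeGroup.lift a).codRestrict A hmem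
  have hψ : Function.Surjective ψ := by
    rintro ⟨x, hx⟩
    rw [← ha, ← FreeGroup.range_lift_eq_closure] at hx
    obtain ⟨w, rfl⟩ := hx
    exact ⟨w, rfl⟩
  have h1 : Function.Injective (φ.symm.toMonoidHom.comp ψ) :=
    Pool.Agent.Helper22.OR.hopfian _ (φ.symm.surjective.comp hψ)
  intro x y hxy
  apply h1
  change φ.symm (ψ x) = φ.symm (ψ y)
  congr 1
  exact Subtype.ext hxy

/-- The rank of a free group is the smallest number of generators. -/
theorem rank_le_of_gen {m k : ℕ} {A : Subgroup G} (φ : FreeGroup (Fin m) ≃* A) (h : Gen k A) :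
    m ≤ k := by
  obtain ⟨g, hg⟩ := h
  have hmem : ∀ i, g i ∈ A := by
    intro i
    rw [← hg]
    exact Subgroup.subset_closure ⟨i, rfl⟩
  have h1 : Subgroup.closure (Set.range (fun i => (⟨g i, hmem i⟩ : A))) = ⊤ := by
    rw [eq_top_iff]
    rintro ⟨x, hx⟩ -
    have h2 : (Subgroup.closure (Set.range (fun i => (⟨g i, hmem i⟩ : A)))).map A.subtype = A := by
      rw [MonoidHom.map_closure, ← Set.range_comp]
      exact hg
    rw [← h2] at hx
    obtain ⟨y, hy, hxy⟩ := hx
    have : y = ⟨A.subtype y, y.2⟩ := rfl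
    have e : (⟨x, by rw [← hxy]; exact y.2⟩ : A) = y := Subtype.ext hxy.symm
    rw [e]
    exact hy
  have h2 := (Pool.Agent.Helper22.OR.card_le_of_gen φ _ h1).2
  simpa using h2

theorem gen_of_equiv {m : ℕ} {A : Subgroup G} (φ : FreeGroup (Fin m) ≃* A) :
    Subgroup.closure (Set.range (fun i => ((φ (of i) : A) : G))) = A := by
  have h1 : Subgroup.closure (Set.range (of : Fin m → FreeGroup (Fin m))) = ⊤ :=
    FreeGroup.closure_range_of _
  have h2 : (⊤ : Subgroup (FreeGroup (Fin m))).map (A.subtype.comp φ.toMonoidHom) = A := by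
    ext x
    constructor
    · rintro ⟨w, -, rfl⟩
      exact (φ w).2
    · intro hx
      exact ⟨φ.symm ⟨x, hx⟩, trivial, by simp⟩
  rw [← h1, MonoidHom.map_closure, ← Set.range_comp] at h2
  exact h2

theorem gen_equiv {m : ℕ} {A : Subgroup G} (φ : FreeGroup (Fin m) ≃* A) : Gen m A :=
  ⟨_, gen_of_equiv φ⟩

/-- If `A` is filled by `H` then the parameter is the rank of `A`. -/
theorem Filled.rank_eq {m k : ℕ} {H A : Subgroup G} (φ : FreeGroup (Fin m) ≃* A)
    (h : Filled k H A) : k = m := by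
  apply le_antisymm _ (rank_le_of_gen φ h.gen)
  by_contra hlt
  push Not at hlt
  refine h.2.2 (k - 1) A 1 (by omega) ((gen_equiv φ).mono (by omega)) ?_ h.1
  rw [Subgroup.closure_singleton_one, sup_bot_eq]

/-- The basis of `A` given by the generators of `K'` and `u`. -/
theorem basis_snoc {m j : ℕ} {A K' : Subgroup G} (φ : FreeGroup (Fin m) ≃* A) (hj : j + 1 = m)
    (hK : Gen j K') {u : G} (hKu : K' ⊔ Subgroup.closure {u} = A) :
    ∃ (ψ : FreeGroup (Fin m) →* G) (S : Set (Fin m)), Function.Injective ψ ∧ ψ.range = A ∧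
      Subgroup.closure ((fun i => ψ (of i)) '' S) = K' := by
  subst hj
  obtain ⟨g, rfl⟩ := hK
  let a : Fin (j + 1) → G := Fin.snoc g u
  have ha : Subgroup.closure (Set.range a) = A := by
    rw [← hKu, ← Subgroup.closure_union]
    congr 1
    ext x
    constructor
    · rintro ⟨i, rfl⟩
      refine Fin.lastCases ?_ (fun i => ?_) i
      · right
        simp [a]
      · left
        exact ⟨i, by simp [a]⟩
    · rintro (⟨i, rfl⟩ | hx)
      · exact ⟨i.castSucc, by simp [a]⟩
      · refine ⟨Fin.last j, ?_⟩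
        rw [Set.mem_singleton_iff] at hx
        rw [hx]
        simp [a]
  refine ⟨FreeGroup.lift a, Set.range Fin.castSucc, basis_of_gen φ a ha, ?_, ?_⟩
  · rw [FreeGroup.range_lift_eq_closure, ha]
  · congr 1
    ext x
    constructor
    · rintro ⟨_, ⟨i, rfl⟩, rfl⟩
      exact ⟨i, by simp [a]⟩
    · rintro ⟨i, rfl⟩
      exact ⟨i.castSucc, ⟨i, rfl⟩, by simp [a]⟩

/-- The smallest free factor of `A` which contains `H`. -/
theorem exists_factor {m : ℕ} {H A : Subgroup G} (φ : FreeGroup (Fin m) ≃* A) (hH : H ≤ A) :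
    ∃ (j q : ℕ) (a : Fin j → G) (b : Fin q → G), j + q = m ∧
      Subgroup.closure (Set.range a) ⊔ Subgroup.closure (Set.range b) = A ∧
      Function.Injective (FreeGroup.lift (Fin.append a b)) ∧
      Filled j H (Subgroup.closure (Set.range a)) := by
  classical
  have hex : ∃ j, ∃ (q : ℕ) (a : Fin j → G) (b : Fin q → G), j + q = m ∧
      Subgroup.closure (Set.range a) ⊔ Subgroup.closure (Set.range b) = A ∧
      H ≤ Subgroup.closure (Set.range a) := by
    refine ⟨m, 0, fun i => ((φ (of i) : A) : G), Fin.elim0, by omega, ?_, ?_⟩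
    · rw [gen_of_equiv φ, Set.range_eq_empty, Subgroup.closure_empty, sup_bot_eq]
    · rw [gen_of_equiv φ]
      exact hH
  obtain ⟨j, ⟨q, a, b, hjq, hab, hHa⟩, hmin⟩ : ∃ j, (∃ (q : ℕ) (a : Fin j → G) (b : Fin q → G),
      j + q = m ∧ Subgroup.closure (Set.range a) ⊔ Subgroup.closure (Set.range b) = A ∧
      H ≤ Subgroup.closure (Set.range a)) ∧ ∀ j' < j, ¬ ∃ (q : ℕ) (a : Fin j' → G)
      (b : Fin q → G), j' + q = m ∧
      Subgroup.closure (Set.range a) ⊔ Subgroup.closure (Set.range b) = A ∧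
      H ≤ Subgroup.closure (Set.range a) :=
    ⟨Nat.find hex, Nat.find_spec hex, fun j' hj' => Nat.find_min hex hj'⟩
  refine ⟨j, q, a, b, hjq, hab, ?_, hHa, ⟨a, rfl⟩, ?_⟩
  · subst hjq
    apply basis_of_gen φ
    rw [← hab, ← Subgroup.closure_union]
    congr 1
    ext x
    constructor
    · rintro ⟨i, rfl⟩
      refine Fin.addCases (fun i => ?_) (fun i => ?_) i
      · left
        exact ⟨i, by simp⟩
      · right
        exact ⟨i, by simp⟩
    · rintro (⟨i, rfl⟩ | ⟨i, rfl⟩)
      · exact ⟨Fin.castAdd q i, by simp⟩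
      · exact ⟨Fin.natAdd j i, by simp⟩
  · intro j' K u hj' hK hKu hHK
    obtain ⟨g, rfl⟩ := hK
    refine hmin j' (by omega) ⟨q + 1, g, Fin.cons u b, by omega, ?_, hHK⟩
    rw [Fin.range_cons, Set.insert_eq, Subgroup.closure_union, ← sup_assoc, hKu, hab]

theorem filled_trans {m k l : ℕ} {H K A : Subgroup G} (φ : FreeGroup (Fin m) ≃* A)
    (h1 : Filled k H K) (h2 : Filled l K A) : Filled l H A := by
  obtain rfl := h2.rank_eq φ
  refine ⟨h1.le.trans h2.le, h2.gen, ?_⟩
  intro j K' u hj hK' hKu hH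
  obtain ⟨ψ, S, hψ, hr, hS⟩ := basis_snoc φ hj hK' hKu
  refine h2.2.2 j K' u hj hK' hKu ?_
  rw [← hS] at hH ⊢
  exact filled_basis ψ hψ h1 (by rw [hr]; exact h2.le) S hH

/-- `J` is filled by `J₀` if it is generated by `J₀` and by subgroups filled by subgroups of `J₀`. -/
theorem filled_join {m : ℕ} {J₀ J : Subgroup G} (φ : FreeGroup (Fin m) ≃* J) {ι : Type}
    (A : ι → Subgroup G) (H : ι → Subgroup G) (hH : ∀ i, H i ≤ J₀)
    (hA : ∀ i, ∃ k, Filled k (H i) (A i)) (hJ : J₀ ⊔ ⨆ i, A i = J) : Filled m J₀ J := by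
  refine ⟨by rw [← hJ]; exact le_sup_left, gen_equiv φ, ?_⟩
  intro j K' u hj hK' hKu hJK
  obtain ⟨ψ, S, hψ, hr, hS⟩ := basis_snoc φ hj hK' hKu
  have h1 : ∀ i, A i ≤ K' := by
    intro i
    obtain ⟨k, hk⟩ := hA i
    rw [← hS]
    refine filled_basis ψ hψ hk ?_ S ?_
    · rw [hr, ← hJ]
      exact (le_iSup A i).trans le_sup_right
    · rw [hS]
      exact (hH i).trans hJK
  have h2 : K' = J := by
    apply le_antisymm
    · rw [← hKu]
      exact le_sup_left
    · rw [← hJ]
      exact sup_le hJK (iSup_le h1)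
  have h3 := rank_le_of_gen φ (h2 ▸ hK')
  omega

theorem filled_self {m : ℕ} {A : Subgroup G} (φ : FreeGroup (Fin m) ≃* A) : Filled m A A := by
  refine ⟨le_rfl, gen_equiv φ, ?_⟩
  intro j K' u hj hK' hKu hA
  have h2 : K' = A := by
    apply le_antisymm _ hA
    rw [← hKu]
    exact le_sup_left
  have h3 := rank_le_of_gen φ (h2 ▸ hK')
  omega

theorem MN.filled_cl {R : ℕ} {D : Type} [DivisionRing D] (M : MN R D)
    (K : Subgroup (FreeGroup (Fin R))) :
    Filled (Module.finrank D (M.V (K : Set (FreeGroup (Fin R))))) K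
      (M.cl (K : Set (FreeGroup (Fin R)))) := by
  refine ⟨M.le_cl K, ?_, ?_⟩
  · have h := M.closed_gen (M.closed_cl (K : Set (FreeGroup (Fin R))))
    rwa [M.V_cl] at h
  · intro j K' u hj hK' _ hK
    have h1 := M.finrank_V_le hK'
    have h2 : Module.finrank D (M.V (K : Set (FreeGroup (Fin R)))) ≤
        Module.finrank D (M.V (K' : Set (FreeGroup (Fin R)))) :=
      Submodule.finrank_mono (M.V_mono hK)
    omega

end Pool.Agent.Helper72.BH
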