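import Pool.Agent.Helper72.BH.GameFin
import Pool.Agent.Helper32.OR.Rk7
import Pool.Agent.Helper79.HL.TameHyp

/-!
# The theorem

`tame_free`, `aas_tame`: `free_rank`, `finite_filled` and the generic elements (helper55).
-/

set_option autoImplicit false

namespace Pool.Agent.Helper72.BH

open FirstOrder Filter Topology
open Pool.Agent.Helper32.OR (grpLang AAS prob OneRel qr Eqv)

theorem tame_free (K m : ℕ) (h : K + 1 ≤ m) : Tame (FreeGroup (Fin m)) K :=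
  Pool.Agent.Helper79.HL.tame_free K m h

theorem aas_tame (K n : ℕ) (h : K + 1 ≤ n) : AAS n (fun r => Tame (OneRel r) K) :=
  Pool.Agent.Helper79.HL.aas_tame K n h

theorem eqv_any {G H : Type} [Group G] [Group H] (q : ℕ) {x x' : Fin 0 → G} {y y' : Fin 0 → H}
    (h : Eqv G H q 0 x y) : Eqv G H q 0 x' y' := by
  have e1 : x' = x := Subsingleton.elim _ _
  have e2 : y' = y := Subsingleton.elim _ _
  rw [e1, e2]
  exact h

theorem all_ranks (q : ℕ) : ∃ N : ℕ, ∀ n, N ≤ n → AAS n (fun r => ∀ m, N ≤ m →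
    ∀ φ : grpLang.Sentence, qr φ ≤ q → (OneRel r ⊨ φ ↔ FreeGroup (Fin m) ⊨ φ)) := by
  obtain ⟨K, hK⟩ := game q
  refine ⟨K + 1, fun n hn => ?_⟩
  refine Pool.Agent.Helper32.OR.aas_mono (aas_tame K n hn) ?_
  intro r hr m hm φ hφ
  refine Pool.Agent.Helper32.OR.sentence_iff_of_eqv q ?_ φ hφ
  exact eqv_any q (hK _ _ hr (tame_free K m hm))

theorem free_all_ranks (q : ℕ) : ∃ N : ℕ, ∀ m, N ≤ m → ∀ m', N ≤ m' →
    ∀ φ : grpLang.Sentence, qr φ ≤ q → (FreeGroup (Fin m) ⊨ φ ↔ FreeGroup (Fin m') ⊨ φ) := by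
  obtain ⟨K, hK⟩ := game q
  refine ⟨K + 1, fun m hm m' hm' φ hφ => ?_⟩
  refine Pool.Agent.Helper32.OR.sentence_iff_of_eqv q ?_ φ hφ
  exact eqv_any q (hK _ _ (tame_free K m hm) (tame_free K m' hm'))

theorem all_ranks_limits (q : ℕ) : ∃ N : ℕ, ∀ n, N ≤ n → ∀ m, N ≤ m →
    ∀ φ : grpLang.Sentence, qr φ ≤ q →
    (FreeGroup (Fin m) ⊨ φ → Tendsto (fun t => prob n t φ) atTop (𝓝 1)) ∧
    (¬ (FreeGroup (Fin m) ⊨ φ) → Tendsto (fun t => prob n t φ) atTop (𝓝 0)) := by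
  obtain ⟨N, hN⟩ := all_ranks q
  refine ⟨N, fun n hn m hm φ hφ => ⟨fun h => ?_, fun h => ?_⟩⟩
  · exact Pool.Agent.Helper32.OR.aas_mono (hN n hn) (fun r hr => (hr m hm φ hφ).2 h)
  · exact Pool.Agent.Helper32.OR.aas_not
      (Pool.Agent.Helper32.OR.aas_mono (hN n hn) (fun r hr h' => h ((hr m hm φ hφ).1 h')))

end Pool.Agent.Helper72.BH
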