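import Pool.Agent.Helper72.BH.MNDefs
import Pool.Agent.Helper22.OR.Max

/-!
# The crossed homomorphism `δ`, the spaces `V A` and the closure

`δ (g * h) = δ g + u g • δ h`, `δ x` is the standard basis vector. `V A` is the span of `δ '' A`.
`cl A` is the subgroup of all `g` with `δ g ∈ V A`.
-/

set_option autoImplicit false

namespace Pool.Agent.Helper72.BH

open FreeGroup (of)
open Pool.Agent.Helper22.OR (Gen)

namespace MN

variable {R : ℕ} {D : Type} [DivisionRing D] (M : MN R D)

/-- The crossed homomorphism with `δ x` equal to the basis vector. -/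
noncomputable def δ (g : FreeGroup (Fin R)) : Fin R → D :=
  awalk (fun g x => M.u g • (Pi.single x 1 : Fin R → D)) g

@[simp] theorem δ_one : M.δ 1 = 0 := awalk_one _

theorem δ_mul_of (g : FreeGroup (Fin R)) (x : Fin R) :
    M.δ (g * of x) = M.δ g + M.u g • (Pi.single x 1 : Fin R → D) := awalk_of _ g x

theorem δ_of (x : Fin R) : M.δ (of x) = Pi.single x 1 := by
  have h := M.δ_mul_of 1 x
  simpa using h

theorem δ_mul (g h : FreeGroup (Fin R)) : M.δ (g * h) = M.δ g + M.u g • M.δ h := by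
  revert h
  refine awalk_unique (F1 := fun h => M.δ (g * h)) (F2 := fun h => M.δ g + M.u g • M.δ h)
    (fun h x => M.u (g * h) • (Pi.single x 1 : Fin R → D)) ?_ ?_ ?_
  · simp
  · intro h x
    rw [← mul_assoc, M.δ_mul_of]
  · intro h x
    rw [M.δ_mul_of, smul_add, add_assoc, map_mul, mul_smul]

theorem δ_inv (g : FreeGroup (Fin R)) : M.δ g⁻¹ = -(M.u g⁻¹ • M.δ g) := by
  have h := M.δ_mul g⁻¹ g
  rw [inv_mul_cancel, M.δ_one] at h
  exact eq_neg_of_add_eq_zero_left h.symm

/-- The span of `δ '' A`. -/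
def V (A : Set (FreeGroup (Fin R))) : Submodule D (Fin R → D) := Submodule.span D (M.δ '' A)

theorem δ_mem_V {A : Set (FreeGroup (Fin R))} {g : FreeGroup (Fin R)} (h : g ∈ A) :
    M.δ g ∈ M.V A := Submodule.subset_span ⟨g, h, rfl⟩

theorem V_mono {A B : Set (FreeGroup (Fin R))} (h : A ⊆ B) : M.V A ≤ M.V B :=
  Submodule.span_mono (Set.image_mono h)

/-- The closure of a set: all elements `g` with `δ g ∈ V A`. -/
def cl (A : Set (FreeGroup (Fin R))) : Subgroup (FreeGroup (Fin R)) where
  carrier := {g | M.δ g ∈ M.V A}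
  mul_mem' := by
    intro g h hg hh
    change M.δ (g * h) ∈ M.V A
    rw [M.δ_mul]
    exact Submodule.add_mem _ hg (Submodule.smul_mem _ _ hh)
  one_mem' := by
    change M.δ 1 ∈ M.V A
    rw [M.δ_one]
    exact Submodule.zero_mem _
  inv_mem' := by
    intro g hg
    change M.δ g⁻¹ ∈ M.V A
    rw [M.δ_inv]
    exact Submodule.neg_mem _ (Submodule.smul_mem _ _ hg)

theorem mem_cl {A : Set (FreeGroup (Fin R))} {g : FreeGroup (Fin R)} :
    g ∈ M.cl A ↔ M.δ g ∈ M.V A := Iff.rfl

theorem subset_cl (A : Set (FreeGroup (Fin R))) : A ⊆ M.cl A := fun _ h => M.δ_mem_V h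

theorem le_cl (A : Subgroup (FreeGroup (Fin R))) : A ≤ M.cl A := fun _ h => M.δ_mem_V h

theorem V_cl (A : Set (FreeGroup (Fin R))) : M.V (M.cl A) = M.V A := by
  apply le_antisymm
  · apply Submodule.span_le.2
    rintro _ ⟨g, hg, rfl⟩
    exact hg
  · exact M.V_mono (M.subset_cl A)

theorem closure_le_cl (A : Set (FreeGroup (Fin R))) : Subgroup.closure A ≤ M.cl A :=
  (Subgroup.closure_le _).2 (M.subset_cl A)

theorem V_closure (A : Set (FreeGroup (Fin R))) :
    M.V (Subgroup.closure A : Subgroup (FreeGroup (Fin R))) = M.V A := by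
  apply le_antisymm
  · rw [← M.V_cl A]
    exact M.V_mono (M.closure_le_cl A)
  · exact M.V_mono Subgroup.subset_closure

/-- A subgroup is closed if it is equal to its closure. -/
def Closed (P : Subgroup (FreeGroup (Fin R))) : Prop :=
  ∀ g, M.δ g ∈ M.V (P : Set (FreeGroup (Fin R))) → g ∈ P

theorem closed_cl (A : Set (FreeGroup (Fin R))) : M.Closed (M.cl A) := by
  intro g hg
  rw [M.V_cl] at hg
  exact hg

theorem V_union (A B : Set (FreeGroup (Fin R))) : M.V (A ∪ B) = M.V A ⊔ M.V B := by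
  unfold V
  rw [Set.image_union, Submodule.span_union]

theorem V_sup (A B : Subgroup (FreeGroup (Fin R))) :
    M.V ((A ⊔ B : Subgroup (FreeGroup (Fin R))) : Set (FreeGroup (Fin R))) = M.V A ⊔ M.V B := by
  rw [← M.V_union, ← M.V_closure (A ∪ B), Subgroup.closure_union, Subgroup.closure_eq,
    Subgroup.closure_eq]

theorem V_iSup {ι : Type} (A : ι → Subgroup (FreeGroup (Fin R))) :
    M.V ((⨆ i, A i : Subgroup (FreeGroup (Fin R))) : Set (FreeGroup (Fin R))) =
      ⨆ i, M.V (A i : Set (FreeGroup (Fin R))) := by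
  rw [Subgroup.iSup_eq_closure, M.V_closure]
  unfold V
  rw [Set.image_iUnion, Submodule.span_iUnion]

theorem finrank_V_le {k : ℕ} {A : Subgroup (FreeGroup (Fin R))} (h : Gen k A) :
    Module.finrank D (M.V (A : Set (FreeGroup (Fin R)))) ≤ k := by
  classical
  obtain ⟨g, rfl⟩ := h
  rw [M.V_closure]
  unfold V
  rw [← Set.range_comp]
  exact (finrank_range_le_card (M.δ ∘ g)).trans (by simp)

theorem V_top : M.V ((⊤ : Subgroup (FreeGroup (Fin R))) : Set (FreeGroup (Fin R))) = ⊤ := by
  rw [eq_top_iff]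
  intro v _
  rw [pi_eq_sum_univ' v]
  refine Submodule.sum_mem _ fun i _ => Submodule.smul_mem _ _ ?_
  have h := M.δ_mem_V (A := ((⊤ : Subgroup (FreeGroup (Fin R))) : Set (FreeGroup (Fin R))))
    (g := of i) (Set.mem_univ _)
  rw [M.δ_of] at h
  convert h using 1

theorem finrank_V_top :
    Module.finrank D (M.V ((⊤ : Subgroup (FreeGroup (Fin R))) : Set (FreeGroup (Fin R)))) = R := by
  rw [M.V_top, finrank_top, Module.finrank_fin_fun]

/-- The linear map with `δ g ↦ u g - 1`. -/
noncomputable def dd : (Fin R → D) →ₗ[D] D :=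
  Fintype.linearCombination D (fun x => M.u (of x) - 1)

theorem dd_δ (g : FreeGroup (Fin R)) : M.dd (M.δ g) = M.u g - 1 := by
  revert g
  refine awalk_unique (F1 := fun g => M.dd (M.δ g)) (F2 := fun g => M.u g - 1)
    (fun g x => M.u g * (M.u (of x) - 1)) ?_ ?_ ?_
  · simp
  · intro g x
    rw [M.δ_mul_of, map_add, map_smul, smul_eq_mul]
    congr 2
    simp [dd, Fintype.linearCombination_apply, Pi.single_apply]
  · intro g x
    rw [map_mul, mul_sub, mul_one]
    abel

theorem δ_eq_zero_iff (g : FreeGroup (Fin R)) : M.δ g = 0 ↔ g = 1 := by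
  constructor
  · intro h
    have h1 := M.dd_δ g
    rw [h, map_zero] at h1
    apply M.u_inj
    rw [map_one]
    exact (sub_eq_zero.1 h1.symm)
  · rintro rfl
    exact M.δ_one

theorem V_eq_bot_iff (A : Subgroup (FreeGroup (Fin R))) :
    M.V (A : Set (FreeGroup (Fin R))) = ⊥ ↔ A = ⊥ := by
  constructor
  · intro h
    rw [eq_bot_iff]
    intro g hg
    have h1 := M.δ_mem_V hg
    rw [h, Submodule.mem_bot] at h1
    rw [Subgroup.mem_bot]
    exact (M.δ_eq_zero_iff g).1 h1
  · rintro rfl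
    rw [eq_bot_iff]
    apply Submodule.span_le.2
    rintro _ ⟨g, hg, rfl⟩
    have h1 : g = 1 := hg
    rw [h1, M.δ_one]
    exact Submodule.zero_mem _

end MN

end Pool.Agent.Helper72.BH
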