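import Pool.Agent.Helper72.BH.FillDefs
import Pool.Agent.Helper32.OR.RkDefs

/-!
# Tame groups, hulls and the relation `Sim`
-/

set_option autoImplicit false

namespace Pool.Agent.Helper72.BH

open FreeGroup (of)
open Pool.Agent.Helper22.OR (Gen)

/-- The properties of `F_m` and of random one-relator groups that are used in the game. -/
structure Tame (G : Type) [Group G] (K : ℕ) : Prop where
  /-- subgroups with at most `K` generators are free -/
  free : ∀ k, k ≤ K → ∀ H : Subgroup G, Gen k H →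
    ∃ j, j ≤ k ∧ Nonempty (FreeGroup (Fin j) ≃* H)
  /-- a finitely generated subgroup fills only finitely many subgroups of rank at most `N` -/
  fin : ∀ N, N ≤ K → ∀ H : Subgroup G, H.FG → {A : Subgroup G | FilledLe N H A}.Finite
  /-- generic elements: `J = C * ⟨y⟩` with `H ≤ C` for all small subgroups `J` that contain `H` and `y` -/
  gen : ∀ q T : ℕ, q * (T + 1) ≤ K → T + 1 ≤ K → ∀ H : Subgroup G, H.FG → ∃ y : Fin q → G,
    ∀ J : Subgroup G, Gen T J → H ≤ J → (∀ i, y i ∈ J) → ∃ (c : ℕ) (a : Fin c → G),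
      Function.Injective (FreeGroup.lift (Fin.append a y)) ∧
      Subgroup.closure (Set.range a) ⊔ Subgroup.closure (Set.range y) = J ∧
      H ≤ Subgroup.closure (Set.range a)

/-- The join of all subgroups of rank at most `N` which are filled by `H`. -/
def hull {G : Type} [Group G] (N : ℕ) (H : Subgroup G) : Subgroup G :=
  sSup {A : Subgroup G | FilledLe N H A}

/-- There is an isomorphism of the hulls that maps `x` to `y`. -/
def Sim {G G' : Type} [Group G] [Group G'] (N : ℕ) {i : ℕ} (x : Fin i → G) (y : Fin i → G') :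
    Prop :=
  ∃ (r : ℕ) (φ : FreeGroup (Fin r) →* G) (ψ : FreeGroup (Fin r) →* G'),
    Function.Injective φ ∧ Function.Injective ψ ∧
    φ.range = hull N (Subgroup.closure (Set.range x)) ∧
    ψ.range = hull N (Subgroup.closure (Set.range y)) ∧
    ∃ w : Fin i → FreeGroup (Fin r), (∀ j, φ (w j) = x j) ∧ ∀ j, ψ (w j) = y j

theorem Sim.symm {G G' : Type} [Group G] [Group G'] {N i : ℕ} {x : Fin i → G} {y : Fin i → G'}
    (h : Sim N x y) : Sim N y x := by
  obtain ⟨r, φ, ψ, h1, h2, h3, h4, w, h5, h6⟩ := h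
  exact ⟨r, ψ, φ, h2, h1, h4, h3, w, h6, h5⟩

theorem Sim.word {G G' : Type} [Group G] [Group G'] {N i : ℕ} {x : Fin i → G} {y : Fin i → G'}
    (h : Sim N x y) (v : FreeGroup (Fin i)) :
    FreeGroup.lift x v = 1 ↔ FreeGroup.lift y v = 1 := by
  obtain ⟨r, φ, ψ, h1, h2, -, -, w, h5, h6⟩ := h
  have e1 : FreeGroup.lift x = φ.comp (FreeGroup.lift w) := by
    ext j
    simp [h5]
  have e2 : FreeGroup.lift y = ψ.comp (FreeGroup.lift w) := by
    ext j
    simp [h6]
  rw [e1, e2, MonoidHom.comp_apply, MonoidHom.comp_apply,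
    (injective_iff_map_eq_one' φ).1 h1, (injective_iff_map_eq_one' ψ).1 h2]

end Pool.Agent.Helper72.BH
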