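import Pool.Agent.Helper72.BH.Resp

/-!
# The game

By induction on `q`: for all `i` there are `N`, `K` with `i ≤ N` such that `Sim N x y` implies
`Eqv G G' q i x y` for tame groups. `q = 0`: `Sim.word`. Step: `game_step` for `max N' (i + 1)`, in both directions
(`Sim.symm`). At the start `i = 0`: the hulls of the trivial group are trivial (`filled_bot`), `r = 0`. `Tame` is monotone: `Tame G K` and `K' ≤ K` give `Tame G K'`.
-/

set_option autoImplicit false

namespace Pool.Agent.Helper72.BH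

open Pool.Agent.Helper32.OR (Eqv)

theorem Tame.mono {G : Type} [Group G] {K K' : ℕ} (h : Tame G K) (hK : K' ≤ K) : Tame G K' where
  free k hk := h.free k (hk.trans hK)
  fin N hN := h.fin N (hN.trans hK)
  gen q T h1 h2 := h.gen q T (h1.trans hK) (h2.trans hK)

theorem eqv_of_sim (q : ℕ) : ∀ i : ℕ, ∃ N K : ℕ, i ≤ N ∧ ∀ (G G' : Type) [Group G] [Group G'],
    Tame G K → Tame G' K → ∀ (x : Fin i → G) (y : Fin i → G'), Sim N x y → Eqv G G' q i x y := by
  induction q with
  | zero =>
    intro i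
    exact ⟨i, 0, le_rfl, fun G G' _ _ _ _ x y h w => h.word w⟩
  | succ q ih =>
    intro i
    obtain ⟨N', K', hN', h1⟩ := ih (i + 1)
    obtain ⟨N, K, hN, h2⟩ := game_step N'
    refine ⟨N, max K K', by omega, ?_⟩
    intro G G' _ _ hG hG' x y hxy
    refine ⟨fun a => ?_, fun b => ?_⟩
    · obtain ⟨b, hb⟩ := h2 G G' (hG.mono (le_max_left _ _)) (hG'.mono (le_max_left _ _)) i hN' x y
        hxy a
      exact ⟨b, h1 G G' (hG.mono (le_max_right _ _)) (hG'.mono (le_max_right _ _)) _ _ hb⟩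
    · obtain ⟨a, ha⟩ := h2 G' G (hG'.mono (le_max_left _ _)) (hG.mono (le_max_left _ _)) i hN' y x
        hxy.symm b
      exact ⟨a, h1 G G' (hG.mono (le_max_right _ _)) (hG'.mono (le_max_right _ _)) _ _ ha.symm⟩

theorem sim_zero (N : ℕ) (G G' : Type) [Group G] [Group G'] :
    Sim N (Fin.elim0 : Fin 0 → G) (Fin.elim0 : Fin 0 → G') := by
  have h1 : ∀ (G : Type) [Group G],
      hull N (Subgroup.closure (Set.range (Fin.elim0 : Fin 0 → G))) = ⊥ := by
    intro G _
    rw [Set.range_eq_empty, Subgroup.closure_empty, eq_bot_iff]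
    refine sSup_le ?_
    rintro A ⟨k, -, hk⟩
    exact (filled_bot hk).le
  refine ⟨0, 1, 1, Function.injective_of_subsingleton _, Function.injective_of_subsingleton _, ?_,
    ?_, Fin.elim0, fun j => j.elim0, fun j => j.elim0⟩
  · rw [h1, MonoidHom.range_one]
  · rw [h1, MonoidHom.range_one]

theorem game (q : ℕ) : ∃ K : ℕ, ∀ (G G' : Type) [Group G] [Group G'], Tame G K → Tame G' K →
    Eqv G G' q 0 (Fin.elim0 : Fin 0 → G) (Fin.elim0 : Fin 0 → G') := by
  obtain ⟨N, K, -, h⟩ := eqv_of_sim q 0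
  exact ⟨K, fun G G' _ _ hG hG' => h G G' hG hG' _ _ (sim_zero N G G')⟩

end Pool.Agent.Helper72.BH
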