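import Pool.Agent.Helper72.BH.FillT
import Pool.Agent.Helper72.BH.RunDefs
import Pool.Agent.Helper36.HL.Elim

/-!
# Elimination of unknowns in a labelled graph (item (5c) of note 2702)

`J ≤ B ≤ F = FreeGroup (Fin R)`, `B` filled by `J`; `EG` a finite edge set in the graph of `J` with `Reach`
and `Carry`; `ED` a finite edge set in the graph of `B` that contains the image of `EG`. If all edges of `EG` can
be peeled with respect to the projection then `|ED| + |ends EG| ≤ |EG| + |ends ED|`.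

The relations `ι x * ψ (tg a) = ψ a.1 * β (projE a)` for `a = (v, x) ∈ EG` are solved by elimination
(`Helper36.HL.Elim`); let `hol` be the walk with the increments `β`. Then
`Φ b = ψ (1 J) * hol b * (ψ (1 J))⁻¹` is a homomorphism on `B` which is the inclusion on `J`, and the inclusion
modulo the new letters. As `B` is filled by `J` it is the inclusion. So `β` and `ψ` are given by the function
`γ (g⁻¹ B) = (ι g)⁻¹ * ψ (1 J) * hol g`.
-/

set_option autoImplicit false

namespace Pool.Agent.Helper72.BH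

open FreeGroup (of)
open Pool.Agent.Helper22.OR (Gen)
open Pool.Agent.Helper79.HL (Peel)
open Pool.Agent.Helper36.HL (retr incl retr_incl count_le)

variable {R : ℕ}

/-- `Filled` in the group `B`. -/
theorem filled_sub {G : Type} [Group G] {J B : Subgroup G} {k : ℕ} (h : Filled k J B) :
    Filled k (J.subgroupOf B) (⊤ : Subgroup B) := by
  have hinj : Function.Injective (Subgroup.map B.subtype) := Subgroup.map_injective B.subtype_injective
  have htop : (⊤ : Subgroup B).map B.subtype = B := by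
    rw [← MonoidHom.range_eq_map, Subgroup.range_subtype]
  refine ⟨le_top, ?_, ?_⟩
  · obtain ⟨g, hg⟩ := h.2.1
    have hgB : ∀ i, g i ∈ B := fun i => hg ▸ Subgroup.subset_closure ⟨i, rfl⟩
    refine ⟨fun i => ⟨g i, hgB i⟩, hinj ?_⟩
    rw [MonoidHom.map_closure, htop, ← Set.range_comp]
    exact hg
  · rintro j K u hj ⟨g, hg⟩ hK hJ
    refine h.2.2 j (K.map B.subtype) u hj ⟨fun i => g i, ?_⟩ ?_ ?_
    · rw [← hg, MonoidHom.map_closure, ← Set.range_comp]
      rfl
    · have h1 := congrArg (Subgroup.map B.subtype) hK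
      rw [Subgroup.map_sup, MonoidHom.map_closure, Set.image_singleton, htop] at h1
      exact h1
    · intro x hx
      exact ⟨⟨x, h.1 hx⟩, hJ (Subgroup.mem_subgroupOf.2 hx), rfl⟩

theorem incl_mem_iff (X S : Type) (y : FreeGroup (X ⊕ S)) :
    y ∈ Subgroup.closure ((of : X ⊕ S → FreeGroup (X ⊕ S)) '' Set.range Sum.inl) ↔
      y = incl X S (retr X S y) := by
  constructor
  · intro h
    induction h using Subgroup.closure_induction with
    | mem y hy =>
      obtain ⟨_, ⟨x, rfl⟩, rfl⟩ := hy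
      simp [incl, retr]
    | one => simp
    | mul a b _ _ ha hb => rw [map_mul, map_mul, ← ha, ← hb]
    | inv a _ ha => rw [map_inv, map_inv, ← ha]
  · intro h
    rw [h]
    generalize retr X S y = z
    induction z using FreeGroup.induction_on with
    | C1 => rw [map_one]; exact Subgroup.one_mem _
    | of x =>
      refine Subgroup.subset_closure ⟨Sum.inl x, ⟨x, rfl⟩, ?_⟩
      simp [incl]
    | inv_of x hx => rw [map_inv]; exact Subgroup.inv_mem _ hx
    | mul a b ha hb => rw [map_mul]; exact Subgroup.mul_mem _ ha hb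

/-- A homomorphism from `B` which is the inclusion on `J` and modulo the new letters is the
inclusion, if `B` is filled by `J`. -/
theorem hom_eq_incl {S : Type} [Fintype S] {J B : Subgroup (FreeGroup (Fin R))} {k : ℕ}
    (hfill : Filled k J B) (Φ : B →* FreeGroup (Fin R ⊕ S))
    (hJ : ∀ b : B, (b : FreeGroup (Fin R)) ∈ J → Φ b = incl (Fin R) S b)
    (hr : ∀ b : B, retr (Fin R) S (Φ b) = b) (b : B) : Φ b = incl (Fin R) S b := by
  let e : Fin R ⊕ S ≃ Fin (Fintype.card (Fin R ⊕ S)) := Fintype.equivFin _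
  let E : FreeGroup (Fin R ⊕ S) ≃* FreeGroup (Fin (Fintype.card (Fin R ⊕ S))) :=
    FreeGroup.freeGroupCongr e
  have hEof : ∀ x, E (of x) = of (e x) := fun x => by simp [E]
  let Φ' : B →* FreeGroup (Fin (Fintype.card (Fin R ⊕ S))) := E.toMonoidHom.comp Φ
  have hinj : ∀ x ∈ (⊤ : Subgroup B), Φ' x = 1 → x = 1 := by
    intro x _ hx
    have h1 : Φ x = 1 := (map_eq_one_iff E E.injective).1 hx
    have h2 := hr x
    rw [h1, map_one] at h2
    exact Subtype.ext h2.symm
  have himg : (of '' (e '' Set.range Sum.inl) :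
      Set (FreeGroup (Fin (Fintype.card (Fin R ⊕ S))))) =
      E.toMonoidHom '' ((of : Fin R ⊕ S → FreeGroup (Fin R ⊕ S)) '' Set.range Sum.inl) := by
    rw [Set.image_image, Set.image_image]
    exact Set.image_congr fun x _ => (hEof x).symm
  have hcl : ∀ y : FreeGroup (Fin R ⊕ S), E y ∈ Subgroup.closure (of '' (e '' Set.range Sum.inl)) ↔
      y = incl (Fin R) S (retr (Fin R) S y) := by
    intro y
    rw [himg, ← MonoidHom.map_closure, ← incl_mem_iff]
    exact Subgroup.mem_map_iff_mem (f := E.toMonoidHom) E.injective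
  have h1 := filled_letters (filled_map Φ' hinj (filled_sub hfill)) (e '' Set.range Sum.inl) (by
    rintro _ ⟨x, hx, rfl⟩
    refine (hcl (Φ x)).2 ?_
    rw [hJ x (Subgroup.mem_subgroupOf.1 hx), retr_incl])
  have h2 := (hcl (Φ b)).1 (h1 ⟨b, Subgroup.mem_top _, rfl⟩)
  rw [hr b] at h2
  exact h2

section hol

variable {S : Type} {J B : Subgroup (FreeGroup (Fin R))} (hJB : J ≤ B)
  (β : (FreeGroup (Fin R) ⧸ B) × Fin R → FreeGroup (Fin R ⊕ S))
  (ψ : FreeGroup (Fin R) ⧸ J → FreeGroup (Fin R ⊕ S))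

/-- The holonomy. -/
noncomputable def hol : FreeGroup (Fin R) → FreeGroup (Fin R ⊕ S) :=
  walk fun g x => β (((g⁻¹ : FreeGroup (Fin R)) : FreeGroup (Fin R) ⧸ B), x)

theorem hol_one : hol β 1 = 1 := walk_one _

theorem hol_of (g : FreeGroup (Fin R)) (x : Fin R) :
    hol β (g * of x) = hol β g * β (((g⁻¹ : FreeGroup (Fin R)) : FreeGroup (Fin R) ⧸ B), x) :=
  walk_of _ g x

theorem hol_mul {b : FreeGroup (Fin R)} (hb : b ∈ B) (g : FreeGroup (Fin R)) :
    hol β (b * g) = hol β b * hol β g := by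
  refine walk_unique (F1 := fun g => hol β (b * g)) (F2 := fun g => hol β b * hol β g)
    (fun g x => β (((g⁻¹ : FreeGroup (Fin R)) : FreeGroup (Fin R) ⧸ B), x)) ?_ ?_ ?_ g
  · simp [hol_one]
  · intro g x
    rw [← mul_assoc, hol_of]
    congr 3
    rw [QuotientGroup.eq]
    simpa using hb
  · intro g x
    rw [hol_of, mul_assoc]

theorem retr_hol (hβ : ∀ y, retr (Fin R) S (β y) = of y.2) (g : FreeGroup (Fin R)) :
    retr (Fin R) S (hol β g) = g := by
  refine walk_unique (F1 := fun g => retr (Fin R) S (hol β g)) (F2 := fun g => g)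
    (fun _ x => of x) ?_ ?_ ?_ g
  · simp [hol_one]
  · intro g x
    rw [hol_of, map_mul, hβ]
  · intro g x; rfl

theorem run_hol {EG : Finset ((FreeGroup (Fin R) ⧸ J) × Fin R)}
    (hrel : ∀ a ∈ EG, incl (Fin R) S (of (projE hJB a).2) * ψ (tg a) = ψ a.1 * β (projE hJB a))
    {g : FreeGroup (Fin R)} (hg : Run J EG g) :
    incl (Fin R) S g * ψ ((g⁻¹ : FreeGroup (Fin R)) : FreeGroup (Fin R) ⧸ J) =
      ψ ((1 : FreeGroup (Fin R)) : FreeGroup (Fin R) ⧸ J) * hol β g := by
  induction hg with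
  | one => simp [hol_one]
  | mul g x _ he ih =>
    have h1 := hrel _ he
    have h2 : tg ((((g⁻¹ : FreeGroup (Fin R)) : FreeGroup (Fin R) ⧸ J), x)) =
        (((g * of x)⁻¹ : FreeGroup (Fin R)) : FreeGroup (Fin R) ⧸ J) := by
      rw [mul_inv_rev]; rfl
    rw [h2] at h1
    rw [hol_of, map_mul, mul_assoc]
    change _ * (incl (Fin R) S (of (projE hJB (((g⁻¹ : FreeGroup (Fin R)) :
      FreeGroup (Fin R) ⧸ J), x)).2) * _) = _
    rw [h1]
    change _ * (ψ ((g⁻¹ : FreeGroup (Fin R)) : FreeGroup (Fin R) ⧸ J) * _) = _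
    rw [← mul_assoc, ih, mul_assoc]
    rfl
  | inv g x _ he ih =>
    have h1 := hrel _ he
    have h2 : tg ((((of x * g⁻¹ : FreeGroup (Fin R)) : FreeGroup (Fin R) ⧸ J), x)) =
        ((g⁻¹ : FreeGroup (Fin R)) : FreeGroup (Fin R) ⧸ J) := by
      change (((of x)⁻¹ * (of x * g⁻¹) : FreeGroup (Fin R)) : FreeGroup (Fin R) ⧸ J) = _
      rw [inv_mul_cancel_left]
    rw [h2] at h1
    change incl (Fin R) S (of x) * ψ ((g⁻¹ : FreeGroup (Fin R)) : FreeGroup (Fin R) ⧸ J) =
      ψ ((of x * g⁻¹ : FreeGroup (Fin R)) : FreeGroup (Fin R) ⧸ J) *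
        β (((of x * g⁻¹ : FreeGroup (Fin R)) : FreeGroup (Fin R) ⧸ B), x) at h1
    have h3 : ((g * (of x)⁻¹)⁻¹ : FreeGroup (Fin R)) = of x * g⁻¹ := by group
    have h4 := hol_of β (g * (of x)⁻¹) x
    rw [inv_mul_cancel_right, h3] at h4
    rw [h3]
    have h5 : hol β (g * (of x)⁻¹) = hol β g *
        (β (((of x * g⁻¹ : FreeGroup (Fin R)) : FreeGroup (Fin R) ⧸ B), x))⁻¹ := by
      rw [h4, mul_inv_cancel_right]
    rw [h5, map_mul, map_inv, ← mul_assoc, ← ih]
    have h6 : ψ ((of x * g⁻¹ : FreeGroup (Fin R)) : FreeGroup (Fin R) ⧸ J) =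
        incl (Fin R) S (of x) * ψ ((g⁻¹ : FreeGroup (Fin R)) : FreeGroup (Fin R) ⧸ J) *
        (β (((of x * g⁻¹ : FreeGroup (Fin R)) : FreeGroup (Fin R) ⧸ B), x))⁻¹ := by
      rw [h1, mul_inv_cancel_right]
    rw [h6]
    group

end hol

theorem mem_ends {Q : Type} [MulAction (FreeGroup (Fin R)) Q] {E : Finset (Q × Fin R)} {v : Q} :
    v ∈ ends E ↔ (∃ a ∈ E, a.1 = v) ∨ ∃ a ∈ E, tg a = v := by
  unfold ends
  simp only [Finset.mem_union, Finset.mem_image]

open Classical in
theorem peel_card {J B : Subgroup (FreeGroup (Fin R))} (hJB : J ≤ B) {k : ℕ}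
    (hfill : Filled k J B) (EG : Finset ((FreeGroup (Fin R) ⧸ J) × Fin R)) (hr : Reach J EG)
    (hc : Carry J EG) (hne : EG.Nonempty)
    (hpeel : Peel (fun a : (FreeGroup (Fin R) ⧸ J) × Fin R => a.1) tg (projE hJB) EG)
    (ED : Finset ((FreeGroup (Fin R) ⧸ B) × Fin R)) (hsub : EG.image (projE hJB) ⊆ ED) :
    ED.card + (ends EG).card ≤ EG.card + (ends ED).card := by
  have key := count_le (X := Fin R) hpeel (ends EG) ED (ends ED) (fun y => y.1) tg (proj hJB)
    (fun y => of y.2)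
    (fun a ha => mem_ends.2 (Or.inl ⟨a, ha, rfl⟩))
    (fun a ha => mem_ends.2 (Or.inr ⟨a, ha, rfl⟩))
    (fun a ha => hsub (Finset.mem_image.2 ⟨a, ha, rfl⟩))
    (fun y hy => mem_ends.2 (Or.inl ⟨y, hy, rfl⟩))
    (fun y hy => mem_ends.2 (Or.inr ⟨y, hy, rfl⟩))
    (fun v hv => by
      rcases mem_ends.1 hv with ⟨a, ha, rfl⟩ | ⟨a, ha, rfl⟩
      · exact mem_ends.2 (Or.inl ⟨projE hJB a, hsub (Finset.mem_image.2 ⟨a, ha, rfl⟩), rfl⟩)
      · exact mem_ends.2 (Or.inr
          ⟨projE hJB a, hsub (Finset.mem_image.2 ⟨a, ha, rfl⟩), tg_projE hJB a⟩))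
    ?_
  · omega
  · intro S _ β ψ hrel hβ hψ
    have hrel' : ∀ a ∈ EG, incl (Fin R) S (of (projE hJB a).2) * ψ (tg a) =
        ψ a.1 * β (projE hJB a) := hrel
    let ψ₁ := ψ ((1 : FreeGroup (Fin R)) : FreeGroup (Fin R) ⧸ J)
    let Φ : B →* FreeGroup (Fin R ⊕ S) :=
      { toFun := fun b => ψ₁ * hol β b * ψ₁⁻¹
        map_one' := by simp [hol_one]
        map_mul' := fun a b => by
          rw [Subgroup.coe_mul, hol_mul β a.2]
          group }
    have hΦ : ∀ b : B, Φ b = ψ₁ * hol β b * ψ₁⁻¹ := fun b => rfl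
    have hΦr : ∀ b : B, retr (Fin R) S (Φ b) = b := by
      intro b
      rw [hΦ, map_mul, map_mul, map_inv, retr_hol β hβ, hψ]
      simp
    have hΦJ : ∀ b : B, (b : FreeGroup (Fin R)) ∈ J → Φ b = incl (Fin R) S b := by
      intro b hb
      have h1 := run_hol hJB β ψ hrel' (hc _ hb)
      have h2 : (((b : FreeGroup (Fin R))⁻¹ : FreeGroup (Fin R)) : FreeGroup (Fin R) ⧸ J) =
          ((1 : FreeGroup (Fin R)) : FreeGroup (Fin R) ⧸ J) := by
        rw [QuotientGroup.eq]
        simpa using hb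
      rw [h2] at h1
      rw [hΦ, ← h1, mul_inv_cancel_right]
    have hΦi := hom_eq_incl hfill Φ hΦJ hΦr
    -- the gauge function
    let γ : FreeGroup (Fin R) → FreeGroup (Fin R ⊕ S) :=
      fun h => (incl (Fin R) S h)⁻¹ * ψ₁ * hol β h
    have hγ : ∀ b ∈ B, ∀ h, γ (b * h) = γ h := by
      intro b hb h
      have h1 := hΦi ⟨b, hb⟩
      rw [hΦ] at h1
      change ψ₁ * hol β b * ψ₁⁻¹ = incl (Fin R) S b at h1
      simp only [γ]
      rw [hol_mul β hb, map_mul, ← h1]
      group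
    let g : FreeGroup (Fin R) ⧸ B → FreeGroup (Fin R ⊕ S) := fun w => γ (w.out)⁻¹
    have hg : ∀ h : FreeGroup (Fin R),
        g ((h⁻¹ : FreeGroup (Fin R)) : FreeGroup (Fin R) ⧸ B) = γ h := by
      intro h
      obtain ⟨b, hb⟩ := QuotientGroup.mk_out_eq_mul B h⁻¹
      simp only [g]
      rw [hb, mul_inv_rev, inv_inv]
      exact hγ _ (Subgroup.inv_mem _ b.2) h
    refine ⟨g, ?_, ?_⟩
    · rintro ⟨w, x⟩ _
      induction w using QuotientGroup.induction_on with
      | H w =>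
      have h1 : g ((w : FreeGroup (Fin R)) : FreeGroup (Fin R) ⧸ B) = γ w⁻¹ := by
        rw [← hg w⁻¹, inv_inv]
      have h2 : g (tg (((w : FreeGroup (Fin R)) : FreeGroup (Fin R) ⧸ B), x)) =
          γ (w⁻¹ * of x) := by
        rw [← hg (w⁻¹ * of x), mul_inv_rev, inv_inv]
        rfl
      have h3 := hol_of β w⁻¹ x
      rw [inv_inv] at h3
      rw [h2]
      change _ = (g ((w : FreeGroup (Fin R)) : FreeGroup (Fin R) ⧸ B))⁻¹ * _ * _
      rw [h1]
      simp only [γ]
      rw [h3, map_mul]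
      group
    · have hrun : ∀ h, Run J EG h → ψ ((h⁻¹ : FreeGroup (Fin R)) : FreeGroup (Fin R) ⧸ J) =
          g (proj hJB ((h⁻¹ : FreeGroup (Fin R)) : FreeGroup (Fin R) ⧸ J)) := by
        intro h hh
        have h1 := run_hol hJB β ψ hrel' hh
        rw [proj_mk, hg]
        simp only [γ]
        rw [mul_assoc, ← h1, inv_mul_cancel_left]
      intro v hv
      rcases mem_ends.1 hv with ⟨a, ha, rfl⟩ | ⟨a, ha, rfl⟩
      · obtain ⟨h, hh, he⟩ := hr a ha
        rw [← he]
        exact hrun h hh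
      · obtain ⟨h, hh, he⟩ := hr a ha
        have h1 : tg a = (((h * of a.2)⁻¹ : FreeGroup (Fin R)) : FreeGroup (Fin R) ⧸ J) := by
          rw [mul_inv_rev]
          unfold tg
          rw [← he]
          rfl
        rw [h1]
        refine hrun _ (Run.mul h a.2 hh ?_)
        rw [he]
        exact ha

end Pool.Agent.Helper72.BH
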