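import Pool.Agent.Helper72.BH.GameDefs
import Pool.Agent.Helper72.BH.FillT
import Pool.Agent.Helper72.BH.BHL
import Pool.Agent.Helper22.HL.Bas

/-!
# Hulls have bounded rank

`bhl N` is the bound of `bhl_free`. `hull_gen`: for a finite set `t` of subgroups filled by `H` of rank at most `N`
the join has `bhl N` generators, by induction on `t`: the join of `insert A t` has `bhl N + N ≤ K` generators, so it is free
of some rank `R` (`Tame.free`); pull back all members of `insert A t` to `FreeGroup (Fin R)` (`filled_map` for the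
inverse isomorphism); `bhl_free` gives `R ≤ bhl N`.

`free_append`: free products of injective homomorphisms are injective: if `a ∪ y` is a free family and `c` is a
free family in `⟨a⟩` then `c ∪ y` is a free family.
-/

set_option autoImplicit false

namespace Pool.Agent.Helper72.BH

open FreeGroup (of)
open Pool.Agent.Helper22.OR (Gen)

/-- The bound of the bounded hull lemma. -/
noncomputable def bhl (N : ℕ) : ℕ := (bhl_free N).choose

theorem bhl_spec (N : ℕ) : ∀ (R : ℕ) (H : Subgroup (FreeGroup (Fin R))) (s : ℕ)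
    (A : Fin s → Subgroup (FreeGroup (Fin R))), (∀ i, FilledLe N H (A i)) → (⨆ i, A i) = ⊤ →
    R ≤ bhl N := (bhl_free N).choose_spec

variable {G : Type} [Group G]

theorem gen_sup {j k : ℕ} {A B : Subgroup G} (hA : Gen j A) (hB : Gen k B) :
    Gen (j + k) (A ⊔ B) := Pool.Agent.Helper22.HL.Gen.sup hA hB

theorem gen_of_iso {m : ℕ} {A : Subgroup G} (φ : FreeGroup (Fin m) ≃* A) : Gen m A := by
  obtain ⟨a, ha⟩ := Pool.Agent.Helper22.HL.exists_basis φ
  exact ha.gen

theorem le_hull {N k : ℕ} {H A : Subgroup G} (hk : k ≤ N) (h : Filled k H A) :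
    A ≤ hull N H := le_sSup ⟨k, hk, h⟩

/-- A free group generated by finitely many subgroups filled by `H` has at most `bhl N` generators. -/
theorem join_gen {N m : ℕ} {H J : Subgroup G} (φ : FreeGroup (Fin m) ≃* J) {s : ℕ}
    (A : Fin s → Subgroup G) (hA : ∀ i, FilledLe N H (A i)) (hJ : (⨆ i, A i) = J) (hHJ : H ≤ J) :
    m ≤ bhl N := by
  set ψ : FreeGroup (Fin m) →* G := J.subtype.comp φ.toMonoidHom with hψ
  have hinj : Function.Injective ψ := (Subgroup.subtype_injective J).comp φ.injective
  have hran : ψ.range = J := by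
    ext x
    constructor
    · rintro ⟨w, rfl⟩
      exact (φ w).2
    · intro hx
      exact ⟨φ.symm ⟨x, hx⟩, by simp [hψ]⟩
  have hmc : ∀ B : Subgroup G, B ≤ J → (B.comap ψ).map ψ = B := fun B hB =>
    Subgroup.map_comap_eq_self (by rw [hran]; exact hB)
  have hAJ : ∀ i, A i ≤ J := fun i => by
    rw [← hJ]
    exact le_iSup A i
  refine bhl_spec N m (H.comap ψ) s (fun i => (A i).comap ψ) (fun i => ?_) ?_
  · obtain ⟨k, hk, hf⟩ := hA i
    refine ⟨k, hk, Pool.Agent.Helper22.HL.filled_reflect ψ hinj ?_⟩
    rw [hmc _ hHJ, hmc _ (hAJ i)]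
    exact hf
  · apply Subgroup.map_injective hinj
    rw [Subgroup.map_iSup, ← MonoidHom.range_eq_map, hran, ← hJ]
    exact iSup_congr fun i => hmc _ (hAJ i)

theorem hull_gen {K N : ℕ} (hG : Tame G K) (hK : bhl N + N ≤ K) {H : Subgroup G} (hH : H.FG) :
    Gen (bhl N) (hull N H) := by
  classical
  have hfin := hG.fin N (by omega) H hH
  have key : ∀ t : Finset (Subgroup G), (∀ A ∈ t, FilledLe N H A) →
      Gen (bhl N) (t.sup id) := by
    intro t
    induction t using Finset.induction_on with
    | empty =>
      intro _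
      rw [Finset.sup_empty]
      exact Gen.mono (Nat.zero_le _) ⟨fun i => i.elim0, by
        rw [Set.range_eq_empty, Subgroup.closure_empty]⟩
    | insert A t hAt ih =>
      intro ht
      have h1 := ih fun B hB => ht B (Finset.mem_insert_of_mem hB)
      have h2 := ht A (Finset.mem_insert_self A t)
      obtain ⟨k, hk, hf⟩ := h2
      have h3 : Gen (bhl N + N) ((insert A t).sup id) := by
        rw [Finset.sup_insert, sup_comm]
        exact gen_sup h1 (hf.gen.mono hk)
      obtain ⟨m, -, ⟨φ⟩⟩ := hG.free _ hK _ h3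
      have h4 : m ≤ bhl N := by
        have e := (insert A t).equivFin
        refine join_gen (H := H) φ (fun i => ((e.symm i : ↥(insert A t)) : Subgroup G))
          (fun i => ht _ (e.symm i).2) ?_ ?_
        · apply le_antisymm
          · exact iSup_le fun i => Finset.le_sup (f := id) (e.symm i).2
          · refine Finset.sup_le fun B hB => ?_
            have := le_iSup (fun i => ((e.symm i : ↥(insert A t)) : Subgroup G)) (e ⟨B, hB⟩)
            simpa using this
        · exact hf.le.trans (Finset.le_sup (f := id) (Finset.mem_insert_self A t))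
      exact (gen_of_iso φ).mono h4
  have h5 := key hfin.toFinset fun A hA => hfin.mem_toFinset.mp hA
  have h6 : hfin.toFinset.sup id = hull N H := by
    rw [Finset.sup_id_eq_sSup, hfin.coe_toFinset]
    rfl
  rwa [h6] at h5

/-- The hull is filled by `H` if `H` has `N` generators. -/
theorem hull_filled {K N : ℕ} (hG : Tame G K) (hK : bhl N + N ≤ K) {H : Subgroup G}
    (hH : Gen N H) : FilledLe (bhl N) H (hull N H) := by
  have h1 := hull_gen hG hK hH.fg
  obtain ⟨m, hm, ⟨φ⟩⟩ := hG.free _ (by omega) _ h1
  refine ⟨m, hm, ?_⟩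
  have h2 : H ≤ hull N H := by
    obtain ⟨A, k, hk, hA⟩ := Pool.Agent.Helper22.HL.exists_filled hH
    exact hA.le.trans (le_hull hk hA)
  refine filled_join φ (ι := {A : Subgroup G // FilledLe N H A}) (fun A => A.1) (fun _ => H)
    (fun _ => le_rfl) (fun A => ?_) ?_
  · obtain ⟨k, _, hk⟩ := A.2
    exact ⟨k, hk⟩
  · apply le_antisymm
    · exact sup_le h2 (iSup_le fun A => le_sSup A.2)
    · refine le_trans (sSup_le fun A hA => ?_) le_sup_right
      exact le_iSup (fun A : {A : Subgroup G // FilledLe N H A} => A.1) ⟨A, hA⟩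

theorem le_hull_self {K N : ℕ} (hG : Tame G K) (hK : N ≤ K) {H : Subgroup G} (hH : Gen N H) :
    H ≤ hull N H := by
  obtain ⟨A, k, hk, hA⟩ := Pool.Agent.Helper22.HL.exists_filled hH
  exact hA.le.trans (le_hull hk hA)

theorem free_append {p k q : ℕ} {a : Fin k → G} {y : Fin q → G}
    (h : Function.Injective (FreeGroup.lift (Fin.append a y))) {c : Fin p → G}
    (hc : Function.Injective (FreeGroup.lift c))
    (hca : ∀ i, c i ∈ Subgroup.closure (Set.range a)) :
    Function.Injective (FreeGroup.lift (Fin.append c y)) :=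
  Pool.Agent.Helper22.HL.append_inj h hc hca

end Pool.Agent.Helper72.BH
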