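import Pool.Agent.Helper72.BH.Mom
import Pool.Agent.Helper72.BH.Cay

/-!
# The injectivity lemma

The graph of a subgroup `P` of `F = FreeGroup (Fin R)`: vertices `v ∈ F ⧸ P`, the edge `(v, x)` goes from
`v` to `(of x)⁻¹ • v`. `bd` is the boundary with coefficients in `D`: the edge `(v, x)` is mapped to
`[v] - u x [(of x)⁻¹ • v]`; `aug` adds the coefficients of all `x`-edges.

`inj_lemma`. Write `ν x v` for the coefficient of `(v, x)`. `bd ν = 0` means
(i) `∑ x, ν x v = ∑ x, ν x (of x • v) * u x` for all `v`, and `aug ν = 0` means (ii) `∑ v, ν x v = 0` for all `x`.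
Let `GG` be the set of all `p : F ⧸ P → ZMod 2` such that for all `g`, `x`, `f`:
`∑ v, co (ν x v) f * p (g • v) = 0`. Then `1 ∈ GG` by (ii), `GG` is closed under sums. Claim: `p ∈ GG` implies
`lam φ h * p ∈ GG`. As `lam φ h (g • v) = const + lam φ (g⁻¹ h) v` (`lam_smul`) and `v ↦ p (g • v)` is in `GG`,
it is enough to show for all `p ∈ GG`, all `h`, `x`, `f`: `∑ v, co (ν x v) f * lam φ h v * p v = 0`. This
follows from

(A) for all `p ∈ GG`, `x`, `g`, `f`: `∑ v, co (ν x v) g * lam φ (g⁻¹ f) v * p (g • v) = 0`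
(apply (A) to `v ↦ p (g⁻¹ • v)`, which is in `GG`, with `f = g h`).

Proof of (A): fix `f` and put `c x g = ∑ v, co (ν x v) g * lam φ (g⁻¹ f) v * p (g • v)`. This is finitely supported
(finitely many `(v, x)`, and `M.fin (ν x v) (φ (δ v.out)) f`). Evaluate (i) at `g`, with
`co (ν * u x) g = co ν (g x⁻¹)`; multiply by `lam φ (g⁻¹ f) v * p (g • v)` and sum over `v`; on the right
substitute `v = x⁻¹ • v'`: `lam φ (g⁻¹ f) (x⁻¹ • v') = const_x + lam φ (x g⁻¹ f) v'` and
`p (g • x⁻¹ • v') = p ((g x⁻¹) • v')`, and the constants give `0` since `p ∈ GG`. So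
`∑ x, c x g = ∑ x, c x (g x⁻¹)` and `cayley_cycle` gives `c = 0`.

Finally `exists_sep` for the finite set of the `v` with `(v, x)` in the support of `ν` gives `ν x v = 0`.
-/

set_option autoImplicit false

namespace Pool.Agent.Helper72.BH

open FreeGroup (of)

namespace MN

variable {R : ℕ} {D : Type} [DivisionRing D] (M : MN R D)

/-- The boundary. -/
noncomputable def bd (P : Subgroup (FreeGroup (Fin R))) :
    (((FreeGroup (Fin R) ⧸ P) × Fin R) →₀ D) →ₗ[D] ((FreeGroup (Fin R) ⧸ P) →₀ D) :=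
  Finsupp.linearCombination D (fun a =>
    Finsupp.single a.1 (1 : D) - Finsupp.single ((of a.2)⁻¹ • a.1) (M.u (of a.2)))

/-- The sum of the coefficients of the `x`-edges, for each `x`. -/
noncomputable def aug (_M : MN R D) (P : Subgroup (FreeGroup (Fin R))) :
    (((FreeGroup (Fin R) ⧸ P) × Fin R) →₀ D) →ₗ[D] (Fin R → D) :=
  Finsupp.linearCombination D (fun a => (Pi.single a.2 1 : Fin R → D))

theorem bd_single (P : Subgroup (FreeGroup (Fin R))) (a : (FreeGroup (Fin R) ⧸ P) × Fin R)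
    (d : D) : M.bd P (Finsupp.single a d) =
      Finsupp.single a.1 d - Finsupp.single ((of a.2)⁻¹ • a.1) (d * M.u (of a.2)) := by
  rw [bd, Finsupp.linearCombination_single, smul_sub, Finsupp.smul_single, Finsupp.smul_single,
    smul_eq_mul, smul_eq_mul, mul_one]

theorem bd_apply (P : Subgroup (FreeGroup (Fin R)))
    (ν : ((FreeGroup (Fin R) ⧸ P) × Fin R) →₀ D) (v : FreeGroup (Fin R) ⧸ P) :
    M.bd P ν v = ∑ x, ν (v, x) - ∑ x, ν (of x • v, x) * M.u (of x) := by
  classical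
  induction ν using Finsupp.induction_linear with
  | zero => simp
  | add f g hf hg =>
    rw [map_add, Finsupp.add_apply, hf, hg]
    simp only [Finsupp.add_apply, add_mul, Finset.sum_add_distrib]
    abel
  | single a d =>
    obtain ⟨w, y⟩ := a
    rw [M.bd_single, Finsupp.sub_apply]
    congr 1
    · rw [Finset.sum_eq_single y]
      · by_cases h : w = v
        · subst h
          simp
        · rw [Finsupp.single_eq_of_ne (fun h1 => h h1.symm), Finsupp.single_eq_of_ne]
          intro h1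
          exact h (Prod.mk.inj h1).1.symm
      · intro x _ hx
        rw [Finsupp.single_eq_of_ne]
        intro h1
        exact hx (Prod.mk.inj h1).2
      · simp
    · rw [Finset.sum_eq_single y]
      · by_cases h : (of y)⁻¹ • w = v
        · subst h
          simp
        · rw [Finsupp.single_eq_of_ne (fun h1 => h h1.symm), Finsupp.single_eq_of_ne, zero_mul]
          intro h1
          apply h
          rw [← (Prod.mk.inj h1).1, inv_smul_smul]
      · intro x _ hx
        rw [Finsupp.single_eq_of_ne, zero_mul]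
        intro h1
        exact hx (Prod.mk.inj h1).2
      · simp

theorem finite_supp {P : Subgroup (FreeGroup (Fin R))}
    (ν : ((FreeGroup (Fin R) ⧸ P) × Fin R) →₀ D) :
    {v | ∃ x, ν (v, x) ≠ 0}.Finite := by
  refine (ν.support.finite_toSet.image Prod.fst).subset ?_
  rintro v ⟨x, hx⟩
  exact ⟨(v, x), by simpa using hx, rfl⟩

theorem aug_apply (P : Subgroup (FreeGroup (Fin R)))
    (ν : ((FreeGroup (Fin R) ⧸ P) × Fin R) →₀ D) (x : Fin R) :
    M.aug P ν x = ∑ᶠ v, ν (v, x) := by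
  classical
  have hfin : ∀ ν : ((FreeGroup (Fin R) ⧸ P) × Fin R) →₀ D,
      (Function.support fun v => ν (v, x)).Finite := fun ν =>
    (finite_supp ν).subset fun v hv => ⟨x, hv⟩
  induction ν using Finsupp.induction_linear with
  | zero => simp
  | add f g hf hg =>
    rw [map_add, Pi.add_apply, hf, hg]
    simp only [Finsupp.add_apply]
    rw [finsum_add_distrib (hfin f) (hfin g)]
  | single a d =>
    obtain ⟨w, y⟩ := a
    rw [aug, Finsupp.linearCombination_single, Pi.smul_apply, smul_eq_mul,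
      finsum_eq_single _ w]
    · by_cases h : x = y
      · subst h
        simp
      · rw [Pi.single_eq_of_ne h, mul_zero, Finsupp.single_eq_of_ne]
        intro h1
        exact h (Prod.mk.inj h1).2
    · intro v hv
      rw [Finsupp.single_eq_of_ne]
      intro h1
      exact hv (Prod.mk.inj h1).1

section

variable {P : Subgroup (FreeGroup (Fin R))} (ν : ((FreeGroup (Fin R) ⧸ P) × Fin R) →₀ D)

/-- The test functions. -/
def TG : Set ((FreeGroup (Fin R) ⧸ P) → ZMod 2) :=
  {p | ∀ (g a : FreeGroup (Fin R)) (x : Fin R), ∑ᶠ v, M.co (ν (v, x)) a * p (g • v) = 0}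

theorem fin_aux (x : Fin R) (a : FreeGroup (Fin R)) (q : FreeGroup (Fin R) ⧸ P → ZMod 2) :
    (Function.support fun v => M.co (ν (v, x)) a * q v).Finite := by
  refine (finite_supp ν).subset ?_
  intro v hv
  refine ⟨x, fun h0 => hv ?_⟩
  simp only
  rw [h0, M.co_zero, zero_mul]

theorem TG_add {p q : FreeGroup (Fin R) ⧸ P → ZMod 2} (hp : p ∈ M.TG ν) (hq : q ∈ M.TG ν) :
    (fun v => p v + q v) ∈ M.TG ν := by
  intro g a x
  simp only [mul_add]
  rw [finsum_add_distrib (M.fin_aux ν x a fun v => p (g • v))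
    (M.fin_aux ν x a fun v => q (g • v)), hp g a x, hq g a x, add_zero]

theorem TG_translate {p : FreeGroup (Fin R) ⧸ P → ZMod 2} (hp : p ∈ M.TG ν)
    (g0 : FreeGroup (Fin R)) : (fun v => p (g0 • v)) ∈ M.TG ν := by
  intro g a x
  have := hp (g0 * g) a x
  simp only [mul_smul] at this
  exact this

variable {φ : (Fin R → D) →ₗ[D] D}

theorem TG_key (h1 : ∀ v, ∑ x, ν (v, x) = ∑ x, ν (of x • v, x) * M.u (of x))
    (hφ : M.Van P φ) {p : FreeGroup (Fin R) ⧸ P → ZMod 2} (hp : p ∈ M.TG ν)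
    (h' a : FreeGroup (Fin R)) (x : Fin R) :
    ∑ᶠ v, M.co (ν (v, x)) a * (M.lam P φ h' v * p (a • v)) = 0 := by
  set f := a * h' with hf
  let c : Fin R → FreeGroup (Fin R) → ZMod 2 := fun x g =>
    ∑ᶠ v, M.co (ν (v, x)) g * (M.lam P φ (g⁻¹ * f) v * p (g • v))
  have hcfin : {q : Fin R × FreeGroup (Fin R) | c q.1 q.2 ≠ 0}.Finite := by
    have h2 : ∀ a ∈ ν.support, {g | M.co (ν a) g ≠ 0 ∧
        M.co (φ (M.δ a.1.out)) (g⁻¹ * f) ≠ 0}.Finite :=
      fun a _ => M.fin (ν a) (φ (M.δ a.1.out)) f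
    have h3 := Set.Finite.biUnion ν.support.finite_toSet
      (t := fun a => (fun g => (a.2, g)) '' {g | M.co (ν a) g ≠ 0 ∧
        M.co (φ (M.δ a.1.out)) (g⁻¹ * f) ≠ 0}) (fun a ha => (h2 a ha).image _)
    refine h3.subset ?_
    rintro ⟨x, g⟩ hg
    have hex : ∃ v, M.co (ν (v, x)) g * (M.lam P φ (g⁻¹ * f) v * p (g • v)) ≠ 0 := by
      by_contra hno
      push Not at hno
      exact hg (by
        change (∑ᶠ v, M.co (ν (v, x)) g * (M.lam P φ (g⁻¹ * f) v * p (g • v))) = 0
        rw [finsum_congr hno, finsum_zero])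
    obtain ⟨v, hv⟩ := hex
    have e1 := mul_ne_zero_iff.1 hv
    have e2 := mul_ne_zero_iff.1 e1.2
    simp only [Set.mem_iUnion]
    refine ⟨(v, x), ?_, g, ⟨e1.1, e2.1⟩, rfl⟩
    simp only [Finset.mem_coe, Finsupp.mem_support_iff]
    intro h0
    apply e1.1
    rw [h0, M.co_zero]
  have hcyc : ∀ g, ∑ x, c x g = ∑ x, c x (g * (of x)⁻¹) := by
    intro g
    have hco : ∀ v, ∑ x, M.co (ν (v, x)) g = ∑ x, M.co (ν (of x • v, x)) (g * (of x)⁻¹) := by
      intro v
      have := congrArg (fun d => M.co d g) (h1 v)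
      simp only [M.co_sum, M.co_mul_u] at this
      exact this
    have hL : ∑ x, c x g =
        ∑ᶠ v, ∑ x, M.co (ν (v, x)) g * (M.lam P φ (g⁻¹ * f) v * p (g • v)) := by
      rw [finsum_sum_comm]
      intro x _
      exact M.fin_aux ν x g fun v => M.lam P φ (g⁻¹ * f) v * p (g • v)
    have hfin2 : ∀ x, (Function.support fun v => M.co (ν (of x • v, x))
        (g * (of x)⁻¹) * (M.lam P φ (g⁻¹ * f) v * p (g • v))).Finite := by
      intro x
      have h3 := (M.fin_aux ν x (g * (of x)⁻¹) (fun _ => 1)).preimage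
        (MulAction.injective (of x)).injOn
      refine h3.subset ?_
      intro v hv h0
      apply hv
      simp only [mul_one] at h0 ⊢
      rw [h0, zero_mul]
    have hR : ∑ᶠ v, ∑ x, M.co (ν (v, x)) g * (M.lam P φ (g⁻¹ * f) v * p (g • v)) =
        ∑ x, ∑ᶠ v, M.co (ν (of x • v, x)) (g * (of x)⁻¹) *
          (M.lam P φ (g⁻¹ * f) v * p (g • v)) := by
      rw [← finsum_sum_comm _ _ fun x _ => hfin2 x]
      refine finsum_congr fun v => ?_
      rw [← Finset.sum_mul, ← Finset.sum_mul, hco v]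
    rw [hL, hR]
    refine Finset.sum_congr rfl fun x _ => ?_
    have e3 := finsum_comp_equiv (MulAction.toPerm (of x) : Equiv.Perm (FreeGroup (Fin R) ⧸ P))
      (f := fun w => M.co (ν (w, x)) (g * (of x)⁻¹) *
        (M.lam P φ (g⁻¹ * f) ((of x)⁻¹ • w) * p (g • (of x)⁻¹ • w)))
    simp only [MulAction.toPerm_apply, inv_smul_smul] at e3
    rw [e3]
    have e4 : ∀ w, M.co (ν (w, x)) (g * (of x)⁻¹) *
        (M.lam P φ (g⁻¹ * f) ((of x)⁻¹ • w) * p (g • (of x)⁻¹ • w)) =
        M.co (φ (M.δ (of x)⁻¹)) (g⁻¹ * f) *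
          (M.co (ν (w, x)) (g * (of x)⁻¹) * p ((g * (of x)⁻¹) • w)) +
        M.co (ν (w, x)) (g * (of x)⁻¹) *
          (M.lam P φ ((g * (of x)⁻¹)⁻¹ * f) w * p ((g * (of x)⁻¹) • w)) := by
      intro w
      rw [M.lam_smul hφ, ← mul_smul]
      have e5 : ((of x)⁻¹)⁻¹ * (g⁻¹ * f) = (g * (of x)⁻¹)⁻¹ * f := by group
      rw [e5]
      ring
    rw [finsum_congr e4, finsum_add_distrib, ← mul_finsum, hp _ _ x, mul_zero, zero_add]
    · have e6 := M.fin_aux ν x (g * (of x)⁻¹)
        fun w => M.co (φ (M.δ (of x)⁻¹)) (g⁻¹ * f) * p ((g * (of x)⁻¹) • w)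
      refine e6.subset ?_
      intro w hw h0
      apply hw
      simp only at h0 ⊢
      linear_combination h0
    · exact M.fin_aux ν x (g * (of x)⁻¹)
        fun w => M.lam P φ ((g * (of x)⁻¹)⁻¹ * f) w * p ((g * (of x)⁻¹) • w)
  have hc := cayley_cycle c hcfin hcyc x a
  have e7 : a⁻¹ * f = h' := by rw [hf]; group
  simp only [c, e7] at hc
  exact hc

theorem TG_lam (h1 : ∀ v, ∑ x, ν (v, x) = ∑ x, ν (of x • v, x) * M.u (of x))
    (hφ : M.Van P φ) {p : FreeGroup (Fin R) ⧸ P → ZMod 2} (hp : p ∈ M.TG ν)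
    (h : FreeGroup (Fin R)) : (fun v => M.lam P φ h v * p v) ∈ M.TG ν := by
  intro g a x
  have e1 : ∀ v, M.co (ν (v, x)) a * (M.lam P φ h (g • v) * p (g • v)) =
      M.co (φ (M.δ g)) h * (M.co (ν (v, x)) a * p (g • v)) +
      M.co (ν (v, x)) a * (M.lam P φ (g⁻¹ * h) v * (fun v => p ((g * a⁻¹) • v)) (a • v)) := by
    intro v
    rw [M.lam_smul hφ]
    simp only
    rw [← mul_smul, inv_mul_cancel_right]
    ring
  have e2 := M.TG_key ν h1 hφ (M.TG_translate ν hp (g * a⁻¹)) (g⁻¹ * h) a x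
  change ∑ᶠ v, M.co (ν (v, x)) a * (M.lam P φ h (g • v) * p (g • v)) = 0
  rw [finsum_congr e1, finsum_add_distrib, ← mul_finsum, hp g a x, mul_zero, zero_add]
  · exact e2
  · have e6 := M.fin_aux ν x a fun w => M.co (φ (M.δ g)) h * p (g • w)
    refine e6.subset ?_
    intro w hw h0
    apply hw
    simp only at h0 ⊢
    linear_combination h0
  · exact M.fin_aux ν x a
      fun v => M.lam P φ (g⁻¹ * h) v * (fun v => p ((g * a⁻¹) • v)) (a • v)

end

theorem inj_lemma {P : Subgroup (FreeGroup (Fin R))} (hP : M.Closed P)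
    (ν : ((FreeGroup (Fin R) ⧸ P) × Fin R) →₀ D) (h1 : M.bd P ν = 0) (h2 : M.aug P ν = 0) :
    ν = 0 := by
  classical
  have h1' : ∀ v, ∑ x, ν (v, x) = ∑ x, ν (of x • v, x) * M.u (of x) := by
    intro v
    have h3 := M.bd_apply P ν v
    rw [h1, Finsupp.zero_apply] at h3
    exact (sub_eq_zero.1 h3.symm)
  have hone : (fun _ => 1 : FreeGroup (Fin R) ⧸ P → ZMod 2) ∈ M.TG ν := by
    intro g a x
    have h3 := M.aug_apply P ν x
    rw [h2, Pi.zero_apply] at h3
    have e1 := congrArg (M.coHom a) h3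
    have hf : (Function.support fun v => ν (v, x)).Finite :=
      (finite_supp ν).subset fun v hv => ⟨x, hv⟩
    rw [AddMonoidHom.map_finsum _ hf, map_zero] at e1
    simp only [mul_one]
    exact e1.symm
  ext ⟨v, x⟩
  rw [Finsupp.zero_apply]
  obtain ⟨p, hp, hp1, hpN⟩ := M.exists_sep hP (M.TG ν) hone
    (fun p hp q hq => M.TG_add ν hp hq) (fun p hp φ hφ h => M.TG_lam ν h1' hφ hp h)
    (finite_supp ν).toFinset v
  apply M.ext'
  intro a
  have e1 := hp 1 a x
  rw [finsum_eq_single _ v] at e1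
  · rw [one_smul, hp1, mul_one] at e1
    rw [e1, M.co_zero]
  · intro w hw
    rw [one_smul]
    by_cases h0 : ν (w, x) = 0
    · rw [h0, M.co_zero, zero_mul]
    · rw [hpN w ((finite_supp ν).mem_toFinset.2 ⟨x, h0⟩) hw, mul_zero]

end MN

end Pool.Agent.Helper72.BH
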