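import Pool.Agent.Helper72.BH.Fox

/-!
# The functions `lam φ h` on `F ⧸ P`

`P` is a subgroup, `φ` a linear form on `Fin R → D` that vanishes on `V P`. The function
`lam φ h (g P) = co (φ (δ g)) h` on the left cosets is well defined, as `δ (g p) = δ g + u g • δ p`.
-/

set_option autoImplicit false

namespace Pool.Agent.Helper72.BH

open FreeGroup (of)

namespace MN

variable {R : ℕ} {D : Type} [DivisionRing D] (M : MN R D)

/-- The coefficients of the linear form `φ` on the vectors `δ g`, as a function of the coset `g P`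
(an arbitrary representative is used). -/
noncomputable def lam (P : Subgroup (FreeGroup (Fin R))) (φ : (Fin R → D) →ₗ[D] D)
    (h : FreeGroup (Fin R)) (v : FreeGroup (Fin R) ⧸ P) : ZMod 2 :=
  M.co (φ (M.δ v.out)) h

/-- `φ` vanishes on `V P`. -/
def Van (P : Subgroup (FreeGroup (Fin R))) (φ : (Fin R → D) →ₗ[D] D) : Prop :=
  ∀ v ∈ M.V (P : Set (FreeGroup (Fin R))), φ v = 0

/-- `g` and `v.out` differ by an element of `P`. -/
theorem lam_mk {P : Subgroup (FreeGroup (Fin R))} {φ : (Fin R → D) →ₗ[D] D} (hφ : M.Van P φ)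
    (h g : FreeGroup (Fin R)) :
    M.lam P φ h (g : FreeGroup (Fin R) ⧸ P) = M.co (φ (M.δ g)) h := by
  obtain ⟨p, hp⟩ := QuotientGroup.mk_out_eq_mul P g
  rw [lam, hp, M.δ_mul, map_add, map_smul]
  have h0 : φ (M.δ (p : FreeGroup (Fin R))) = 0 := hφ _ (M.δ_mem_V p.2)
  rw [h0, smul_zero, add_zero]

theorem lam_smul {P : Subgroup (FreeGroup (Fin R))} {φ : (Fin R → D) →ₗ[D] D} (hφ : M.Van P φ)
    (h g : FreeGroup (Fin R)) (v : FreeGroup (Fin R) ⧸ P) :
    M.lam P φ h (g • v) = M.co (φ (M.δ g)) h + M.lam P φ (g⁻¹ * h) v := by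
  obtain ⟨f, rfl⟩ := QuotientGroup.mk_surjective v
  have e1 : g • (f : FreeGroup (Fin R) ⧸ P) =
      ((g * f : FreeGroup (Fin R)) : FreeGroup (Fin R) ⧸ P) := rfl
  rw [e1, M.lam_mk hφ, M.lam_mk hφ, M.δ_mul, map_add, map_smul, M.co_add, smul_eq_mul,
    M.co_u_mul]

/-- Two different cosets of a closed subgroup are separated by some `lam φ h`: `δ g - δ g' ∉ V P`, take `φ`
with `φ (V P) = 0` and `φ (δ g - δ g') ≠ 0` (`Submodule.exists_le_ker_of_notMem` or a complement of
`V P`), and `h` with `co (φ (δ g)) h ≠ co (φ (δ g')) h`. -/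
theorem lam_sep {P : Subgroup (FreeGroup (Fin R))} (hP : M.Closed P)
    {v v' : FreeGroup (Fin R) ⧸ P} (hv : v ≠ v') :
    ∃ φ, M.Van P φ ∧ ∃ h, M.lam P φ h v ≠ M.lam P φ h v' := by
  have hnot : M.δ v.out - M.δ v'.out ∉ M.V (P : Set (FreeGroup (Fin R))) := by
    intro hmem
    have e1 : M.δ v.out = M.δ v'.out + M.u v'.out • M.δ (v'.out⁻¹ * v.out) := by
      rw [← M.δ_mul]
      congr 1
      group
    rw [e1, add_sub_cancel_left] at hmem
    have e2 := Submodule.smul_mem _ (M.u (v'.out)⁻¹) hmem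
    rw [smul_smul, ← map_mul, inv_mul_cancel, map_one, one_smul] at e2
    have e3 := hP _ e2
    have e4 : (v'.out : FreeGroup (Fin R) ⧸ P) = (v.out : FreeGroup (Fin R) ⧸ P) :=
      QuotientGroup.eq.2 e3
    rw [QuotientGroup.out_eq', QuotientGroup.out_eq'] at e4
    exact hv e4.symm
  obtain ⟨φ, hφ1, hφ⟩ := Submodule.exists_le_ker_of_notMem hnot
  refine ⟨φ, fun w hw => hφ hw, ?_⟩
  by_contra hno
  push Not at hno
  apply hφ1
  apply M.ext'
  intro h
  rw [map_sub, M.co_sub, M.co_zero, sub_eq_zero]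
  exact hno h

/-- A set of functions on `F ⧸ P` that contains `1` and is closed under sums and under multiplication by all `lam φ h`
contains for each `v` and each finite set `N` a function that is `1` at `v` and `0` on `N \ {v}`
(the product over `v' ∈ N \ {v}` of `lam φ h - lam φ h v'`, `φ`, `h` from `lam_sep`; `ZMod 2` has
only the scalars `0`, `1`). -/
theorem exists_sep {P : Subgroup (FreeGroup (Fin R))} (hP : M.Closed P)
    (GG : Set ((FreeGroup (Fin R) ⧸ P) → ZMod 2)) (h1 : (fun _ => 1) ∈ GG)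
    (hadd : ∀ p ∈ GG, ∀ q ∈ GG, (fun v => p v + q v) ∈ GG)
    (hmul : ∀ p ∈ GG, ∀ φ, M.Van P φ → ∀ h, (fun v => M.lam P φ h v * p v) ∈ GG)
    (N : Finset (FreeGroup (Fin R) ⧸ P)) (v : FreeGroup (Fin R) ⧸ P) :
    ∃ p ∈ GG, p v = 1 ∧ ∀ v' ∈ N, v' ≠ v → p v' = 0 := by
  classical
  have h01 : ∀ a : ZMod 2, a ≠ 0 → a = 1 := by decide
  have h2 : ∀ a b c : ZMod 2, a * c + b * c = (a - b) * c := by decide
  have h3 : ∀ a b : ZMod 2, a ≠ b → a - b ≠ 0 := by decide
  have hsm : ∀ (c : ZMod 2), ∀ p ∈ GG, (fun w => c * p w) ∈ GG := by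
    intro c p hp
    have h4 : c = 0 ∨ c = 1 := by
      revert c
      decide
    rcases h4 with rfl | rfl
    · have h5 := hadd p hp p hp
      have h6 : (fun w => (0 : ZMod 2) * p w) = fun w => p w + p w := by
        funext w
        rw [zero_mul, CharTwo.add_self_eq_zero]
      rw [h6]
      exact h5
    · have h6 : (fun w => (1 : ZMod 2) * p w) = p := by
        funext w
        rw [one_mul]
      rw [h6]
      exact hp
  induction N using Finset.induction_on with
  | empty => exact ⟨_, h1, rfl, by simp⟩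
  | insert v1 N hv1 ih =>
    obtain ⟨p, hp, hp0, hpN⟩ := ih
    by_cases hvv : v1 = v
    · refine ⟨p, hp, hp0, ?_⟩
      intro v' hv' hne
      rcases Finset.mem_insert.1 hv' with h | h
      · exact absurd (h.trans hvv) hne
      · exact hpN v' h hne
    · obtain ⟨φ, hφ, h, hh⟩ := M.lam_sep hP (Ne.symm hvv)
      refine ⟨fun w => M.lam P φ h w * p w + M.lam P φ h v1 * p w,
        hadd _ (hmul p hp φ hφ h) _ (hsm _ p hp), ?_, ?_⟩
      · simp only
        rw [h2, hp0, mul_one]
        exact h01 _ (h3 _ _ hh)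
      · intro v' hv' hne
        simp only
        rw [h2]
        rcases Finset.mem_insert.1 hv' with h4 | h4
        · rw [h4, sub_self, zero_mul]
        · rw [hpN v' h4 hne, mul_zero]

end MN

end Pool.Agent.Helper72.BH
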