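import Pool.Agent.Helper72.BH.Fin

/-!
# The free group of countable rank

The inclusion of `F_m` in `F_m'` preserves the truth of the formulas of bounded quantifier rank with a bounded number of
parameters, if `m` is large. So this is true for the inclusion in the union `FreeGroup ℕ` as well.
-/

set_option autoImplicit false

namespace Pool.Agent.Helper72.BH

open FirstOrder
open FreeGroup (of)
open Pool.Agent.Helper22.OR (Gen)
open Pool.Agent.Helper32.OR (grpLang qr Eqv sentence_iff_of_eqv)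

/-- The inclusion of free groups. -/
def inc {m m' : ℕ} (h : m ≤ m') : FreeGroup (Fin m) →* FreeGroup (Fin m') :=
  FreeGroup.map (Fin.castLE h)

theorem inc_inj {m m' : ℕ} (h : m ≤ m') : Function.Injective (inc h) :=
  FreeGroup.map_injective (Fin.castLE_injective h)

theorem inc_range {m m' : ℕ} (h : m ≤ m') : (inc h).range =
    Subgroup.closure (of '' (Set.range (Fin.castLE h))) := by
  rw [MonoidHom.range_eq_map, ← FreeGroup.closure_range_of, MonoidHom.map_closure,
    ← Set.range_comp, ← Set.range_comp]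
  rfl

theorem filledLe_map {G G' : Type} [Group G] [Group G'] {N : ℕ} {H A : Subgroup G} (φ : G →* G')
    (hφ : Function.Injective φ) (h : FilledLe N H A) : FilledLe N (H.map φ) (A.map φ) := by
  obtain ⟨k, hk, h⟩ := h
  exact ⟨k, hk, filled_map φ (fun x _ hx => (injective_iff_map_eq_one φ).1 hφ x hx) h⟩

theorem hull_inc {m m' : ℕ} (h : m ≤ m') (N : ℕ) (H : Subgroup (FreeGroup (Fin m))) :
    hull N (H.map (inc h)) = (hull N H).map (inc h) := by
  apply le_antisymm
  · apply sSup_le
    rintro A ⟨k, hk, hA⟩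
    have h1 : A ≤ (inc h).range := by
      rw [inc_range]
      apply filled_letters hA
      rw [← inc_range]
      exact Subgroup.map_le_range _ _
    have h2 := filled_comap (inc h) (inc_inj h) h1 hA
    rw [Subgroup.comap_map_eq_self_of_injective (inc_inj h)] at h2
    have h3 : (A.comap (inc h)).map (inc h) = A := by
      rw [Subgroup.map_comap_eq, inf_eq_right]
      exact h1
    rw [← h3]
    exact Subgroup.map_mono (le_hull hk h2)
  · rw [Subgroup.map_le_iff_le_comap]
    apply sSup_le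
    intro A hA
    rw [← Subgroup.map_le_iff_le_comap]
    exact le_sSup (filledLe_map (inc h) (inc_inj h) hA)

theorem map_range_comp {G G' : Type} [Group G] [Group G'] {i : ℕ} (φ : G →* G') (x : Fin i → G) :
    (Subgroup.closure (Set.range x)).map φ = Subgroup.closure (Set.range (φ ∘ x)) := by
  rw [MonoidHom.map_closure, ← Set.range_comp]

theorem sim_inc {K N m m' : ℕ} (h : m ≤ m') (hG : Tame (FreeGroup (Fin m)) K)
    (hK : bhl N + N ≤ K) {i : ℕ} (hi : i ≤ N) (x : Fin i → FreeGroup (Fin m)) :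
    Sim N x (inc h ∘ x) := by
  have hg : Gen i (Subgroup.closure (Set.range x)) := ⟨x, rfl⟩
  have h1 := hull_gen hG hK (hg.mono hi).fg
  obtain ⟨j, -, ⟨e⟩⟩ := hG.free _ (le_trans (Nat.le_add_right _ _) hK) _ h1
  have h2 : ∀ l, x l ∈ hull N (Subgroup.closure (Set.range x)) := fun l =>
    le_hull_self hG (le_trans (Nat.le_add_left _ _) hK) (hg.mono hi)
      (Subgroup.subset_closure ⟨l, rfl⟩)
  have hinj : Function.Injective
      ((hull N (Subgroup.closure (Set.range x))).subtype.comp e.toMonoidHom) := by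
    intro a b hab
    exact e.injective (Subtype.ext hab)
  have hrange : ((hull N (Subgroup.closure (Set.range x))).subtype.comp e.toMonoidHom).range =
      hull N (Subgroup.closure (Set.range x)) := by
    rw [MonoidHom.range_comp]
    have : e.toMonoidHom.range = ⊤ := MonoidHom.range_eq_top.2 e.surjective
    rw [this, ← MonoidHom.range_eq_map, Subgroup.range_subtype]
  refine ⟨j, _, (inc h).comp _, hinj, (inc_inj h).comp hinj, hrange, ?_,
    fun l => e.symm ⟨x l, h2 l⟩, ?_, ?_⟩
  · rw [MonoidHom.range_comp, hrange, ← map_range_comp, hull_inc]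
  · intro l
    simp
  · intro l
    simp

theorem eqv_inc (q i : ℕ) : ∃ K : ℕ, ∀ (m m' : ℕ) (h : m ≤ m'), K ≤ m →
    ∀ x : Fin i → FreeGroup (Fin m), Eqv (FreeGroup (Fin m)) (FreeGroup (Fin m')) q i x
      (inc h ∘ x) := by
  obtain ⟨N, K, hiN, hK⟩ := eqv_of_sim q i
  refine ⟨max K (bhl N + N) + 1, fun m m' h hm x => ?_⟩
  have h1 : Tame (FreeGroup (Fin m)) (max K (bhl N + N)) := tame_free _ _ hm
  have h2 : Tame (FreeGroup (Fin m')) (max K (bhl N + N)) := tame_free _ _ (hm.trans h)
  exact hK _ _ (h1.mono (le_max_left _ _)) (h2.mono (le_max_left _ _)) _ _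
    (sim_inc h h1 (le_max_right _ _) hiN x)

theorem Eqv.trans' {G H L : Type} [Group G] [Group H] [Group L] : ∀ (q i : ℕ) (x : Fin i → G)
    (y : Fin i → H) (z : Fin i → L), Eqv G H q i x y → Eqv H L q i y z → Eqv G L q i x z := by
  intro q
  induction q with
  | zero =>
    intro i x y z h1 h2 w
    exact (h1 w).trans (h2 w)
  | succ q ih =>
    intro i x y z h1 h2
    refine ⟨fun a => ?_, fun c => ?_⟩
    · obtain ⟨b, hb⟩ := h1.1 a
      obtain ⟨c, hc⟩ := h2.1 b
      exact ⟨c, ih _ _ _ _ hb hc⟩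
    · obtain ⟨b, hb⟩ := h2.2 c
      obtain ⟨a, ha⟩ := h1.2 b
      exact ⟨a, ih _ _ _ _ ha hb⟩

/-- The inclusion in the free group of countable rank. -/
def incω (m : ℕ) : FreeGroup (Fin m) →* FreeGroup ℕ := FreeGroup.map (fun i : Fin m => (i : ℕ))

theorem incω_inj (m : ℕ) : Function.Injective (incω m) :=
  FreeGroup.map_injective Fin.val_injective

theorem incω_inc {m m' : ℕ} (h : m ≤ m') (w : FreeGroup (Fin m)) :
    incω m' (inc h w) = incω m w := by
  unfold incω inc
  rw [FreeGroup.map.comp]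
  rfl

theorem exists_incω (w : FreeGroup ℕ) : ∃ m, ∀ m', m ≤ m' → w ∈ (incω m').range := by
  induction w using FreeGroup.induction_on with
  | C1 => exact ⟨0, fun _ _ => Subgroup.one_mem _⟩
  | of k =>
    refine ⟨k + 1, fun m' hm => ⟨of ⟨k, by omega⟩, ?_⟩⟩
    simp [incω]
  | inv_of k _ =>
    refine ⟨k + 1, fun m' hm => ⟨(of ⟨k, by omega⟩)⁻¹, ?_⟩⟩
    simp [incω]
  | mul a b ha hb =>
    obtain ⟨m1, h1⟩ := ha
    obtain ⟨m2, h2⟩ := hb
    exact ⟨max m1 m2, fun m' hm => Subgroup.mul_mem _ (h1 _ (le_trans (le_max_left _ _) hm))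
      (h2 _ (le_trans (le_max_right _ _) hm))⟩

theorem snoc_comp {A B : Type} (f : A → B) {i : ℕ} (x : Fin i → A) (a : A) :
    f ∘ (Fin.snoc x a : Fin (i + 1) → A) = (Fin.snoc (f ∘ x) (f a) : Fin (i + 1) → B) := by
  funext l
  refine Fin.lastCases ?_ (fun l => ?_) l
  · simp
  · simp

theorem eqv_omega (q : ℕ) : ∀ i : ℕ, ∃ K : ℕ, ∀ m, K ≤ m → ∀ x : Fin i → FreeGroup (Fin m),
    Eqv (FreeGroup (Fin m)) (FreeGroup ℕ) q i x (incω m ∘ x) := by
  induction q with
  | zero =>
    intro i
    refine ⟨0, fun m _ x w => ?_⟩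
    have h1 : FreeGroup.lift (incω m ∘ x) = (incω m).comp (FreeGroup.lift x) := by
      ext l
      simp
    rw [h1, MonoidHom.comp_apply, (injective_iff_map_eq_one' (incω m)).1 (incω_inj m)]
  | succ q ih =>
    intro i
    obtain ⟨K1, hK1⟩ := ih (i + 1)
    obtain ⟨K2, hK2⟩ := eqv_inc (q + 1) i
    refine ⟨max K1 K2, fun m hm x => ⟨fun a => ⟨incω m a, ?_⟩, fun b => ?_⟩⟩
    · rw [← snoc_comp]
      exact hK1 m (le_trans (le_max_left _ _) hm) _
    · obtain ⟨m1, hm1⟩ := exists_incω b
      obtain ⟨b', rfl⟩ := hm1 (max m m1) (le_max_right _ _)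
      have h1 := hK2 m (max m m1) (le_max_left _ _) (le_trans (le_max_right _ _) hm) x
      obtain ⟨a, ha⟩ := h1.2 b'
      refine ⟨a, Eqv.trans' _ _ _ _ _ ha ?_⟩
      have h2 := hK1 (max m m1) ((le_trans (le_max_left _ _) hm).trans (le_max_left _ _))
        (Fin.snoc (inc (le_max_left m m1) ∘ x) b')
      rw [snoc_comp] at h2
      have h3 : incω (max m m1) ∘ (inc (le_max_left m m1) ∘ x) = incω m ∘ x := by
        funext l
        exact incω_inc _ _
      rw [h3] at h2
      exact h2

/-- `F_m` and the free group of countable rank satisfy the same sentences of quantifier rank at most `q`, for all large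
`m`. -/
theorem free_omega (q : ℕ) : ∃ K : ℕ, ∀ m, K ≤ m → ∀ φ : grpLang.Sentence, qr φ ≤ q →
    (FreeGroup (Fin m) ⊨ φ ↔ FreeGroup ℕ ⊨ φ) := by
  obtain ⟨K, hK⟩ := eqv_omega q 0
  refine ⟨K, fun m hm φ hφ => sentence_iff_of_eqv q ?_ φ hφ⟩
  exact eqv_any q (hK m hm default)

end Pool.Agent.Helper72.BH
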