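import Pool.Agent.Helper32.HL.RespB

/-!
# The second half of the game step: the answer

Let `H = ⟨x⟩`, `H' = ⟨x, a⟩`, `L = ⟨y⟩`, `Sim N x y` with `N ≥ T0`, given by `φ`, `ψ`, `w`; `θ = ψ ∘ φ⁻¹ : hull N H → hull N L`. Let
`T, p, q, α, β` be as in `stabilize`, `P = ⟨α⟩ ≤ hull N H`, `α' = θ α`, `y'` generic elements for `q`, `T`, `L` (`Tame.gen` of `G'`).
`a = lift (append α β) v` (`a ∈ hull N' H' ≤ M`), `b := lift (append α' y') v`, `L' = ⟨y, b⟩`,
`M' = ⟨α'⟩ ⊔ ⟨y'⟩`. The inclusion of the hull of `L'` in `M'` is `crux`.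
-/

set_option autoImplicit false

namespace Pool.Agent.Helper72.BH

open FreeGroup (of lift)
open Pool.Agent.Helper22.OR (Gen)
open Pool.Agent.Helper32.HL
open Function (Injective)

theorem hull_map {G G' : Type} [Group G] [Group G'] {N i : ℕ} {ρ : G →* G'} (hρ : Injective ρ)
    (S : Fin i → G)
    (h : ∀ A : Subgroup G', FilledLe N (tup (ρ ∘ S)) A → A ≤ ρ.range) :
    hull N (tup (ρ ∘ S)) = (hull N (tup S)).map ρ := by
  apply le_antisymm
  · refine sSup_le fun A hA => ?_
    have h1 : (A.comap ρ).map ρ = A := Subgroup.map_comap_eq_self (h A hA)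
    rw [← h1]
    apply Subgroup.map_mono
    apply le_sSup
    have h2 : FilledLe N ((tup S).map ρ) ((A.comap ρ).map ρ) := by
      rw [h1, tup_map]
      exact hA
    exact (filledLe_map_iff hρ _ _).1 h2
  · rw [Subgroup.map_le_iff_le_comap]
    refine sSup_le fun B hB => ?_
    rw [← Subgroup.map_le_iff_le_comap]
    apply le_sSup
    have h2 := (filledLe_map_iff hρ _ _).2 hB
    rw [tup_map] at h2
    exact h2

theorem game_step (N' : ℕ) : ∃ N K : ℕ, N' ≤ N ∧ ∀ (G G' : Type) [Group G] [Group G'],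
    Tame G K → Tame G' K → ∀ (i : ℕ) (_ : i + 1 ≤ N') (x : Fin i → G) (y : Fin i → G'),
    Sim N x y → ∀ a : G, ∃ b : G',
      Sim N' (Fin.snoc x a : Fin (i + 1) → G) (Fin.snoc y b : Fin (i + 1) → G') := by
  obtain ⟨T0, K0, hstab⟩ := stabilize N'
  refine ⟨max N' T0, K0 + (bhl N' + N') + (bhl N' * (T0 + 1) + (T0 + 1)), le_max_left _ _, ?_⟩
  intro G G' _ _ hG hG' i hi x y ⟨r, φ, ψ, hφ, hψ, hφr, hψr, w, hφw, hψw⟩ a
  obtain rfl : φ ∘ w = x := funext hφw
  obtain rfl : ψ ∘ w = y := funext hψw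
  have hGK : Tame G K0 := by
    refine ⟨fun k hk => hG.free k (by omega), fun N hN => hG.fin N (by omega), fun q T h1 h2 =>
      hG.gen q T (by omega) (by omega)⟩
  have hH' : Gen N' (tup (Fin.snoc (φ ∘ w) a : Fin (i + 1) → G)) :=
    Gen.mono hi ⟨_, rfl⟩
  have hHH' : tup (φ ∘ w) ≤ tup (Fin.snoc (φ ∘ w) a : Fin (i + 1) → G) := by
    apply Subgroup.closure_mono
    rintro _ ⟨t, rfl⟩
    exact ⟨t.castSucc, by simp⟩
  obtain ⟨T, p, q, α', β, hT, hq, hpq, hinj, hfill, hhull, hfill', hst⟩ :=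
    hstab G hGK (tup (φ ∘ w)) _ hH' hHH' (Gen.mono (by omega) ⟨_, rfl⟩)
  -- the coordinates of `α`
  have hα : ∀ t, ∃ g, φ g = α' t := by
    intro t
    have h1 : tup α' ≤ φ.range := by
      rw [hφr]
      refine le_hull ?_ hfill
      have := le_max_right N' T0
      omega
    exact h1 (Subgroup.subset_closure ⟨t, rfl⟩)
  choose α hα using hα
  obtain rfl : φ ∘ α = α' := funext hα
  have hαfill : Filled p (tup w) (tup α) := by
    change Filled p (tup (φ ∘ w)) (tup (φ ∘ α)) at hfill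
    rw [← tup_map, ← tup_map] at hfill
    exact (filled_map_iff hφ _ _).1 hfill
  have hαinj : Injective (lift α) := by
    have h1 : lift (φ ∘ α) = (lift (Fin.append (φ ∘ α) β)).comp
        (FreeGroup.map (Fin.castAdd q)) := by
      ext t
      simp
    have h2 : Injective (lift (φ ∘ α)) := by
      rw [h1]
      exact hinj.comp (FreeGroup.map_injective (Fin.castAdd_injective p q))
    exact (lift_comp_inj hφ α).1 h2
  -- the generic elements
  have hqT : q * (T + 1) ≤ bhl N' * (T0 + 1) := Nat.mul_le_mul hq (by omega)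
  obtain ⟨z, hz⟩ := hG'.gen q T (by omega) (by omega) (tup (ψ ∘ w))
    (Gen.fg (k := i) ⟨_, rfl⟩)
  have hfillψ : Filled p (tup (ψ ∘ w)) (tup (ψ ∘ α)) := by
    rw [← tup_map, ← tup_map]
    exact (filled_map_iff hψ _ _).2 hαfill
  have hσ : Injective (lift (Fin.append (ψ ∘ α) z)) := by
    obtain ⟨c, a', hinj', hJ', hle⟩ := hz (tup (ψ ∘ α) ⊔ tup z)
      ((gen_sup ⟨_, rfl⟩ ⟨_, rfl⟩ : Gen (p + q) _).mono (by omega))
      (hfillψ.le.trans le_sup_left)
      (fun t => (le_sup_right : tup z ≤ _) (Subgroup.subset_closure ⟨t, rfl⟩))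
    have h1 : tup (ψ ∘ α) ≤ tup a' := by
      refine Pool.Agent.Helper32.HL.filled_sub hinj' hfillψ ?_ ?_ hle
      · rw [tup_append]
        change _ ≤ Subgroup.closure (Set.range a') ⊔ Subgroup.closure (Set.range z)
        rw [hJ']
        exact le_sup_left
      · rw [range_append]
        exact fun g hg => Or.inl hg
    exact free_append hinj' ((lift_comp_inj hψ α).2 hαinj)
      (fun t => h1 (Subgroup.subset_closure ⟨t, rfl⟩))
  -- the words
  have ha : a ∈ (lift (Fin.append (φ ∘ α) β)).range := by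
    rw [range_lift, tup_append]
    apply hhull
    apply le_hull_self hG (by omega) hH'
    exact Subgroup.subset_closure ⟨Fin.last i, by simp⟩
  obtain ⟨v, hv⟩ := ha
  have hu : ∀ t, ∃ u, lift α u = w t := by
    intro t
    have h1 : w t ∈ tup α := hαfill.le (Subgroup.subset_closure ⟨t, rfl⟩)
    rw [← range_lift] at h1
    exact h1
  choose u hu using hu
  have hword : ∀ {G1 : Type} [Group G1] (θ : FreeGroup (Fin r) →* G1) (z : Fin q → G1) (g : G1),
      lift (Fin.append (θ ∘ α) z) v = g →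
      (lift (Fin.append (θ ∘ α) z)) ∘ (Fin.snoc (fun t => FreeGroup.map (Fin.castAdd q) (u t)) v :
        Fin (i + 1) → FreeGroup (Fin (p + q))) = (Fin.snoc (θ ∘ w) g : Fin (i + 1) → G1) := by
    intro G1 _ θ z g hg
    funext t
    refine Fin.lastCases ?_ (fun t => ?_) t
    · simp [hg]
    · have h1 : lift (Fin.append (θ ∘ α) z) (FreeGroup.map (Fin.castAdd q) (u t)) =
          θ (lift α (u t)) := by
        rw [← MonoidHom.comp_apply, ← MonoidHom.comp_apply]
        congr 1
        ext s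
        simp
      simp [h1, hu]
  set S : Fin (i + 1) → FreeGroup (Fin (p + q)) :=
    Fin.snoc (fun t => FreeGroup.map (Fin.castAdd q) (u t)) v with hS
  have hSφ := hword φ β a hv
  have hSψ := hword ψ z _ rfl
  refine ⟨lift (Fin.append (ψ ∘ α) z) v, ?_⟩
  -- the hulls
  have hhull1 : hull N' (tup (lift (Fin.append (φ ∘ α) β) ∘ S)) ≤
      (lift (Fin.append (φ ∘ α) β)).range := by
    rw [range_lift, tup_append, hSφ]
    exact hhull
  have e1 : hull N' (tup (lift (Fin.append (φ ∘ α) β) ∘ S)) =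
      (hull N' (tup S)).map (lift (Fin.append (φ ∘ α) β)) :=
    hull_map hinj S (fun A hA => by
      have h1 : A ≤ hull N' (tup (lift (Fin.append (φ ∘ α) β) ∘ S)) := le_sSup hA
      exact h1.trans hhull1)
  have e2 : hull N' (tup (lift (Fin.append (ψ ∘ α) z) ∘ S)) =
      (hull N' (tup S)).map (lift (Fin.append (ψ ∘ α) z)) :=
    hull_map hσ S (fun A hA => crux hφ hψ hψr hpq (hT.trans (le_max_right _ _)) hαfill hst hz
      hhull1 hA)
  rw [hSφ] at e1
  rw [hSψ] at e2
  -- a basis of the hull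
  have hgen := hull_gen hG (N := N') (by omega) (Gen.fg hH')
  obtain ⟨j, -, ⟨E⟩⟩ := hG.free (bhl N') (by omega) _ hgen
  let E1 : FreeGroup (Fin j) ≃* hull N' (tup S) :=
    (E.trans (MulEquiv.subgroupCongr e1)).trans
      ((hull N' (tup S)).equivMapOfInjective _ hinj).symm
  let μ : FreeGroup (Fin j) →* FreeGroup (Fin (p + q)) :=
    (hull N' (tup S)).subtype.comp E1.toMonoidHom
  have hμ : Injective μ := (hull N' (tup S)).subtype_injective.comp E1.injective
  have hμr : μ.range = hull N' (tup S) := by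
    change ((hull N' (tup S)).subtype.comp E1.toMonoidHom).range = _
    rw [MonoidHom.range_comp, MonoidHom.range_eq_top.2 E1.surjective, ← MonoidHom.range_eq_map,
      Subgroup.range_subtype]
  have hSU : tup S ≤ hull N' (tup S) := by
    rw [← Subgroup.map_le_map_iff_of_injective hinj, ← e1, tup_map, hSφ]
    exact le_hull_self hG (by omega) hH'
  have hw' : ∀ t, ∃ g, μ g = S t := by
    intro t
    have h1 := hSU (Subgroup.subset_closure ⟨t, rfl⟩)
    rw [← hμr] at h1
    exact h1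
  choose w' hw' using hw'
  refine ⟨j, (lift (Fin.append (φ ∘ α) β)).comp μ, (lift (Fin.append (ψ ∘ α) z)).comp μ,
    hinj.comp hμ, hσ.comp hμ, ?_, ?_, w', ?_, ?_⟩
  · rw [MonoidHom.range_comp, hμr]
    exact e1.symm
  · rw [MonoidHom.range_comp, hμr]
    exact e2.symm
  · intro t
    rw [MonoidHom.comp_apply, hw']
    exact congrFun hSφ t
  · intro t
    rw [MonoidHom.comp_apply, hw']
    exact congrFun hSψ t

end Pool.Agent.Helper72.BH
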