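import Pool.Agent.Helper72.BH.Hull
import Pool.Agent.Helper24.HL.Stab

/-!
# The first half of the game step: a stable free splitting `M = P * ⟨β⟩`

`H = ⟨x⟩`, `H' = ⟨x, a⟩`. Start with `M = hull N' H'`, of rank at most `b = bhl N'`, `M = P * Q` with `P` filled by `H`
(`exists_factor`), `T = N' + b`. If for some `C` with `FilledLe T H C`, `P ≤ C`, and a basis `γ` of `C` the family
`γ ∪ β` is not free, let `J = C ⊔ Q = C ⊔ M`; it has at most `T + b` generators and is free; it is filled by `H'`
(`filled_join`: `M` is filled by `H'`, `C` by `H ≤ H'`). Let `J = C_J * Q_J`, `C_J` filled by `H` (`exists_factor`). `C ≤ C_J`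
(`filled_basis`). Claim: `rank Q_J < rank Q`. The quotient map `J → Q_J` (kill `C_J`) maps `Q` onto `Q_J`
(since `J = ⟨C, Q⟩`), so `rank Q_J ≤ rank Q`. If equality holds then `C_J * Q → J` (the homomorphism from the free group on
a basis of `C_J` and `β`) is onto (`C ≤ C_J`) and both groups have the same rank, so it is injective (`hopfian`, or
`basis_of_gen`), and by `free_append` `γ ∪ β` is free: contradiction. Replace `M` by `J`, `T` by
`N' + T + b`; after at most `b` replacements the procedure stops. `T0` is the last bound.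
-/

set_option autoImplicit false

namespace Pool.Agent.Helper72.BH

open FreeGroup (of)
open Pool.Agent.Helper22.OR (Gen)
open Pool.Agent.Helper24.HL

theorem stabilize (N' : ℕ) : ∃ T0 K : ℕ, ∀ (G : Type) [Group G], Tame G K →
    ∀ (H H' : Subgroup G), Gen N' H' → H ≤ H' → Gen N' H →
    ∃ (T p q : ℕ) (α : Fin p → G) (β : Fin q → G), T ≤ T0 ∧ q ≤ bhl N' ∧ N' + (p + q) ≤ T ∧
      Function.Injective (FreeGroup.lift (Fin.append α β)) ∧
      Filled p H (Subgroup.closure (Set.range α)) ∧
      hull N' H' ≤ Subgroup.closure (Set.range α) ⊔ Subgroup.closure (Set.range β) ∧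
      Filled (p + q) H' (Subgroup.closure (Set.range α) ⊔ Subgroup.closure (Set.range β)) ∧
      ∀ C : Subgroup G, FilledLe T H C → Subgroup.closure (Set.range α) ≤ C →
        ∀ (c : ℕ) (γ : Fin c → G), Function.Injective (FreeGroup.lift γ) →
          Subgroup.closure (Set.range γ) = C →
          Function.Injective (FreeGroup.lift (Fin.append γ β)) := by
  let T : ℕ → ℕ := fun r => N' + r
  have hT : Monotone T := fun a b h => Nat.add_le_add_left h N'
  let B : ℕ := bnd T (bhl N') (bhl N')
  refine ⟨N' + B, B + (N' + B) + (bhl N' + N'), ?_⟩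
  intro G _ hG H H' hH' hHH' _
  obtain ⟨k, hk, hfill⟩ := hull_filled hG (by omega) hH'
  obtain ⟨m, hm, ⟨φ⟩⟩ := hG.free k (by omega) _ hfill.gen
  have hkm : k = m := filled_rank φ hfill
  subst hkm
  obtain ⟨j, q, a, b, hjq, hgen, hinj, hleft⟩ := exists_factor φ (hHH'.trans hfill.le)
  subst hjq
  have hs : Split H H' (hull N' H') a b := ⟨hgen, hinj, hleft, hfill⟩
  have hB : bnd T q (j + q) ≤ B := by
    refine (bnd_mono hT q hk).trans ?_
    exact bnd_mono_left hT (bhl N') (show q ≤ bhl N' by omega)
  have hfree : FreeUpTo G (B + (N' + B) + (bhl N' + N')) := fun k A h1 h2 => hG.free k h1 A h2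
  obtain ⟨j', q', a', b', M', h1, h2, h3, h4, h5⟩ := stab_loop hfree hHH' hT q j a b _ hs (by
    have h6 := hT hB
    change bnd T q (j + q) + T (bnd T q (j + q)) ≤ B + (N' + B) + (bhl N' + N')
    change T (bnd T q (j + q)) ≤ N' + B at h6
    omega)
  refine ⟨N' + (j' + q'), j', q', a', b', ?_, ?_, le_rfl, h2.inj, h2.left, ?_, ?_, ?_⟩
  · have := h4.trans hB
    omega
  · omega
  · rw [h2.gen]
    exact h1
  · rw [h2.gen]
    exact h2.fill
  · intro C hC hαC c γ hγ hγC
    exact h5 C hC hαC c γ hγC hγ

end Pool.Agent.Helper72.BH
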