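import Mathlib

/-!
# Functions on a free group given by their increments along the Cayley graph

`walk w g` is the product of the values of `w` along a path from `1` to `g` in the Cayley graph:
`walk w 1 = 1`, `walk w (g * x) = walk w g * w g x`.
-/

set_option autoImplicit false

namespace Pool.Agent.Helper72.BH

open FreeGroup (of)

/-- Induction over the Cayley graph. -/
theorem fg_induct {X : Type} {p : FreeGroup X → Prop} (h1 : p 1)
    (h2 : ∀ g x, p g → p (g * of x)) (h3 : ∀ g x, p g → p (g * (of x)⁻¹)) : ∀ g, p g := by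
  have h : ∀ w g : FreeGroup X, p g → p (g * w) := by
    intro w
    induction w using FreeGroup.induction_on with
    | C1 => intro g hg; simpa using hg
    | of x => intro g hg; exact h2 g x hg
    | inv_of x _ => intro g hg; exact h3 g x hg
    | mul a b ha hb => intro g hg; rw [← mul_assoc]; exact hb _ (ha _ hg)
  intro g
  simpa using h g 1 h1

/-- The permutation used in the definition of `walk`. -/
def wperm {X : Type} {G : Type*} [Group G] (w : FreeGroup X → X → G) (x : X) :
    Equiv.Perm (FreeGroup X × G) where
  toFun p := (p.1 * of x, p.2 * w p.1 x)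
  invFun p := (p.1 * (of x)⁻¹, p.2 * (w (p.1 * (of x)⁻¹) x)⁻¹)
  left_inv p := by simp
  right_inv p := by simp

theorem wperm_fst {X : Type} {G : Type*} [Group G] (w : FreeGroup X → X → G) (x : X)
    (p : FreeGroup X × G) : (wperm w x p).1 = p.1 * of x := rfl

theorem wperm_snd {X : Type} {G : Type*} [Group G] (w : FreeGroup X → X → G) (x : X)
    (p : FreeGroup X × G) : (wperm w x p).2 = p.2 * w p.1 x := rfl

theorem wperm_symm_fst {X : Type} {G : Type*} [Group G] (w : FreeGroup X → X → G) (x : X)
    (p : FreeGroup X × G) : ((wperm w x).symm p).1 = p.1 * (of x)⁻¹ := rfl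

/-- The product of the increments along a path from `1` to `g`. -/
noncomputable def walk {X : Type} {G : Type*} [Group G] (w : FreeGroup X → X → G)
    (g : FreeGroup X) : G :=
  ((FreeGroup.lift (fun x => MulOpposite.op (wperm w x)) g).unop (1, 1)).2

theorem walk_fst {X : Type} {G : Type*} [Group G] (w : FreeGroup X → X → G) (g : FreeGroup X) :
    ((FreeGroup.lift (fun x => MulOpposite.op (wperm w x)) g).unop (1, 1)).1 = g := by
  revert g
  apply fg_induct
  · simp
  · intro g x hg
    rw [map_mul, MulOpposite.unop_mul, Equiv.Perm.mul_apply, FreeGroup.lift_apply_of,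
      MulOpposite.unop_op, wperm_fst, hg]
  · intro g x hg
    rw [map_mul, map_inv, MulOpposite.unop_mul, Equiv.Perm.mul_apply, FreeGroup.lift_apply_of,
      MulOpposite.unop_inv, MulOpposite.unop_op]
    change ((wperm w x).symm _).1 = _
    rw [wperm_symm_fst, hg]

@[simp] theorem walk_one {X : Type} {G : Type*} [Group G] (w : FreeGroup X → X → G) :
    walk w 1 = 1 := by
  simp [walk]

theorem walk_of {X : Type} {G : Type*} [Group G] (w : FreeGroup X → X → G) (g : FreeGroup X)
    (x : X) : walk w (g * of x) = walk w g * w g x := by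
  unfold walk
  rw [map_mul, MulOpposite.unop_mul, Equiv.Perm.mul_apply, FreeGroup.lift_apply_of,
    MulOpposite.unop_op, wperm_snd, walk_fst w g]

/-- The additive form of `walk`. -/
noncomputable def awalk {X : Type} {C : Type*} [AddGroup C] (w : FreeGroup X → X → C)
    (g : FreeGroup X) : C :=
  Multiplicative.toAdd (walk (fun g x => Multiplicative.ofAdd (w g x)) g)

@[simp] theorem awalk_one {X : Type} {C : Type*} [AddGroup C] (w : FreeGroup X → X → C) :
    awalk w 1 = 0 := by
  simp [awalk]

theorem awalk_of {X : Type} {C : Type*} [AddGroup C] (w : FreeGroup X → X → C) (g : FreeGroup X)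
    (x : X) : awalk w (g * of x) = awalk w g + w g x := by
  simp [awalk, walk_of]

/-- Two functions with the same increments and the same value at `1` are equal. -/
theorem walk_unique {X : Type} {G : Type*} [Group G] {F1 F2 : FreeGroup X → G}
    (w : FreeGroup X → X → G) (h1 : F1 1 = F2 1) (hF1 : ∀ g x, F1 (g * of x) = F1 g * w g x)
    (hF2 : ∀ g x, F2 (g * of x) = F2 g * w g x) : ∀ g, F1 g = F2 g := by
  refine fg_induct (p := fun g => F1 g = F2 g) h1 ?_ ?_
  · intro g x h
    rw [hF1, hF2, h]
  · intro g x h
    have e1 := hF1 (g * (of x)⁻¹) x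
    have e2 := hF2 (g * (of x)⁻¹) x
    rw [inv_mul_cancel_right] at e1 e2
    rw [e1, e2] at h
    exact mul_right_cancel h

/-- Additive form of `walk_unique`. -/
theorem awalk_unique {X : Type} {C : Type*} [AddGroup C] {F1 F2 : FreeGroup X → C}
    (w : FreeGroup X → X → C) (h1 : F1 1 = F2 1) (hF1 : ∀ g x, F1 (g * of x) = F1 g + w g x)
    (hF2 : ∀ g x, F2 (g * of x) = F2 g + w g x) : ∀ g, F1 g = F2 g := by
  refine fg_induct (p := fun g => F1 g = F2 g) h1 ?_ ?_
  · intro g x h
    rw [hF1, hF2, h]
  · intro g x h
    have e1 := hF1 (g * (of x)⁻¹) x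
    have e2 := hF2 (g * (of x)⁻¹) x
    rw [inv_mul_cancel_right] at e1 e2
    rw [e1, e2] at h
    exact add_right_cancel h

end Pool.Agent.Helper72.BH
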